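import Mathlib

/-! # JO, part S: completion of a space with a positive semidefinite form -/

namespace Pool.Agent.JOS

open scoped ComplexConjugate

/-- Hilbert space completion -/
theorem exists_hilbert {W : Type} [AddCommGroup W] [Module ℂ W] (B : W → W → ℂ)
    (hsymm : ∀ x y, conj (B y x) = B x y) (hpos : ∀ x, 0 ≤ (B x x).re)
    (hadd : ∀ x y z, B (x + y) z = B x z + B y z) (hsmul : ∀ x y r, B (r • x) y = conj r * B x y) :
    ∃ (V : Type) (_ : NormedAddCommGroup V) (_ : InnerProductSpace ℂ V) (_ : CompleteSpace V)
      (J : W →ₗ[ℂ] V), DenseRange J ∧ ∀ x y, inner ℂ (J x) (J y) = B x y := by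
  let cd : PreInnerProductSpace.Core ℂ W :=
    { inner := B
      conj_inner_symm := hsymm
      re_inner_nonneg := hpos
      add_left := hadd
      smul_left := hsmul }
  let i1 : SeminormedAddCommGroup W := @InnerProductSpace.Core.toSeminormedAddCommGroup ℂ W _ _ _ cd
  let i2 : InnerProductSpace ℂ W := InnerProductSpace.ofCore cd
  refine ⟨UniformSpace.Completion W, inferInstance, inferInstance, inferInstance,
    (UniformSpace.Completion.toComplL (𝕜 := ℂ) (E := W)).toLinearMap, ?_, ?_⟩
  · exact UniformSpace.Completion.denseRange_coe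
  · intro x y
    exact UniformSpace.Completion.inner_coe x y

end Pool.Agent.JOS
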