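import Mathlib

/-! # JO, part S: Hilbert-Schmidt operators are compact -/

namespace Pool.Agent.JOS

open Filter Topology

variable {H : Type*} [NormedAddCommGroup H] [InnerProductSpace ℂ H] [CompleteSpace H]

/-- Hilbert-Schmidt operators are compact -/
theorem hs_compact (T : H →L[ℂ] H) (M : ℝ)
    (hM : ∀ (n : ℕ) (e : Fin n → H), Orthonormal ℂ e → ∑ i, ‖T (e i)‖ ^ 2 ≤ M) :
    IsCompactOperator T := by
  set A : Set ℝ := {x | ∃ (n : ℕ) (e : Fin n → H), Orthonormal ℂ e ∧ x = ∑ i, ‖T (e i)‖ ^ 2} with hA
  have hA0 : A.Nonempty := ⟨_, 0, Fin.elim0, ⟨fun i => i.elim0, fun i => i.elim0⟩, rfl⟩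
  have hAb : BddAbove A := ⟨M, by rintro x ⟨n, e, he, rfl⟩; exact hM n e he⟩
  have key : ∀ ε > 0, ∃ S : H →L[ℂ] H, IsCompactOperator S ∧ ‖T - S‖ ≤ ε := by
    intro ε hε
    obtain ⟨x, ⟨n, e, he, rfl⟩, hx⟩ := exists_lt_of_lt_csSup hA0
      (show sSup A - ε ^ 2 < sSup A by nlinarith [sq_pos_of_pos hε])
    set K : Submodule ℂ H := Submodule.span ℂ (Set.range e) with hK
    have hKf : FiniteDimensional ℂ K := FiniteDimensional.span_of_finite ℂ (Set.finite_range e)
    have hKc : CompleteSpace K := FiniteDimensional.complete ℂ K
    refine ⟨T.comp K.starProjection, ?_, ?_⟩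
    · have h1 : IsCompactOperator (K.orthogonalProjectionOnto : H →L[ℂ] K) := by
        have h0 : IsCompactOperator (_root_.id : K → K) := isCompactOperator_id
        exact h0.comp_clm K.orthogonalProjectionOnto
      exact h1.clm_comp (T.comp K.subtypeL)
    · have hv : ∀ v : H, (∀ i, inner ℂ (e i) v = 0) → ‖T v‖ ≤ ε * ‖v‖ := by
        intro v hv
        by_cases hv0 : v = 0
        · simp [hv0]
        have hvn : 0 < ‖v‖ := norm_pos_iff.2 hv0
        set u : H := ((‖v‖⁻¹ : ℝ) : ℂ) • v with hu
        have hun : ‖u‖ = 1 := by
          rw [hu, norm_smul, Complex.norm_real, norm_inv, norm_norm, inv_mul_cancel₀ hvn.ne']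
        have huo : ∀ i, inner ℂ (e i) u = 0 := fun i => by rw [hu, inner_smul_right, hv i, mul_zero]
        have ho : Orthonormal ℂ (Fin.cons u e : Fin (n + 1) → H) := by
          constructor
          · intro i
            refine Fin.cases ?_ (fun j => ?_) i
            · simpa using hun
            · simpa using he.1 j
          · intro i j hij
            revert hij
            refine Fin.cases ?_ (fun i => ?_) i <;> refine Fin.cases ?_ (fun j => ?_) j
            · intro h; exact absurd rfl h
            · intro _
              simp only [Fin.cons_zero, Fin.cons_succ]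
              rw [← inner_conj_symm, huo j, map_zero]
            · intro _
              simp only [Fin.cons_zero, Fin.cons_succ]
              exact huo i
            · intro h
              simp only [Fin.cons_succ]
              exact he.2 (fun h2 => h (by rw [h2]))
        have h3 : ∑ i, ‖T ((Fin.cons u e : Fin (n + 1) → H) i)‖ ^ 2 ≤ sSup A :=
          le_csSup hAb ⟨n + 1, _, ho, rfl⟩
        rw [Fin.sum_univ_succ] at h3
        simp only [Fin.cons_zero, Fin.cons_succ] at h3
        have h4 : ‖T u‖ ^ 2 ≤ ε ^ 2 := by linarith
        have h5 : ‖T u‖ ≤ ε := by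
          have := abs_le_of_sq_le_sq h4 hε.le
          exact (abs_le.1 this).2
        rw [hu, map_smul, norm_smul, Complex.norm_real, norm_inv, norm_norm] at h5
        rw [inv_mul_le_iff₀ hvn] at h5
        linarith
      refine ContinuousLinearMap.opNorm_le_bound _ hε.le (fun x => ?_)
      have h6 : (T - T.comp K.starProjection) x = T (x - K.starProjection x) := by
        simp
      rw [h6]
      refine (hv _ (fun i => ?_)).trans ?_
      · have := K.starProjection_inner_eq_zero x (e i) (Submodule.subset_span ⟨i, rfl⟩)
        rw [← inner_conj_symm, this, map_zero]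
      · refine mul_le_mul_of_nonneg_left ?_ hε.le
        have h7 : inner ℂ (x - K.starProjection x) (K.starProjection x) = 0 :=
          K.starProjection_inner_eq_zero x _ (K.starProjection_apply_mem x)
        have h8 := norm_add_sq_eq_norm_sq_add_norm_sq_of_inner_eq_zero
          (x - K.starProjection x) (K.starProjection x) h7
        rw [sub_add_cancel] at h8
        have h9 := norm_nonneg (x - K.starProjection x)
        nlinarith [norm_nonneg x, norm_nonneg (K.starProjection x)]
  choose! S hS1 hS2 using key
  have hlim : Tendsto (fun n : ℕ => S (1 / ((n : ℝ) + 1))) atTop (𝓝 T) := by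
    rw [tendsto_iff_norm_sub_tendsto_zero]
    refine squeeze_zero (fun n => norm_nonneg _) (fun n => ?_) tendsto_one_div_add_atTop_nhds_zero_nat
    rw [norm_sub_rev]
    exact hS2 _ (by positivity)
  exact isCompactOperator_of_tendsto hlim (Eventually.of_forall (fun n => hS1 _ (by positivity)))

end Pool.Agent.JOS
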