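import Pool.Agent.Lib_helper58.JOS.Rayf

/-! # JO, part S: the spectral components and their ray functions -/

namespace Pool.Agent.JOS

open Complex MeasureTheory Filter Topology UpperHalfPlane ModularGroup Set Metric
open scoped MatrixGroups Modular ENNReal ComplexConjugate ContDiff
open Pool.Agent.JO (QN red FamH)

section abstract

variable {V : Type*} [NormedAddCommGroup V] [InnerProductSpace ℂ V] {ι : Type*}

/-- partial sums of an orthogonal series -/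
theorem orth_norm_sq {w : ι → V} (ho : ∀ i j, i ≠ j → inner ℂ (w i) (w j) = (0 : ℂ)) (F : Finset ι)
    (ε : ι → ℂ) : ‖∑ i ∈ F, ε i • w i‖ ^ 2 = ∑ i ∈ F, ‖ε i‖ ^ 2 * ‖w i‖ ^ 2 := by
  have h1 : (inner ℂ (∑ i ∈ F, ε i • w i) (∑ i ∈ F, ε i • w i) : ℂ) =
      ((∑ i ∈ F, ‖ε i‖ ^ 2 * ‖w i‖ ^ 2 : ℝ) : ℂ) := by
    rw [sum_inner]
    push_cast
    refine Finset.sum_congr rfl (fun i hi => ?_)
    rw [inner_sum, Finset.sum_eq_single i]
    · rw [inner_smul_left, inner_smul_right, inner_self_eq_norm_sq_to_K, ← mul_assoc,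
        ← Complex.normSq_eq_conj_mul_self, Complex.normSq_eq_norm_sq]
      push_cast
      rfl
    · intro j _ hj
      rw [inner_smul_left, inner_smul_right, ho i j (Ne.symm hj), mul_zero, mul_zero]
    · intro h
      exact absurd hi h
  rw [inner_self_eq_norm_sq_to_K] at h1
  apply Complex.ofReal_injective
  rw [← h1]
  push_cast
  rfl

theorem orth_le {w : ι → V} {G : V} (ho : ∀ i j, i ≠ j → inner ℂ (w i) (w j) = (0 : ℂ))
    (hs : HasSum w G) (F : Finset ι) (ε : ι → ℂ) (hε : ∀ i, ‖ε i‖ ≤ 1) :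
    ‖∑ i ∈ F, ε i • w i‖ ≤ ‖G‖ := by
  have h1 : ∀ j, (inner ℂ (w j) G : ℂ) = ((‖w j‖ ^ 2 : ℝ) : ℂ) := by
    intro j
    have h2 : HasSum (fun i => (inner ℂ (w j) (w i) : ℂ)) (inner ℂ (w j) G) :=
      hs.mapL (innerSL ℂ (w j))
    have h3 : HasSum (fun i => (inner ℂ (w j) (w i) : ℂ)) (inner ℂ (w j) (w j)) :=
      hasSum_single j (fun i hi => ho j i (Ne.symm hi))
    rw [h2.unique h3, inner_self_eq_norm_sq_to_K]
    push_cast
    rfl
  have h2 : ∑ i ∈ F, ‖w i‖ ^ 2 ≤ ‖G‖ ^ 2 := by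
    have e1 := orth_norm_sq ho F (fun _ => 1)
    simp only [one_smul, norm_one, one_pow, one_mul] at e1
    have e2 : (inner ℂ (∑ i ∈ F, w i) G : ℂ) = ((∑ i ∈ F, ‖w i‖ ^ 2 : ℝ) : ℂ) := by
      rw [sum_inner]
      push_cast
      refine Finset.sum_congr rfl (fun i _ => ?_)
      rw [h1]
      push_cast
      rfl
    have e3 := norm_inner_le_norm (𝕜 := ℂ) (∑ i ∈ F, w i) G
    rw [e2, Complex.norm_real, Real.norm_of_nonneg (Finset.sum_nonneg (fun i _ => by positivity)),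
      ← e1] at e3
    rw [← e1]
    have h4 := norm_nonneg (∑ i ∈ F, w i)
    by_cases h5 : ‖∑ i ∈ F, w i‖ = 0
    · rw [h5, zero_pow two_ne_zero]; positivity
    · have h6 : 0 < ‖∑ i ∈ F, w i‖ := lt_of_le_of_ne h4 (Ne.symm h5)
      have h7 : ‖∑ i ∈ F, w i‖ ≤ ‖G‖ := by
        rw [pow_two] at e3
        exact le_of_mul_le_mul_left e3 h6
      gcongr
  have h3 := orth_norm_sq ho F ε
  have h4 : ∑ i ∈ F, ‖ε i‖ ^ 2 * ‖w i‖ ^ 2 ≤ ∑ i ∈ F, ‖w i‖ ^ 2 := by
    refine Finset.sum_le_sum (fun i _ => ?_)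
    have : ‖ε i‖ ^ 2 ≤ 1 := pow_le_one₀ (norm_nonneg _) (hε i)
    exact mul_le_of_le_one_left (by positivity) this
  exact abs_le_of_sq_le_sq' (by linarith) (norm_nonneg _) |>.2

/-- a unimodular number turning `z` into its norm -/
theorem exists_phase (z : ℂ) : ∃ e : ℂ, ‖e‖ ≤ 1 ∧ e * z = (‖z‖ : ℂ) := by
  by_cases hz : z = 0
  · exact ⟨0, by simp, by simp [hz]⟩
  · have h0 : (‖z‖ : ℂ) ≠ 0 := by exact_mod_cast (norm_ne_zero_iff.2 hz)
    refine ⟨conj z / ‖z‖, ?_, ?_⟩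
    · rw [norm_div, RCLike.norm_conj, Complex.norm_real, norm_norm, div_self (norm_ne_zero_iff.2 hz)]
    · rw [div_mul_eq_mul_div, ← Complex.normSq_eq_conj_mul_self, Complex.normSq_eq_norm_sq]
      push_cast
      field_simp

theorem orth_fun {w : ι → V} {G : V} (ho : ∀ i j, i ≠ j → inner ℂ (w i) (w j) = (0 : ℂ))
    (hs : HasSum w G) (E : V →ₗ[ℂ] ℂ) {C : ℝ} (hC : ∀ v, ‖E v‖ ≤ C * ‖v‖) (hC0 : 0 ≤ C)
    (F : Finset ι) : ∑ i ∈ F, ‖E (w i)‖ ≤ C * ‖G‖ := by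
  choose e he1 he2 using fun i => exists_phase (E (w i))
  have h1 : ((∑ i ∈ F, ‖E (w i)‖ : ℝ) : ℂ) = E (∑ i ∈ F, e i • w i) := by
    rw [map_sum]
    push_cast
    refine Finset.sum_congr rfl (fun i _ => ?_)
    rw [map_smul, smul_eq_mul, he2 i]
  have h2 : ∑ i ∈ F, ‖E (w i)‖ = ‖E (∑ i ∈ F, e i • w i)‖ := by
    rw [← h1, Complex.norm_real, Real.norm_of_nonneg (Finset.sum_nonneg (fun i _ => norm_nonneg _))]
  rw [h2]
  exact (hC _).trans (mul_le_mul_of_nonneg_left (orth_le ho hs F e he1) hC0)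

end abstract

variable {N : ℕ} [NeZero N]
variable {V : Type} [NormedAddCommGroup V] [InnerProductSpace ℂ V] [CompleteSpace V]

/-- spectral components of `G` (indexed by the eigenvalue) -/
structure Comps (M : Model N V) (G : V) (w : Option ℝ → V) : Prop where
  zero : ∀ k, M.op k (w none) = 0
  eig : ∀ (l : ℝ) k, M.op (Dk k) (w (some l)) = (l : ℂ) • M.op k (w (some l))
  perp : ∀ (l : ℝ) u, (∀ k, M.op k u = 0) → inner ℂ u (w (some l)) = (0 : ℂ)
  orth : ∀ i j, i ≠ j → inner ℂ (w i) (w j) = (0 : ℂ)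
  sum : HasSum w G

theorem Model.comps (M : Model N V) (G : V) : ∃ w : Option ℝ → V, Comps M G w := by
  obtain ⟨w, h1, h2⟩ := M.sys.spectral G
  exact ⟨w, fun k => mem_V0.1 (h1 none) k, fun l k => (mem_EL.1 (h1 (some l))).2 k,
    fun l u hu => (mem_EL.1 (h1 (some l))).1 u hu, fun i j h => M.sys.FF_orth h (h1 i) (h1 j), h2⟩

/-- the ray function of a component, smoothed by `k` and `l` -/
noncomputable def cf (M : Model N V) (k l : TKs) (w : V) (θ : ℝ) : ℂ := M.ray k θ (M.op l w)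

/-- its derivative -/
noncomputable def cf' (M : Model N V) (k l : TKs) (w : V) (θ : ℝ) : ℂ :=
  KK1 k.1 (fun t => M.ray l t w) θ

theorem cf_eq (M : Model N V) (k l : TKs) (w : V) {θ : ℝ} (hθ : θ ∈ Ioo 0 Real.pi) :
    cf M k l w θ = KK k.1 (fun t => M.ray l t w) θ := M.ray_op k l hθ w

theorem cf_deriv (M : Model N V) (k l : TKs) (w : V) {θ : ℝ} (hθ : θ ∈ Ioo 0 Real.pi) :
    HasDerivAt (cf M k l w) (cf' M k l w θ) θ := by
  refine (kk_deriv k.2 (M.ray_cont l w) hθ).1.congr_of_eventuallyEq ?_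
  filter_upwards [Ioo_mem_nhds hθ.1 hθ.2] with t ht
  exact cf_eq M k l w ht

theorem cf'_deriv (M : Model N V) (k l : TKs) (w : V) {θ : ℝ} (hθ : θ ∈ Ioo 0 Real.pi) :
    HasDerivAt (cf' M k l w) (-(M.ray k θ (M.op (Dk l) w)) / ((Real.sin θ ^ 2 : ℝ) : ℂ)) θ := by
  have h := (kk_deriv k.2 (M.ray_cont l w) hθ).2
  have h2 : KK (DD k.1) (fun t => M.ray l t w) θ = M.ray k θ (M.op (Dk l) w) := by
    rw [← M.ray_drel k l hθ w, M.ray_op (Dk k) l hθ w]
    rfl
  rw [h2] at h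
  exact h

theorem cf_add (M : Model N V) (k l : TKs) (w w' : V) (θ : ℝ) :
    cf M k l (w + w') θ = cf M k l w θ + cf M k l w' θ := by
  simp [cf]

/-- `cf` as a linear map -/
noncomputable def cfL (M : Model N V) (k l : TKs) (θ : ℝ) : V →ₗ[ℂ] ℂ :=
  ((M.ray k θ).comp (M.op l)).toLinearMap

open scoped Classical in
/-- `cf'` as a linear map -/
noncomputable def cfL' (M : Model N V) (k l : TKs) (θ : ℝ) : V →ₗ[ℂ] ℂ :=
  if hθ : θ ∈ Ioo 0 Real.pi then
    { toFun := fun w => cf' M k l w θ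
      map_add' := fun w w' => by
        have h1 := cf_deriv M k l (w + w') hθ
        have h2 := (cf_deriv M k l w hθ).add (cf_deriv M k l w' hθ)
        refine h1.unique (h2.congr_of_eventuallyEq (Eventually.of_forall (fun t => ?_)))
        exact cf_add M k l w w' t
      map_smul' := fun c w => by
        have h1 := cf_deriv M k l (c • w) hθ
        have h2 := (cf_deriv M k l w hθ).const_mul c
        refine h1.unique (h2.congr_of_eventuallyEq (Eventually.of_forall (fun t => ?_)))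
        simp [cf] }
  else 0

theorem cfL'_apply (M : Model N V) (k l : TKs) {θ : ℝ} (hθ : θ ∈ Ioo 0 Real.pi) (w : V) :
    cfL' M k l θ w = cf' M k l w θ := by
  rw [cfL', dif_pos hθ]
  rfl

theorem cf_bd (M : Model N V) (k l : TKs) : ∃ C : ℝ, 0 ≤ C ∧ ∀ θ ∈ Ioo 0 Real.pi, ∀ w : V,
    ‖cf M k l w θ‖ ≤ C * Real.sin θ ^ (-(1 / 2) : ℝ) * ‖w‖ := by
  refine ⟨Cray N k * ‖M.op l‖, mul_nonneg (Cray_nonneg k) (norm_nonneg _), fun θ hθ w => ?_⟩
  refine (M.ray_bd k hθ _).trans ?_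
  have h1 := (M.op l).le_opNorm w
  have h2 : 0 ≤ Cray N k * Real.sin θ ^ (-(1 / 2) : ℝ) :=
    mul_nonneg (Cray_nonneg k) (Real.rpow_nonneg (sin_pos_pi hθ).le _)
  calc Cray N k * Real.sin θ ^ (-(1 / 2) : ℝ) * ‖M.op l w‖
      ≤ Cray N k * Real.sin θ ^ (-(1 / 2) : ℝ) * (‖M.op l‖ * ‖w‖) :=
        mul_le_mul_of_nonneg_left h1 h2
    _ = _ := by ring

theorem cf'_bd (M : Model N V) (k l : TKs) : ∃ C : ℝ, 0 ≤ C ∧ ∀ θ ∈ Ioo 0 Real.pi, ∀ w : V,
    ‖cf' M k l w θ‖ ≤ C * Real.sin θ ^ (-(3 / 2) : ℝ) * ‖w‖ := by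
  obtain ⟨C, hC, hb⟩ := kk1_bd k.2 (1 / 2) (by norm_num)
  refine ⟨C * Cray N l, mul_nonneg hC (Cray_nonneg l), fun θ hθ w => ?_⟩
  refine (hb (fun t => M.ray l t w) (Cray N l * ‖w‖) (M.ray_cont l w) (fun t ht => ?_) θ hθ).trans
    (le_of_eq ?_)
  · refine (M.ray_bd l ht w).trans (le_of_eq ?_)
    ring
  · have : (-(1 / 2 + 1) : ℝ) = -(3 / 2) := by norm_num
    rw [this]
    ring

/-- the family of ray functions of the components -/
theorem Comps.sums {M : Model N V} {G : V} {w : Option ℝ → V} (H : Comps M G w) (k l : TKs) :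
    ∃ C : ℝ, 0 ≤ C ∧ ∀ θ ∈ Ioo 0 Real.pi, ∀ F : Finset (Option ℝ),
      ∑ i ∈ F, ‖cf M k l (w i) θ‖ ≤ C * Real.sin θ ^ (-(3 / 2) : ℝ) ∧
      ∑ i ∈ F, ‖cf' M k l (w i) θ‖ ≤ C * Real.sin θ ^ (-(3 / 2) : ℝ) := by
  obtain ⟨C1, hC1, h1⟩ := cf_bd M k l
  obtain ⟨C2, hC2, h2⟩ := cf'_bd M k l
  refine ⟨(C1 + C2) * ‖G‖, by positivity, fun θ hθ F => ⟨?_, ?_⟩⟩
  · have hs := sin_pos_pi hθ
    have e1 := orth_fun H.orth H.sum (cfL M k l θ) (C := C1 * Real.sin θ ^ (-(1 / 2) : ℝ))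
      (fun v => h1 θ hθ v) (by positivity) F
    refine e1.trans ?_
    have e2 : Real.sin θ ^ (-(1 / 2) : ℝ) ≤ Real.sin θ ^ (-(3 / 2) : ℝ) :=
      Real.rpow_le_rpow_of_exponent_ge hs (Real.sin_le_one θ) (by norm_num)
    calc C1 * Real.sin θ ^ (-(1 / 2) : ℝ) * ‖G‖ ≤ C1 * Real.sin θ ^ (-(3 / 2) : ℝ) * ‖G‖ := by
          gcongr
      _ ≤ (C1 + C2) * Real.sin θ ^ (-(3 / 2) : ℝ) * ‖G‖ := by
          gcongr
          linarith
      _ = _ := by ring
  · have hs := sin_pos_pi hθ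
    have e1 := orth_fun H.orth H.sum (cfL' M k l θ) (C := C2 * Real.sin θ ^ (-(3 / 2) : ℝ))
      (fun v => by rw [cfL'_apply M k l hθ]; exact h2 θ hθ v) (by positivity) F
    simp_rw [cfL'_apply M k l hθ] at e1
    refine e1.trans ?_
    calc C2 * Real.sin θ ^ (-(3 / 2) : ℝ) * ‖G‖ ≤ (C1 + C2) * Real.sin θ ^ (-(3 / 2) : ℝ) * ‖G‖ := by
          gcongr
          linarith
      _ = _ := by ring

/-- the index set of nonzero components -/
def IX (w : Option ℝ → V) : Type := {l : ℝ // w (some l) ≠ 0}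

theorem Comps.countable {M : Model N V} {G : V} {w : Option ℝ → V} (H : Comps M G w) :
    Countable (IX w) := by
  have h1 : (Function.support w).Countable := H.sum.summable.countable_support
  have h2 : Countable (Function.support w) := h1.to_subtype
  exact Function.Injective.countable
    (f := fun l : IX w => (⟨some l.1, l.2⟩ : Function.support w))
    (fun a b h => Subtype.ext (Option.some_injective _ (congrArg Subtype.val h)))

theorem Comps.hasSum {M : Model N V} {G : V} {w : Option ℝ → V} (H : Comps M G w) (k l : TKs)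
    (θ : ℝ) : HasSum (fun i : IX w => cf M k l (w (some i.1)) θ) (cf M k l G θ) := by
  have h1 : HasSum (fun i => cf M k l (w i) θ) (cf M k l G θ) :=
    H.sum.mapL ((M.ray k θ).comp (M.op l))
  have hinj : Function.Injective (fun i : IX w => (some i.1 : Option ℝ)) :=
    fun a b h => Subtype.ext (Option.some_injective _ h)
  refine (hinj.hasSum_iff (f := fun i => cf M k l (w i) θ) (fun i hi => ?_)).2 h1
  cases i with
  | none => simp [cf, H.zero l]
  | some m =>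
    by_cases hm : w (some m) = 0
    · simp [cf, hm]
    · exact absurd ⟨⟨m, hm⟩, rfl⟩ hi

theorem Comps.ode {M : Model N V} {G : V} {w : Option ℝ → V} (H : Comps M G w) (k l : TKs)
    (m : ℝ) {θ : ℝ} (hθ : θ ∈ Ioo 0 Real.pi) :
    HasDerivAt (cf' M k l (w (some m)))
      (-((m / Real.sin θ ^ 2 : ℝ) : ℂ) * cf M k l (w (some m)) θ) θ := by
  refine (cf'_deriv M k l (w (some m)) hθ).congr_deriv ?_
  rw [H.eig m l, map_smul]
  unfold cf
  push_cast
  rw [smul_eq_mul]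
  ring

/-- the family of components satisfies the hypotheses of the one dimensional theorem -/
theorem Comps.solFam {M : Model N V} {G : V} {w : Option ℝ → V} (H : Comps M G w) (k l : TKs) :
    ∃ C : ℝ, Pool.Agent.SP.SolFam (fun i : IX w => i.1) (fun i => cf M k l (w (some i.1)))
      (fun i => cf' M k l (w (some i.1))) (cf M k l G) (3 / 2) C := by
  obtain ⟨C, hC, hb⟩ := H.sums k l
  have hII : ∀ θ ∈ Pool.Agent.SP.II, θ ∈ Ioo 0 Real.pi := fun θ h =>
    ⟨h.1, h.2.trans (by linarith [Real.pi_pos])⟩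
  have hsum : ∀ θ ∈ Ioo 0 Real.pi, ∀ F : Finset (IX w),
      ∑ i ∈ F, ‖cf M k l (w (some i.1)) θ‖ ≤ C * Real.sin θ ^ (-(3 / 2) : ℝ) ∧
      ∑ i ∈ F, ‖cf' M k l (w (some i.1)) θ‖ ≤ C * Real.sin θ ^ (-(3 / 2) : ℝ) := by
    classical
    intro θ hθ F
    have hinj : Function.Injective (fun i : IX w => (some i.1 : Option ℝ)) :=
      fun a b h => Subtype.ext (Option.some_injective _ h)
    have h := hb θ hθ (F.map ⟨_, hinj⟩)
    rw [Finset.sum_map, Finset.sum_map] at h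
    exact h
  have hrp : ∀ θ ∈ Pool.Agent.SP.II,
      C * Real.sin θ ^ (-(3 / 2) : ℝ) ≤ C * 2 ^ (3 / 2 : ℝ) * θ ^ (-(3 / 2) : ℝ) := by
    intro θ h
    have h1 := Pool.Agent.SP.sin_ge h
    have h2 : Real.sin θ ^ (-(3 / 2) : ℝ) ≤ (θ / 2) ^ (-(3 / 2) : ℝ) :=
      Real.rpow_le_rpow_of_nonpos (by linarith [h.1]) h1 (by norm_num)
    have h3 : (θ / 2) ^ (-(3 / 2) : ℝ) = 2 ^ (3 / 2 : ℝ) * θ ^ (-(3 / 2) : ℝ) := by
      rw [Real.div_rpow h.1.le (by norm_num), Real.rpow_neg (by norm_num : (0 : ℝ) ≤ 2)]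
      field_simp
    calc C * Real.sin θ ^ (-(3 / 2) : ℝ) ≤ C * (θ / 2) ^ (-(3 / 2) : ℝ) :=
          mul_le_mul_of_nonneg_left h2 hC
      _ = _ := by rw [h3]; ring
  refine ⟨C * 2 ^ (3 / 2 : ℝ), ?_⟩
  refine ⟨by norm_num, fun i θ h => cf_deriv M k l _ (hII θ h), fun i θ h => H.ode k l i.1 (hII θ h),
    fun θ h => ?_, fun θ h => ?_, fun θ h => ?_, fun θ h => ?_, fun θ h => H.hasSum k l θ, ?_⟩
  · exact summable_of_sum_le (fun i => norm_nonneg _) (fun F => (hsum θ (hII θ h) F).1)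
  · exact (Real.tsum_le_of_sum_le (fun i => norm_nonneg _)
      (fun F => (hsum θ (hII θ h) F).1)).trans (hrp θ h)
  · exact summable_of_sum_le (fun i => norm_nonneg _) (fun F => (hsum θ (hII θ h) F).2)
  · exact (Real.tsum_le_of_sum_le (fun i => norm_nonneg _)
      (fun F => (hsum θ (hII θ h) F).2)).trans (hrp θ h)
  · exact fun θ h => (cf_deriv M k l G (hII θ h)).continuousAt.continuousWithinAt

end Pool.Agent.JOS
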