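import Pool.Agent.Lib_helper58.JOS.Gen

/-! # JO, part S: the core identity and the vanishing of the components -/

namespace Pool.Agent.JOS

open Complex MeasureTheory Filter Topology UpperHalfPlane ModularGroup Set Metric
open scoped MatrixGroups Modular ENNReal ComplexConjugate ContDiff
open Pool.Agent.JO (QN red FamH PV bot cH)
open Pool.Agent.Lib_helper37.JO (HJ)

variable {N : ℕ} [NeZero N]
variable {V : Type} [NormedAddCommGroup V] [InnerProductSpace ℂ V] [CompleteSpace V]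

/-- the core identity: the pairing determines the smoothed ray function -/
theorem core (M : Model N V) (g : VF N) (hS : ∀ b, TA b → SqH (PO N (ag (LA3 b)))) (k l : TKs)
    {T : ℝ → ℂ} (hT : ContinuousOn T (Ioo 0 Real.pi))
    (h : ∀ u, TA u → ipH g.1 (PO N (ag (LA3 (KZ l.1 (KZ k.1 u))))) = 2 * PR T u) :
    ∀ θ ∈ Ioo 0 Real.pi, cf M k (D3 l) (M.J g) θ = T θ := by
  have hc : ContinuousOn (fun θ => M.ray k θ (M.op (D3 l) (M.J g))) (Ioo 0 Real.pi) :=
    M.ray_cont k _
  have h1 : ∀ u, TA u → PR (fun θ => M.ray k θ (M.op (D3 l) (M.J g)) - T θ) u = 0 := by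
    intro u hu
    have e1 := pai M g hS k l hu
    rw [h u hu] at e1
    have e2 : PR (fun θ => M.ray k θ (M.op (D3 l) (M.J g)) - T θ) u =
        PR (fun θ => M.ray k θ (M.op (D3 l) (M.J g))) u - PR T u := by
      unfold PR
      rw [← integral_sub (PR_int hc hu) (PR_int hT hu)]
      congr 1
      funext t
      ring
    rw [e2, e1]
    ring
  intro θ hθ
  have h2 := PR_zero (hc.sub hT) h1 θ hθ
  exact sub_eq_zero.1 h2

/-- the pairing with a continuous function -/
theorem core_h (M : Model N V) (g : VF N) (hS : ∀ b, TA b → SqH (PO N (ag (LA3 b))))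
    {h : ℝ → ℂ} (hh : ContinuousOn h (Ioo 0 Real.pi))
    (hp : ∀ b, TA b → ipH g.1 (PO N (ag (LA3 b))) = 2 * PR h (LA3 b)) (k l : TKs) :
    ∀ θ ∈ Ioo 0 Real.pi, cf M k (D3 l) (M.J g) θ = KK k.1 (KK (D3 l).1 h) θ := by
  have hc : ContinuousOn (KK (D3 l).1 h) (Ioo 0 Real.pi) :=
    fun t ht => (kk_deriv (D3 l).2 hh ht).1.continuousAt.continuousWithinAt
  refine core M g hS k l (fun t ht => (kk_deriv k.2 hc ht).1.continuousAt.continuousWithinAt) ?_
  intro u hu
  have hku : TA (KZ k.1 u) := hu.kz k.2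
  rw [hp _ (hku.kz l.2), la3_KZ l hku, ← PR_symm (D3 l).2 hh hku, ← PR_symm k.2 hc hu]

/-- the logarithm and the constants disappear -/
theorem kk_D3_log (l : TKs) (a b : ℂ) {θ : ℝ} (hθ : θ ∈ Ioo 0 Real.pi) :
    KK (D3 l).1 (fun t => a * (Real.log (Real.sin t) : ℂ) + b) θ = 0 := by
  have h1 : ∀ c : ℂ, ∀ t ∈ Ioo 0 Real.pi, KK (DD (Dk l).1) (fun _ => c) t = 0 := by
    intro c t ht
    rw [kk_D (Dk l).2 (g := fun _ => c) (g1 := fun _ => 0) (g2 := fun _ => 0)
      (fun t _ => hasDerivAt_const t c) (fun t _ => hasDerivAt_const t 0) continuousOn_const ht]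
    unfold KK
    simp
  have h2 : ∀ t ∈ Ioo 0 Real.pi, HasDerivAt (fun t => a * (Real.log (Real.sin t) : ℂ) + b)
      (a * ((Real.cos t / Real.sin t : ℝ) : ℂ)) t := by
    intro t ht
    have hs := (sin_pos_pi ht).ne'
    have e1 : HasDerivAt (fun t => Real.log (Real.sin t)) (Real.cos t / Real.sin t) t :=
      (Real.hasDerivAt_sin t).log hs
    exact ((e1.ofReal_comp).const_mul a).add_const b
  have h3 : ∀ t ∈ Ioo 0 Real.pi, HasDerivAt (fun t => a * ((Real.cos t / Real.sin t : ℝ) : ℂ))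
      (a * ((-1 / Real.sin t ^ 2 : ℝ) : ℂ)) t := by
    intro t ht
    have hs := (sin_pos_pi ht).ne'
    have e1 : HasDerivAt (fun t => Real.cos t / Real.sin t) (-1 / Real.sin t ^ 2) t := by
      refine ((Real.hasDerivAt_cos t).div (Real.hasDerivAt_sin t) hs).congr_deriv ?_
      have := Real.sin_sq_add_cos_sq t
      congr 1
      nlinarith
    exact (e1.ofReal_comp).const_mul a
  show KK (DD (Dk (Dk l)).1) _ θ = 0
  rw [kk_D (Dk (Dk l)).2 h2 h3 (by
    refine continuousOn_const.mul (Complex.continuous_ofReal.comp_continuousOn ?_)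
    refine continuousOn_const.div (Real.continuous_sin.pow 2).continuousOn (fun t ht => ?_)
    exact (pow_pos (sin_pos_pi ht) 2).ne') hθ]
  have h4 : KK (Dk (Dk l)).1 (fun t => -((Real.sin t ^ 2 : ℝ) : ℂ) * (a * ((-1 / Real.sin t ^ 2 : ℝ) : ℂ))) θ =
      KK (Dk (Dk l)).1 (fun _ => a) θ := by
    refine kk_congr _ (fun t ht => ?_) θ
    have hs : ((Real.sin t : ℝ) : ℂ) ≠ 0 := by exact_mod_cast (sin_pos_pi ht).ne'
    push_cast at hs ⊢
    field_simp
  rw [h4]
  exact h1 a θ hθ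

/-- comparison of the logarithms -/
theorem log_small {F : ℝ → ℂ} {a b : ℂ}
    (ho : (fun θ => F θ - (a * (Real.log θ : ℂ) + b)) =o[𝓝[>] 0] (fun θ => θ ^ (1 / 2 : ℝ))) :
    (fun θ => F θ - (a * (Real.log (Real.sin θ) : ℂ) + b)) =o[𝓝[>] 0] (fun θ => θ ^ (1 / 2 : ℝ)) := by
  have h1 : (fun θ : ℝ => a * ((Real.log θ - Real.log (Real.sin θ) : ℝ) : ℂ)) =o[𝓝[>] 0]
      (fun θ => θ ^ (1 / 2 : ℝ)) := by
    have h2 : (fun θ : ℝ => a * ((Real.log θ - Real.log (Real.sin θ) : ℝ) : ℂ)) =O[𝓝[>] 0]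
        (fun θ => θ) := by
      refine Asymptotics.IsBigO.of_bound ‖a‖ ?_
      have hev : ∀ᶠ θ in 𝓝[>] (0 : ℝ), θ ∈ Ioo (0 : ℝ) 1 := Ioo_mem_nhdsGT one_pos
      filter_upwards [hev] with θ hθ
      have hII : θ ∈ Pool.Agent.SP.II := ⟨hθ.1, by linarith [hθ.2, Real.pi_gt_three]⟩
      have hs := Pool.Agent.SP.sin_pos' hII
      have hs2 := Pool.Agent.SP.sin_ge hII
      have hs3 := Real.sin_gt_sub_cube hθ.1
      have hs4 := Real.sin_lt hθ.1
      have e1 : 0 ≤ Real.log θ - Real.log (Real.sin θ) := by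
        have := Real.log_le_log hs hs4.le
        linarith
      have e2 : Real.log θ - Real.log (Real.sin θ) ≤ θ := by
        rw [← Real.log_div hθ.1.ne' hs.ne']
        refine (Real.log_le_sub_one_of_pos (div_pos hθ.1 hs)).trans ?_
        rw [div_sub_one hs.ne', div_le_iff₀ hs]
        nlinarith [hθ.1, hθ.2, sq_nonneg θ, mul_pos hθ.1 hθ.1]
      rw [norm_mul, Complex.norm_real, Real.norm_of_nonneg e1, Real.norm_of_nonneg hθ.1.le]
      exact mul_le_mul_of_nonneg_left e2 (norm_nonneg _)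
    refine h2.trans_isLittleO ?_
    refine (Asymptotics.isLittleO_iff_tendsto' ?_).2 ?_
    · filter_upwards [self_mem_nhdsWithin] with θ hθ h
      exact absurd h (Real.rpow_pos_of_pos hθ _).ne'
    · have h3 : Tendsto (fun θ : ℝ => θ ^ (1 / 2 : ℝ)) (𝓝[>] 0) (𝓝 0) := by
        have h4 := (Real.continuousAt_rpow_const 0 (1 / 2) (Or.inr (by norm_num))).tendsto
        rw [Real.zero_rpow (by norm_num)] at h4
        exact h4.mono_left nhdsWithin_le_nhds
      refine h3.congr' ?_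
      filter_upwards [self_mem_nhdsWithin] with θ hθ
      have hθ0 : (0 : ℝ) < θ := hθ
      have h5 : θ ^ (1 / 2 : ℝ) * θ ^ (1 / 2 : ℝ) = θ := by
        rw [← Real.rpow_add hθ0]
        norm_num
      have h6 := (Real.rpow_pos_of_pos hθ0 (1 / 2)).ne'
      rw [eq_div_iff h6, h5]
  refine (ho.add h1).congr_left (fun θ => ?_)
  push_cast
  ring

end Pool.Agent.JOS
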