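import Pool.Agent.Lib_helper63.JO.Defs

/-! # JO, part S (spectral part): definitions -/

namespace Pool.Agent.JOS

open Complex MeasureTheory Filter Topology UpperHalfPlane ModularGroup Set
open scoped MatrixGroups Modular ENNReal ComplexConjugate ContDiff
open Pool.Agent.JO (QN red FamH)

/-- test kernels: smooth on `ℝ`, zero for large arguments (only the values at `c ≥ 1` matter) -/
structure TK (k : ℝ → ℝ) : Prop where
  smooth : ContDiff ℝ ∞ k
  supp : ∃ R : ℝ, ∀ c, R ≤ c → k c = 0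

/-- the radial Laplacian in the variable `c = cosh dist` -/
noncomputable def DD (k : ℝ → ℝ) (c : ℝ) : ℝ :=
  -((c ^ 2 - 1) * deriv (deriv k) c + 2 * c * deriv k c)

/-- the point pair invariant of `k` -/
noncomputable def kz (k : ℝ → ℝ) (z w : ℍ) : ℝ := k (Real.cosh (dist z w))

/-- the operator `R_k` -/
noncomputable def RR (k : ℝ → ℝ) (f : ℍ → ℂ) (z : ℍ) : ℂ := ∫ w : ℍ, (kz k z w : ℂ) * f w

/-- `R_k` on families -/
noncomputable def RF {N : ℕ} (k : ℝ → ℝ) (f : QN N → ℍ → ℂ) : QN N → ℍ → ℂ := fun s => RR k (f s)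

/-- the mass of a kernel -/
noncomputable def ms (k : ℝ → ℝ) : ℝ := ∫ w : ℍ, kz k UpperHalfPlane.I w

/-- square integrable families on `ℍ` -/
structure SqH {N : ℕ} [NeZero N] (f : QN N → ℍ → ℂ) : Prop where
  fam : FamH f
  meas : ∀ s, Measurable (f s)
  sq : ∀ s, IntegrableOn (fun z => ‖f s z‖ ^ 2) (𝒟ᵒ : Set ℍ)

/-- the norm of a family -/
noncomputable def nH {N : ℕ} [NeZero N] (f : QN N → ℍ → ℂ) : ℝ :=
  √(∑ s : QN N, ∫ z in (𝒟ᵒ : Set ℍ), ‖f s z‖ ^ 2)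

/-- the inner product of families (linear in the first variable) -/
noncomputable def ipH {N : ℕ} [NeZero N] (f g : QN N → ℍ → ℂ) : ℂ :=
  ∑ s : QN N, ∫ z in (𝒟ᵒ : Set ℍ), f s z * conj (g s z)

/-- the strip of width `N` -/
def strip (N : ℕ) : Set ℍ := {w : ℍ | 0 < w.re ∧ w.re ≤ N}

/-- test functions of the height: bounded, measurable, compact support in `(0, ∞)` -/
structure TG (g : ℝ → ℂ) : Prop where
  meas : Measurable g
  bdd : ∃ C : ℝ, ∀ y, ‖g y‖ ≤ C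
  supp : ∃ a b : ℝ, 0 < a ∧ ∀ y, g y ≠ 0 → a ≤ y ∧ y ≤ b

/-- cuspidal families: all constant terms vanish (weak form) -/
def CuspH {N : ℕ} (f : QN N → ℍ → ℂ) : Prop :=
  ∀ (s : QN N) (g : ℝ → ℂ), TG g → ∫ w in strip N, g w.im * f s w = 0

/-- the point `e^{τ + iθ}` -/
noncomputable def pt (τ θ : ℝ) : ℍ := UpperHalfPlane.ofComplex (cexp (τ + θ * Complex.I))

/-- the integral over the ray of argument `θ` (in the variable `τ = log r`) -/
noncomputable def PT (φ : ℍ → ℂ) (θ : ℝ) : ℂ := ∫ τ : ℝ, φ (pt τ θ)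

/-- `cosh dist (e^{τ + iθ}) (e^{iθ'})` -/
noncomputable def cc (τ θ θ' : ℝ) : ℝ :=
  (Real.cosh τ - Real.cos θ * Real.cos θ') / (Real.sin θ * Real.sin θ')

/-- the kernel of `R_k` on functions of the argument (with respect to `dθ'/sin² θ'`) -/
noncomputable def kap (k : ℝ → ℝ) (θ θ' : ℝ) : ℝ := ∫ τ : ℝ, k (cc τ θ θ')

/-- the operator `K_k` on functions of the argument -/
noncomputable def KK (k : ℝ → ℝ) (g : ℝ → ℂ) (θ : ℝ) : ℂ :=
  ∫ t in Ioo 0 Real.pi, ((kap k θ t / Real.sin t ^ 2 : ℝ) : ℂ) * g t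

/-- the derivative of `K_k g` -/
noncomputable def KK1 (k : ℝ → ℝ) (g : ℝ → ℂ) (θ : ℝ) : ℂ :=
  ∫ t in Ioo 0 Real.pi, ((deriv (fun x => kap k x t) θ / Real.sin t ^ 2 : ℝ) : ℂ) * g t

end Pool.Agent.JOS
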