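import Pool.Agent.Lib_helper58.JOS.Comp

/-! # JO, part S: finiteness of the spectrum below a given height -/

namespace Pool.Agent.JOS

open Complex MeasureTheory Filter Topology UpperHalfPlane ModularGroup Set Metric
open scoped MatrixGroups Modular ENNReal ComplexConjugate ContDiff
open Pool.Agent.JO (QN red FamH)

variable {N : ℕ} [NeZero N]
variable {V : Type} [NormedAddCommGroup V] [InnerProductSpace ℂ V] [CompleteSpace V]

theorem kz_congr {k l : ℝ → ℝ} (h : ∀ c, 1 ≤ c → k c = l c) (z w : ℍ) : kz k z w = kz l z w :=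
  h _ (Real.one_le_cosh _)

theorem ms_congr {k l : ℝ → ℝ} (h : ∀ c, 1 ≤ c → k c = l c) : ms k = ms l := by
  unfold ms
  congr 1
  funext w
  exact kz_congr h _ _

theorem ms_nonneg {k : ℝ → ℝ} (h : ∀ c, 0 ≤ k c) : 0 ≤ ms k :=
  integral_nonneg (fun _ => h _)

theorem mka_eq {k : TKs} (h : ∀ c, 0 ≤ k.1 c) : mka k = ms k.1 := by
  unfold mka
  congr 1
  funext c
  exact abs_of_nonneg (h c)

theorem RR_congr {k l : ℝ → ℝ} (h : ∀ c, 1 ≤ c → k c = l c) (f : ℍ → ℂ) (z : ℍ) :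
    RR k f z = RR l f z := by
  unfold RR
  congr 1
  funext w
  rw [kz_congr h]

/-- the operator depends only on the values of the kernel on `[1, ∞)` -/
theorem Model.op_congr (M : Model N V) {k l : TKs} (h : ∀ c, 1 ≤ c → k.1 c = l.1 c) (v : V) :
    M.op k v = M.op l v := by
  have h1 := M.ext_op (A := M.op k) (B := M.op l) (fun f => by
    rw [M.op_J, M.op_J]
    congr 1
    apply Subtype.ext
    funext s z
    exact RR_congr h _ _)
  rw [h1]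

theorem TK.sub {k l : ℝ → ℝ} (hk : TK k) (hl : TK l) : TK (fun c => k c - l c) := by
  obtain ⟨R, hR⟩ := hk.supp
  obtain ⟨S, hS⟩ := hl.supp
  refine ⟨hk.smooth.sub hl.smooth, max R S, fun c hc => ?_⟩
  rw [hR c ((le_max_left _ _).trans hc), hS c ((le_max_right _ _).trans hc), sub_zero]

/-- difference of two operators -/
theorem Model.op_sub (M : Model N V) {k l g : TKs} (h : ∀ c, 1 ≤ c → g.1 c = k.1 c - l.1 c) (v : V) :
    M.op g v = M.op k v - M.op l v := by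
  have h1 := M.ext_op (A := M.op g) (B := M.op k - M.op l) (fun f => by
    rw [sub_apply, M.op_J, M.op_J, M.op_J, ← map_sub]
    congr 1
    apply Subtype.ext
    funext s z
    show RR g.1 (f.1 s) z = RR k.1 (f.1 s) z - RR l.1 (f.1 s) z
    unfold RR
    rw [← integral_sub (rr_int k.2 f.2.1 s z) (rr_int l.2 f.2.1 s z)]
    congr 1
    funext w
    rw [show kz g.1 z w = kz k.1 z w - kz l.1 z w from h _ (Real.one_le_cosh _)]
    push_cast
    ring)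
  rw [h1]
  rfl

/-- approximate identity on the ranges -/
theorem Model.app_range (M : Model N V) (l : TKs) {ε : ℝ} (hε : 0 < ε) : ∃ δ > 0, ∀ k : TKs,
    (∀ c, 0 ≤ k.1 c) → (∀ c, 1 + δ ≤ c → k.1 c = 0) → ∀ v : V,
      ‖M.op k (M.op l v) - (ms k.1 : ℂ) • M.op l v‖ ≤ ε * ms k.1 * ‖v‖ := by
  obtain ⟨δ, hδ, h⟩ := apx_rr l.2 hε
  refine ⟨δ, hδ, fun k h0 hs v => ?_⟩
  refine M.dense.induction_on
    (p := fun v => ‖M.op k (M.op l v) - (ms k.1 : ℂ) • M.op l v‖ ≤ ε * ms k.1 * ‖v‖) v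
    (isClosed_le (by fun_prop) (by fun_prop)) (fun f => ?_)
  have h1 := h k.1 k.2 h0 hs N f.1 f.2.1
  rw [M.op_J, M.op_J, ← map_smul, ← map_sub, M.norm_J, M.norm_J]
  exact h1

/-- the span of the ranges -/
noncomputable def KR (M : Model N V) : Submodule ℂ V :=
  Submodule.span ℂ {x | ∃ (l : TKs) (v : V), x = M.op l v}

theorem Model.app_KR (M : Model N V) {x : V} (hx : x ∈ KR M) : ∀ ε > 0, ∃ δ > 0, ∀ k : TKs,
    (∀ c, 0 ≤ k.1 c) → (∀ c, 1 + δ ≤ c → k.1 c = 0) → ‖M.op k x - (ms k.1 : ℂ) • x‖ ≤ ε * ms k.1 := by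
  induction hx using Submodule.span_induction with
  | mem x hx =>
    obtain ⟨l, v, rfl⟩ := hx
    intro ε hε
    obtain ⟨δ, hδ, h⟩ := M.app_range l (ε := ε / (‖v‖ + 1)) (by positivity)
    refine ⟨δ, hδ, fun k h0 hs => (h k h0 hs v).trans ?_⟩
    have h1 : ε / (‖v‖ + 1) * ‖v‖ ≤ ε := by
      rw [div_mul_eq_mul_div, div_le_iff₀ (by positivity)]
      nlinarith [norm_nonneg v]
    calc ε / (‖v‖ + 1) * ms k.1 * ‖v‖ = ε / (‖v‖ + 1) * ‖v‖ * ms k.1 := by ring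
      _ ≤ ε * ms k.1 := mul_le_mul_of_nonneg_right h1 (ms_nonneg h0)
  | zero =>
    intro ε hε
    refine ⟨1, one_pos, fun k h0 _ => ?_⟩
    simp only [map_zero, smul_zero, sub_zero, norm_zero]
    exact mul_nonneg hε.le (ms_nonneg h0)
  | add x y _ _ hx hy =>
    intro ε hε
    obtain ⟨δ, hδ, h⟩ := hx (ε / 2) (by positivity)
    obtain ⟨δ', hδ', h'⟩ := hy (ε / 2) (by positivity)
    refine ⟨min δ δ', lt_min hδ hδ', fun k h0 hs => ?_⟩
    have h1 := h k h0 (fun c hc => hs c (le_trans (by linarith [min_le_left δ δ']) hc))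
    have h2 := h' k h0 (fun c hc => hs c (le_trans (by linarith [min_le_right δ δ']) hc))
    have e1 : M.op k (x + y) - (ms k.1 : ℂ) • (x + y) =
        (M.op k x - (ms k.1 : ℂ) • x) + (M.op k y - (ms k.1 : ℂ) • y) := by
      rw [map_add, smul_add]; abel
    rw [e1]
    refine (norm_add_le _ _).trans ?_
    linarith
  | smul a x _ hx =>
    intro ε hε
    obtain ⟨δ, hδ, h⟩ := hx (ε / (‖a‖ + 1)) (by positivity)
    refine ⟨δ, hδ, fun k h0 hs => ?_⟩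
    have h1 := h k h0 hs
    have e1 : M.op k (a • x) - (ms k.1 : ℂ) • (a • x) = a • (M.op k x - (ms k.1 : ℂ) • x) := by
      rw [map_smul, smul_sub, smul_comm]
    rw [e1, norm_smul]
    have h2 : ‖a‖ * (ε / (‖a‖ + 1)) ≤ ε := by
      rw [mul_div_assoc', div_le_iff₀ (by positivity)]
      nlinarith [norm_nonneg a]
    calc ‖a‖ * ‖M.op k x - (ms k.1 : ℂ) • x‖ ≤ ‖a‖ * (ε / (‖a‖ + 1) * ms k.1) :=
          mul_le_mul_of_nonneg_left h1 (norm_nonneg _)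
      _ = ‖a‖ * (ε / (‖a‖ + 1)) * ms k.1 := by ring
      _ ≤ ε * ms k.1 := mul_le_mul_of_nonneg_right h2 (ms_nonneg h0)

/-- vectors orthogonal to the common kernel are in the closure of the ranges -/
theorem Model.mem_closure (M : Model N V) {x : V} (hx : ∀ u, (∀ k, M.op k u = 0) → inner ℂ u x = (0 : ℂ)) :
    x ∈ (KR M).topologicalClosure := by
  rw [← Submodule.orthogonal_orthogonal_eq_closure, Submodule.mem_orthogonal]
  intro u hu
  apply hx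
  intro k
  rw [Submodule.mem_orthogonal] at hu
  have h1 := hu (M.op k (M.op k u)) (Submodule.subset_span ⟨k, _, rfl⟩)
  rw [M.op_symm, inner_self_eq_zero] at h1
  exact h1

/-- (A2) approximate identity -/
theorem Model.app (M : Model N V) {x : V} (hx : ∀ u, (∀ k, M.op k u = 0) → inner ℂ u x = (0 : ℂ)) :
    ∀ ε > 0, ∃ δ > 0, ∀ k : TKs, (∀ c, 0 ≤ k.1 c) → (∀ c, 1 + δ ≤ c → k.1 c = 0) →
      ‖M.op k x - (ms k.1 : ℂ) • x‖ ≤ ε * ms k.1 := by
  intro ε hε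
  have h1 := M.mem_closure hx
  rw [← SetLike.mem_coe, Submodule.topologicalClosure_coe] at h1
  obtain ⟨y, hy, hxy⟩ := Metric.mem_closure_iff.1 h1 (ε / 4) (by positivity)
  obtain ⟨δ, hδ, h⟩ := M.app_KR hy (ε / 2) (by positivity)
  refine ⟨δ, hδ, fun k h0 hs => ?_⟩
  have h2 := h k h0 hs
  have hm := ms_nonneg h0
  rw [dist_eq_norm] at hxy
  have e1 : M.op k x - (ms k.1 : ℂ) • x =
      (M.op k y - (ms k.1 : ℂ) • y) + (M.op k (x - y) - (ms k.1 : ℂ) • (x - y)) := by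
    rw [map_sub, smul_sub]; abel
  have e2 : ‖M.op k (x - y) - (ms k.1 : ℂ) • (x - y)‖ ≤ 2 * ms k.1 * ‖x - y‖ := by
    refine (norm_sub_le _ _).trans ?_
    have h3 := M.op_norm k (x - y)
    rw [mka_eq h0] at h3
    have h4 : ‖(ms k.1 : ℂ) • (x - y)‖ = ms k.1 * ‖x - y‖ := by
      rw [norm_smul, Complex.norm_real, Real.norm_of_nonneg hm]
    linarith
  rw [e1]
  refine (norm_add_le _ _).trans ?_
  have h5 : 2 * ms k.1 * ‖x - y‖ ≤ 2 * ms k.1 * (ε / 4) :=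
    mul_le_mul_of_nonneg_left hxy.le (by positivity)
  linarith

omit [CompleteSpace V] in
theorem re_inner_le (u v : V) : |(inner ℂ u v : ℂ).re| ≤ ‖u‖ * ‖v‖ :=
  (Complex.abs_re_le_norm _).trans (norm_inner_le_norm u v)

theorem apx' : ∃ (m : ℝ) (kk : ℕ → TKs), 0 < m ∧
    (∀ n, (∀ c, 0 ≤ (kk n).1 c) ∧ (∀ c, 1 + 1 / ((n : ℝ) + 1) ≤ c → (kk n).1 c = 0) ∧
      ms (kk n).1 = m) ∧
    ∀ ε > 0, ∃ m₀ : ℕ, ∀ j ≥ m₀, ∃ n₀ : ℕ, ∃ e > 0, ∀ n ≥ n₀, ∃ g : TKs,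
      (∀ c, 0 ≤ g.1 c) ∧ (∀ c, 1 + 1 / ((j : ℝ) + 1) ≤ c → g.1 c = 0) ∧
      (∀ c, 1 ≤ c → (Dk g).1 c = (kk n).1 c - (kk j).1 c) ∧ e ≤ ms g.1 ∧ ms g.1 ≤ ε := by
  obtain ⟨m, kk, hm, hkk, hG⟩ := apx
  refine ⟨m, fun n => ⟨kk n, (hkk n).1⟩, hm, fun n => (hkk n).2, fun ε hε => ?_⟩
  obtain ⟨m₀, h⟩ := hG ε hε
  refine ⟨m₀, fun j hj => ?_⟩
  obtain ⟨n₀, e, he, h'⟩ := h j hj
  refine ⟨n₀, e, he, fun n hn => ?_⟩
  obtain ⟨g, h1, h2, h3, h4, h5, h6⟩ := h' n hn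
  exact ⟨⟨g, h1⟩, h2, h3, h4, h5, h6⟩

/-- the lower bound of `‖R_{k_j} v‖` on eigenvectors with bounded eigenvalue, and positivity -/
theorem Model.low (M : Model N V) (Λ : ℝ) : ∃ (k : TKs) (c : ℝ), 0 < c ∧ ∀ (x : V) (l : ℝ),
    (∀ u, (∀ k, M.op k u = 0) → inner ℂ u x = (0 : ℂ)) →
    (∀ k, M.op (Dk k) x = (l : ℂ) • M.op k x) → |l| ≤ Λ → c * ‖x‖ ≤ ‖M.op k x‖ := by
  obtain ⟨m, kk, hm, hkk, hG⟩ := apx'
  set ε : ℝ := m / (4 * (|Λ| + 1)) with hε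
  have hε0 : 0 < ε := by positivity
  obtain ⟨m₀, hm₀⟩ := hG ε hε0
  obtain ⟨n₀, e, he, hn⟩ := hm₀ m₀ le_rfl
  refine ⟨(kk m₀), m / 4, by positivity, fun x l hx hl hΛ => ?_⟩
  by_cases hx0 : x = 0
  · simp [hx0]
  have hxn : 0 < ‖x‖ := norm_pos_iff.2 hx0
  obtain ⟨δ, hδ, happ⟩ := M.app hx (‖x‖ / 2) (by positivity)
  obtain ⟨n₁, hn₁⟩ := exists_nat_one_div_lt hδ
  set n := max n₀ n₁ with hn'
  have hkn : ∀ c, 1 + δ ≤ c → (kk n).1 c = 0 := by
    intro c hc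
    refine (hkk n).2.1 c (le_trans ?_ hc)
    have h1 : (1 : ℝ) / ((n : ℝ) + 1) ≤ 1 / ((n₁ : ℝ) + 1) := by
      apply one_div_le_one_div_of_le (by positivity)
      have : (n₁ : ℝ) ≤ n := by exact_mod_cast le_max_right _ _
      linarith
    linarith
  have h1 := happ (kk n) (hkk n).1 hkn
  obtain ⟨g, hg0, _, hgD, hge, hgε⟩ := hn n (le_max_left _ _)
  have h2 : M.op (kk n) x - M.op (kk m₀) x = (l : ℂ) • M.op g x := by
    rw [← hl g]
    exact (M.op_sub hgD x).symm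
  have h3 : ‖(l : ℂ) • M.op g x‖ ≤ m / 4 * ‖x‖ := by
    rw [norm_smul, Complex.norm_real, Real.norm_eq_abs]
    have h4 := M.op_norm g x
    rw [mka_eq hg0] at h4
    have h5 : ‖M.op g x‖ ≤ ε * ‖x‖ := h4.trans (mul_le_mul_of_nonneg_right hgε hxn.le)
    have h6 : |l| * ε ≤ m / 4 := by
      rw [hε, mul_div_assoc', div_le_iff₀ (by positivity)]
      have : |l| ≤ |Λ| := hΛ.trans (le_abs_self _)
      nlinarith
    calc |l| * ‖M.op g x‖ ≤ |l| * (ε * ‖x‖) := mul_le_mul_of_nonneg_left h5 (abs_nonneg _)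
      _ = |l| * ε * ‖x‖ := by ring
      _ ≤ m / 4 * ‖x‖ := mul_le_mul_of_nonneg_right h6 hxn.le
  have h7 : ms (kk n).1 = m := (hkk n).2.2
  have h8 : ‖(m : ℂ) • x‖ = m * ‖x‖ := by
    rw [norm_smul, Complex.norm_real, Real.norm_of_nonneg hm.le]
  have h9 : ‖M.op (kk n) x - (m : ℂ) • x‖ ≤ ‖x‖ / 2 * m := by
    have := h1
    rw [h7] at this
    exact this
  have h10 : (m : ℂ) • x = M.op (kk m₀) x + (l : ℂ) • M.op g x -
      (M.op (kk n) x - (m : ℂ) • x) := by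
    rw [← h2]; abel
  have h11 := norm_sub_le (M.op (kk m₀) x + (l : ℂ) • M.op g x)
    (M.op (kk n) x - (m : ℂ) • x)
  rw [← h10, h8] at h11
  have h12 := norm_add_le (M.op (kk m₀) x) ((l : ℂ) • M.op g x)
  linarith

/-- positivity of the eigenvalues -/
theorem Model.eig_nonneg (M : Model N V) {x : V} (hx0 : x ≠ 0) {l : ℝ}
    (hx : ∀ u, (∀ k, M.op k u = 0) → inner ℂ u x = (0 : ℂ))
    (hl : ∀ k, M.op (Dk k) x = (l : ℂ) • M.op k x) : 0 ≤ l := by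
  by_contra hneg
  push Not at hneg
  obtain ⟨m, kk, hm, hkk, hG⟩ := apx'
  have hxn : 0 < ‖x‖ := norm_pos_iff.2 hx0
  obtain ⟨δ, hδ, happ⟩ := M.app hx (‖x‖ / 2) (by positivity)
  obtain ⟨m₀, hm₀⟩ := hG 1 one_pos
  obtain ⟨j₁, hj₁⟩ := exists_nat_one_div_lt hδ
  set j := max m₀ j₁ with hj
  obtain ⟨n₀, e, he, hn⟩ := hm₀ j (le_max_left _ _)
  -- the limit along `n`
  set r : ℝ := -l * e * ‖x‖ / (4 * m) with hr
  have hr0 : 0 < r := by
    rw [hr]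
    have : 0 < -l := by linarith
    positivity
  obtain ⟨δ', hδ', happ'⟩ := M.app hx r hr0
  obtain ⟨n₁, hn₁⟩ := exists_nat_one_div_lt hδ'
  set n := max n₀ n₁ with hn'
  have hkn : ∀ c, 1 + δ' ≤ c → (kk n).1 c = 0 := by
    intro c hc
    refine (hkk n).2.1 c (le_trans ?_ hc)
    have h1 : (1 : ℝ) / ((n : ℝ) + 1) ≤ 1 / ((n₁ : ℝ) + 1) := by
      apply one_div_le_one_div_of_le (by positivity)
      have : (n₁ : ℝ) ≤ n := by exact_mod_cast le_max_right _ _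
      linarith
    linarith
  have h1 := happ' (kk n) (hkk n).1 hkn
  obtain ⟨g, hg0, hgs, hgD, hge, _⟩ := hn n (le_max_left _ _)
  have h7 : ms (kk n).1 = m := (hkk n).2.2
  have h7' : ms (kk j).1 = m := (hkk j).2.2
  rw [h7] at h1
  -- positivity of `R_g`
  have hgs' : ∀ c, 1 + δ ≤ c → g.1 c = 0 := by
    intro c hc
    refine hgs c (le_trans ?_ hc)
    have h1 : (1 : ℝ) / ((j : ℝ) + 1) ≤ 1 / ((j₁ : ℝ) + 1) := by
      apply one_div_le_one_div_of_le (by positivity)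
      have : (j₁ : ℝ) ≤ j := by exact_mod_cast le_max_right _ _
      linarith
    linarith
  have h2 := happ g hg0 hgs'
  have hmg : 0 < ms g.1 := lt_of_lt_of_le he hge
  have h3 : M.op (kk n) x - M.op (kk j) x = (l : ℂ) • M.op g x := by
    rw [← hl g]
    exact (M.op_sub hgD x).symm
  have hxx : (inner ℂ x x : ℂ).re = ‖x‖ ^ 2 := by
    rw [inner_self_eq_norm_sq_to_K]
    norm_cast
  have h4 : ms g.1 * ‖x‖ ^ 2 / 2 ≤ (inner ℂ x (M.op g x) : ℂ).re := by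
    have e1 : (inner ℂ x (M.op g x) : ℂ) = (ms g.1 : ℂ) * inner ℂ x x +
        inner ℂ x (M.op g x - (ms g.1 : ℂ) • x) := by
      rw [inner_sub_right, inner_smul_right]; ring
    rw [e1, Complex.add_re, Complex.re_ofReal_mul, hxx]
    have e2 := (abs_le.1 (re_inner_le x (M.op g x - (ms g.1 : ℂ) • x))).1
    have e3 : ‖x‖ * ‖M.op g x - (ms g.1 : ℂ) • x‖ ≤ ‖x‖ * (‖x‖ / 2 * ms g.1) :=
      mul_le_mul_of_nonneg_left h2 hxn.le
    nlinarith
  have h5 : (inner ℂ x (M.op (kk j) x) : ℂ).re ≤ m * ‖x‖ ^ 2 := by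
    refine (le_abs_self _).trans ((re_inner_le _ _).trans ?_)
    have e1 := M.op_norm (kk j) x
    rw [mka_eq (hkk j).1] at e1
    rw [h7'] at e1
    calc ‖x‖ * ‖M.op (kk j) x‖ ≤ ‖x‖ * (m * ‖x‖) := mul_le_mul_of_nonneg_left e1 hxn.le
      _ = _ := by ring
  have h6 : m * ‖x‖ ^ 2 - ‖x‖ * (r * m) ≤ (inner ℂ x (M.op (kk n) x) : ℂ).re := by
    have e1 : (inner ℂ x (M.op (kk n) x) : ℂ) = (m : ℂ) * inner ℂ x x +
        inner ℂ x (M.op (kk n) x - (m : ℂ) • x) := by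
      rw [inner_sub_right, inner_smul_right]; ring
    rw [e1, Complex.add_re, Complex.re_ofReal_mul, hxx]
    have e2 := (abs_le.1 (re_inner_le x (M.op (kk n) x - (m : ℂ) • x))).1
    have e3 : ‖x‖ * ‖M.op (kk n) x - (m : ℂ) • x‖ ≤ ‖x‖ * (r * m) :=
      mul_le_mul_of_nonneg_left h1 hxn.le
    linarith
  have h8 : (inner ℂ x (M.op (kk n) x) : ℂ).re - (inner ℂ x (M.op (kk j) x) : ℂ).re =
      l * (inner ℂ x (M.op g x) : ℂ).re := by
    rw [← Complex.sub_re, ← inner_sub_right, h3, inner_smul_right, Complex.re_ofReal_mul]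
  have h9 : l * (inner ℂ x (M.op g x) : ℂ).re ≤ l * (e * ‖x‖ ^ 2 / 2) := by
    refine mul_le_mul_of_nonpos_left ?_ hneg.le
    refine le_trans ?_ h4
    have : e * ‖x‖ ^ 2 ≤ ms g.1 * ‖x‖ ^ 2 := mul_le_mul_of_nonneg_right hge (by positivity)
    linarith
  have h10 : ‖x‖ * (r * m) = -l * (e * ‖x‖ ^ 2 / 4) := by
    rw [hr]
    field_simp
  have h11 : 0 < -l * (e * ‖x‖ ^ 2 / 4) := by
    have : 0 < -l := by linarith
    positivity
  nlinarith

theorem Comps.nonneg {M : Model N V} {G : V} {w : Option ℝ → V} (H : Comps M G w) {l : ℝ}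
    (h : w (some l) ≠ 0) : 0 ≤ l := M.eig_nonneg h (H.perp l) (H.eig l)

/-- (A4) finiteness -/
theorem Comps.finite {M : Model N V} {G : V} {w : Option ℝ → V} (H : Comps M G w) (Λ : ℝ) :
    {l : ℝ | l ≤ Λ ∧ w (some l) ≠ 0}.Finite := by
  obtain ⟨k, c, hc, hlow⟩ := M.low |Λ|
  obtain ⟨B, hB⟩ := M.hs k
  by_contra hinf
  obtain ⟨n, hn⟩ := exists_nat_gt (B / c ^ 2)
  obtain ⟨T, hT, hcard⟩ := Set.Infinite.exists_subset_card_eq hinf n
  let q : Fin n ≃ T := (Finset.equivFinOfCardEq hcard).symm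
  let e : Fin n → V := fun i => ((‖w (some (q i).1)‖⁻¹ : ℝ) : ℂ) • w (some (q i).1)
  have hmem : ∀ i, (q i).1 ≤ Λ ∧ w (some (q i).1) ≠ 0 := fun i => hT (q i).2
  have hpos : ∀ i, 0 < ‖w (some (q i).1)‖ := fun i => norm_pos_iff.2 (hmem i).2
  have he : Orthonormal ℂ e := by
    refine ⟨fun i => ?_, fun i j hij => ?_⟩
    · show ‖((‖w (some (q i).1)‖⁻¹ : ℝ) : ℂ) • w (some (q i).1)‖ = 1
      rw [norm_smul, Complex.norm_real, Real.norm_of_nonneg (inv_nonneg.2 (norm_nonneg _))]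
      exact inv_mul_cancel₀ (hpos i).ne'
    · show inner ℂ (((‖w (some (q i).1)‖⁻¹ : ℝ) : ℂ) • w (some (q i).1))
        (((‖w (some (q j).1)‖⁻¹ : ℝ) : ℂ) • w (some (q j).1)) = (0 : ℂ)
      rw [inner_smul_left, inner_smul_right, H.orth _ _ (fun h => hij (q.injective
        (Subtype.ext (Option.some_injective _ h)))), mul_zero, mul_zero]
  have h1 := hB n e he
  have h2 : ∀ i, c ^ 2 ≤ ‖M.op k (e i)‖ ^ 2 := by
    intro i
    have h3 := hlow (w (some (q i).1)) (q i).1 (H.perp _) (H.eig _) (by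
      rw [abs_of_nonneg (H.nonneg (hmem i).2)]
      exact (hmem i).1.trans (le_abs_self _))
    have h4 : ‖M.op k (e i)‖ = ‖w (some (q i).1)‖⁻¹ * ‖M.op k (w (some (q i).1))‖ := by
      show ‖M.op k (((‖w (some (q i).1)‖⁻¹ : ℝ) : ℂ) • w (some (q i).1))‖ = _
      rw [map_smul, norm_smul, Complex.norm_real, Real.norm_of_nonneg (inv_nonneg.2 (norm_nonneg _))]
    have h5 : c ≤ ‖M.op k (e i)‖ := by
      rw [h4, inv_mul_eq_div, le_div_iff₀ (hpos i)]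
      exact h3
    gcongr
  have h6 : (n : ℝ) * c ^ 2 ≤ B := by
    refine le_trans ?_ h1
    calc (n : ℝ) * c ^ 2 = ∑ _i : Fin n, c ^ 2 := by
          rw [Finset.sum_const, Finset.card_univ, Fintype.card_fin, nsmul_eq_mul]
      _ ≤ _ := Finset.sum_le_sum (fun i _ => h2 i)
  rw [div_lt_iff₀ (by positivity)] at hn
  linarith

end Pool.Agent.JOS
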