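import Pool.Agent.Lib_helper58.JOS.WantedT

/-! # JO, part S: the one dimensional theorem with a continued transform -/

namespace Pool.Agent.JOS

open Complex MeasureTheory Filter Topology UpperHalfPlane ModularGroup Set Metric
open scoped MatrixGroups Modular ENNReal ComplexConjugate ContDiff
open Pool.Agent.JO (QN red FamH PV bot cH)
open Pool.Agent.Lib_helper37.JO (HJ)

section

open Pool.Agent.SP

variable {ι : Type*} {lam : ι → ℝ} {c c' : ι → ℝ → ℂ} {G : ℝ → ℂ} {A C : ℝ}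

theorem Dt_eq (θ₀ : ℝ) (G : ℝ → ℂ) (s : ℂ) : Dt θ₀ G s =
    ∫ θ in Ioo 0 θ₀, ff s θ * G θ / ((Real.sin θ : ℝ) : ℂ) ^ 2 := by
  unfold Dt
  congr 1
  funext t
  push_cast
  rfl

/-- the hypothesis on the transform -/
structure Cont (A : ℝ) (G : ℝ → ℂ) (θ₀ : ℝ) : Prop where
  ex : ∃ J : ℂ → ℂ, DifferentiableOn ℂ J QQ ∧ (∀ s : ℂ, A + 2 ≤ s.re → 0 < s.im → J s = Dt θ₀ G s) ∧
    ∀ κ : ℝ, 0 < κ → Tendsto (fun η : ℝ => (η : ℂ) * J (Pool.Agent.SP.pt κ η)) (𝓝[>] 0) (𝓝 0)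

theorem wronsk_gen [Countable ι] (H : SolFam lam c c' G A C) (hinj : Function.Injective lam)
    {θ₀ : ℝ} (h0 : θ₀ ∈ II) (hJ : Cont A G θ₀) {κ : ℝ} (hκ : 0 < κ) (j : ι)
    (hj : lam j = 1 / 4 + κ ^ 2) : ww c c' j (Pool.Agent.SP.pt κ 0) θ₀ = 0 := by
  obtain ⟨J, hJd, hJe, hJl⟩ := hJ.ex
  have hid : ∀ s ∈ QQ, ∑' i, ww c c' i s θ₀ / ((lam i : ℂ) - s * (1 - s)) = J s := by
    intro s hs
    have hL := (H.diff_L h0).analyticOnNhd QQ_open
    have hJ' := hJd.analyticOnNhd QQ_open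
    set z₀ : ℂ := ((A + 3 : ℝ) : ℂ) + Complex.I with hz₀
    have hz1 : z₀.re = A + 3 := by rw [hz₀]; simp
    have hz2 : z₀.im = 1 := by rw [hz₀]; simp
    have hzQ : z₀ ∈ QQ := ⟨by rw [hz1]; linarith [H.A0], by rw [hz2]; norm_num⟩
    refine hL.eqOn_of_preconnected_of_eventuallyEq hJ' QQ_conn hzQ ?_ hs
    have hopen : IsOpen {s : ℂ | A + 2 < s.re ∧ 0 < s.im} :=
      (isOpen_lt continuous_const Complex.continuous_re).inter
        (isOpen_lt continuous_const Complex.continuous_im)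
    filter_upwards [hopen.mem_nhds (show z₀ ∈ {s : ℂ | A + 2 < s.re ∧ 0 < s.im} from
      ⟨by rw [hz1]; linarith, by rw [hz2]; norm_num⟩)] with s hs
    rw [hJe s hs.1.le hs.2, Dt_eq]
    exact H.sum_eq h0 hs.1.le hs.2
  have h1 := H.lim_L h0 hκ
  have h3 : Tendsto (fun η : ℝ => (η : ℂ) * ∑' i, ww c c' i (Pool.Agent.SP.pt κ η) θ₀ /
      ((lam i : ℂ) - Pool.Agent.SP.pt κ η * (1 - Pool.Agent.SP.pt κ η)))
      (𝓝[>] 0) (𝓝 0) := by
    refine (hJl κ hκ).congr' ?_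
    filter_upwards [self_mem_nhdsWithin] with η hη
    have hη0 : (0 : ℝ) < η := hη
    rw [hid (Pool.Agent.SP.pt κ η) ⟨by rw [pt_re]; linarith, by rw [Pool.Agent.SP.pt_im]; exact hκ⟩]
  have h4 := tendsto_nhds_unique h1 h3
  rw [tsum_eq_single j (fun i hi => if_neg fun h => hi (hinj (h.trans hj.symm)))] at h4
  rw [if_pos hj] at h4
  have hκc : (κ : ℂ) ≠ 0 := by exact_mod_cast hκ.ne'
  have h5 : (2 * κ * Complex.I : ℂ) ≠ 0 := mul_ne_zero (mul_ne_zero two_ne_zero hκc) Complex.I_ne_zero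
  exact (div_eq_zero_iff.mp h4).resolve_right h5

/-- the general one dimensional theorem -/
theorem main_gen [Countable ι] (H : SolFam lam c c' G A C) (hinj : Function.Injective lam)
    {θ₀ : ℝ} (h0 : θ₀ ∈ II) (hJ : Cont A G θ₀) (hJ' : Cont A (fun θ => conj (G θ)) θ₀) (j : ι)
    (hj : 1 / 4 < lam j) : c j θ₀ = 0 := by
  set κ : ℝ := Real.sqrt (lam j - 1 / 4) with hκ
  have hκ0 : 0 < κ := Real.sqrt_pos.mpr (by linarith)
  have hj' : lam j = 1 / 4 + κ ^ 2 := by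
    rw [hκ, Real.sq_sqrt (by linarith)]
    ring
  have h1 := wronsk_gen H hinj h0 hJ hκ0 j hj'
  have h2 := wronsk_gen H.conj hinj h0 hJ' hκ0 j hj'
  have hpt : Pool.Agent.SP.pt κ 0 = 1 / 2 + Complex.I * κ := by
    unfold Pool.Agent.SP.pt; push_cast; ring
  rw [hpt] at h1 h2
  set s : ℂ := 1 / 2 + Complex.I * κ with hs
  have h3 : conj (fp s θ₀) * c j θ₀ - conj (ff s θ₀) * c' j θ₀ = 0 := by
    have := congrArg conj h2
    simpa [ww] using this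
  have h4 : fp s θ₀ * c j θ₀ - ff s θ₀ * c' j θ₀ = 0 := h1
  have h5 : wr s θ₀ * c j θ₀ = 0 := by
    unfold wr
    linear_combination (conj (ff s θ₀)) * h4 - ff s θ₀ * h3
  exact (mul_eq_zero.mp h5).resolve_left (wr_ne hκ0.ne' h0)

/-- small functions satisfy the hypothesis -/
theorem cont_small (A : ℝ) (hc : ContinuousOn G II) (ho : G =o[𝓝[>] 0] (fun θ => θ ^ (1 / 2 : ℝ)))
    {θ₀ : ℝ} (h0 : θ₀ ∈ II) : Cont A G θ₀ := by
  refine ⟨Dt θ₀ G, ?_, fun s _ _ => rfl, fun κ _ => ?_⟩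
  · have := diff_J hc ho h0
    exact this.congr (fun s _ => Dt_eq θ₀ G s)
  · have := lim_J hc ho h0 κ
    refine this.congr (fun η => ?_)
    rw [Dt_eq]

end

end Pool.Agent.JOS
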