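import Pool.Agent.Lib_helper58.JOS.Core

/-! # JO, part S: output for holomorphic forms -/

namespace Pool.Agent.JOS

open Complex MeasureTheory Filter Topology UpperHalfPlane ModularGroup Set Metric
open scoped MatrixGroups Modular ENNReal ComplexConjugate ContDiff
open Pool.Agent.JO (QN red FamH PV bot cH)
open Pool.Agent.Lib_helper37.JO (HJ)

variable {N : ℕ} [NeZero N]
variable {V : Type} [NormedAddCommGroup V] [InnerProductSpace ℂ V] [CompleteSpace V]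

/-- weighted integrable symbols -/
structure WI (m : ℝ → ℂ) : Prop where
  meas : AEStronglyMeasurable m volume
  int : Integrable (fun κ : ℝ => ‖m κ‖ * (1 + |κ|) ^ (1 / 2 : ℝ))

theorem WI.integrable {m : ℝ → ℂ} (h : WI m) : Integrable m := by
  refine h.int.mono' h.meas (Eventually.of_forall (fun κ => ?_))
  have h1 : (1:ℝ) ≤ (1 + |κ|) ^ (1 / 2 : ℝ) :=
    Real.one_le_rpow (by linarith [abs_nonneg κ]) (by norm_num)
  exact le_mul_of_one_le_right (norm_nonneg _) h1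

theorem WI.mul_bdd {m : ℝ → ℂ} (h : WI m) {e : ℝ → ℂ} (he : AEStronglyMeasurable e volume) {C : ℝ}
    (hC : ∀ κ, ‖e κ‖ ≤ C) : WI (fun κ => m κ * e κ) := by
  refine ⟨h.meas.mul he, ?_⟩
  have h1 : ∀ κ, ‖m κ * e κ‖ * (1 + |κ|) ^ (1 / 2 : ℝ) =
      (‖m κ‖ * (1 + |κ|) ^ (1 / 2 : ℝ)) * ‖e κ‖ := by
    intro κ
    rw [norm_mul]
    ring
  simp_rw [h1]
  exact h.int.mul_bdd (c := C) he.norm (Eventually.of_forall (fun κ => by
    rw [norm_norm]; exact hC κ))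

theorem WI.reflect {m : ℝ → ℂ} (h : WI m) : WI (fun κ => conj (m (-κ))) := by
  constructor
  · have h1 : AEStronglyMeasurable (fun κ : ℝ => m (-κ)) volume :=
      h.meas.comp_quasiMeasurePreserving (Measure.measurePreserving_neg volume).quasiMeasurePreserving
    exact Complex.continuous_conj.comp_aestronglyMeasurable h1
  · have h1 := h.int.comp_neg
    refine h1.congr (Eventually.of_forall (fun κ => ?_))
    simp only [RCLike.norm_conj, abs_neg]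

/-- the continuous part on the real segment -/
noncomputable def fcc (σ : ℝ) (m : ℝ → ℂ) (θ : ℝ) : ℂ := ∫ κ : ℝ, m κ * HJ σ κ θ

theorem fcc_conj {σ : ℝ} (hσ : σ ^ 2 = 1) (m : ℝ → ℂ) {θ : ℝ} (hθ : θ ∈ Ioo 0 Real.pi) :
    conj (fcc σ m θ) = fcc σ (fun κ => conj (m (-κ))) θ := by
  have hσ' : |σ| ≤ 1 := by
    rw [← sq_abs] at hσ
    nlinarith [abs_nonneg σ]
  unfold fcc
  rw [← integral_conj]
  have h1 : ∀ κ : ℝ, conj (m κ * HJ σ κ θ) = conj (m κ) * HJ σ (-κ) θ := by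
    intro κ
    rw [map_mul, Pool.Agent.Lib_helper37.JO.HJ_conj hσ' κ
      (Pool.Agent.Lib_helper37.JO.ofReal_strip hθ.1 hθ.2), Complex.conj_ofReal]
  simp_rw [h1]
  rw [← integral_neg_eq_self]
  simp only [neg_neg]

/-- the bound of the continuous part by `θ^b`, `b < 1/2` -/
theorem fcc_bd {σ : ℝ} (hσ : σ ^ 2 = 1) {m : ℝ → ℂ} (hm : Integrable m) {e : ℝ} (he : 0 < e)
    (he2 : e < 1 / 2) {θ₀ : ℝ} (h0 : θ₀ ∈ Pool.Agent.SP.II) :
    ∃ K : ℝ, ∀ θ ∈ Ioo 0 θ₀, ‖fcc σ m θ‖ ≤ K * θ ^ (1 / 2 - e) := by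
  have hσ' : |σ| ≤ 1 := by
    rw [← sq_abs] at hσ
    nlinarith [abs_nonneg σ]
  obtain ⟨C, hC, h1⟩ := Pool.Agent.Lib_helper37.JO.LG_pow he
  refine ⟨(∫ κ : ℝ, ‖m κ‖) * C, fun θ hθ => ?_⟩
  have hII := Pool.Agent.SP.sub_II h0 hθ
  have hpi : θ < Real.pi := hII.2.trans (by linarith [Real.pi_pos])
  have h2 := Pool.Agent.Lib_helper37.JO.Fc_log hσ' m hm hθ.1 hpi
  have h3 := h1 θ hθ.1 hpi
  have h4 := Pool.Agent.SP.sin_rpow_le hII (a := 1 / 2 - e) (by linarith)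
  have h5 : 0 ≤ ∫ κ : ℝ, ‖m κ‖ := integral_nonneg (fun _ => norm_nonneg _)
  calc ‖fcc σ m θ‖ ≤ (∫ κ : ℝ, ‖m κ‖) * Pool.Agent.Lib_helper37.JO.LG θ := h2
    _ ≤ (∫ κ : ℝ, ‖m κ‖) * (C * Real.sin θ ^ (1 / 2 - e)) := mul_le_mul_of_nonneg_left h3 h5
    _ ≤ (∫ κ : ℝ, ‖m κ‖) * (C * θ ^ (1 / 2 - e)) := by gcongr
    _ = _ := by ring

/-- the transform of the continuous part -/
theorem fcc_cont {σ : ℝ} (hσ : σ ^ 2 = 1) {m : ℝ → ℂ} (hm : WI m) (A : ℝ) {θ₀ : ℝ}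
    (h0 : θ₀ ∈ Pool.Agent.SP.II) : Cont A (fcc σ m) θ₀ := by
  have hII : ∀ θ ∈ Pool.Agent.SP.II, θ ∈ Ioo 0 Real.pi := fun θ h =>
    ⟨h.1, h.2.trans (by linarith [Real.pi_pos])⟩
  have hc : ContinuousOn (fcc σ m) Pool.Agent.SP.II := (fc_cont hσ hm.integrable).mono hII
  refine ⟨Dt θ₀ (fcc σ m), ?_, fun s _ _ => rfl, fun κ hκ => ?_⟩
  · intro s hs
    set e : ℝ := min ((s.re - 1 / 2) / 2) (1 / 4) with he
    have he0 : 0 < e := lt_min (by linarith [hs.1]) (by norm_num)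
    have he1 : e ≤ (s.re - 1 / 2) / 2 := min_le_left _ _
    have he2 : e ≤ 1 / 4 := min_le_right _ _
    have h1 := (dt_diff hc h0 (fcc_bd hσ hm.integrable he0 (by linarith) h0)).2
    have hopen : IsOpen {s : ℂ | 0 < s.re ∧ 1 - (1 / 2 - e) < s.re} :=
      (isOpen_lt continuous_const Complex.continuous_re).inter
        (isOpen_lt continuous_const Complex.continuous_re)
    have h2 : s ∈ {s : ℂ | 0 < s.re ∧ 1 - (1 / 2 - e) < s.re} :=
      ⟨by linarith [hs.1], by have := hs.1; linarith⟩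
    exact (h1.differentiableAt (hopen.mem_nhds h2)).differentiableWithinAt
  · have h1 := Pool.Agent.Lib_helper37.JO.DFC hσ m hm.meas hm.int h0 hκ
    refine h1.congr (fun η => ?_)
    rw [Dt_eq]
    rfl

theorem Cont.sub {A : ℝ} {G G' : ℝ → ℂ} {θ₀ : ℝ} (h : Cont A G θ₀) (h' : Cont A G' θ₀)
    (hi : ∀ s : ℂ, A + 2 ≤ s.re → 0 < s.im → IntegrableOn (fun t => Pool.Agent.SP.ff s t * G t /
      ((Real.sin t ^ 2 : ℝ) : ℂ)) (Ioo 0 θ₀))
    (hi' : ∀ s : ℂ, A + 2 ≤ s.re → 0 < s.im → IntegrableOn (fun t => Pool.Agent.SP.ff s t * G' t /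
      ((Real.sin t ^ 2 : ℝ) : ℂ)) (Ioo 0 θ₀)) : Cont A (fun t => G t - G' t) θ₀ := by
  obtain ⟨J, h1, h2, h3⟩ := h.ex
  obtain ⟨J', h1', h2', h3'⟩ := h'.ex
  refine ⟨fun s => J s - J' s, h1.sub h1', fun s hs hs' => ?_, fun κ hκ => ?_⟩
  · show J s - J' s = _
    rw [h2 s hs hs', h2' s hs hs']
    unfold Dt
    rw [← integral_sub (hi s hs hs') (hi' s hs hs')]
    congr 1
    funext t
    ring
  · have := (h3 κ hκ).sub (h3' κ hκ)
    rw [sub_zero] at this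
    refine this.congr (fun η => ?_)
    ring

theorem Cont.congr {A : ℝ} {G G' : ℝ → ℂ} {θ₀ : ℝ} (h : Cont A G θ₀)
    (e : ∀ θ ∈ Ioo 0 θ₀, G θ = G' θ) : Cont A G' θ₀ := by
  obtain ⟨J, h1, h2, h3⟩ := h.ex
  refine ⟨J, h1, fun s hs hs' => ?_, h3⟩
  rw [h2 s hs hs']
  unfold Dt
  refine setIntegral_congr_fun measurableSet_Ioo (fun t ht => ?_)
  rw [e t ht]

/-- good functions near `0` -/
structure Good (A : ℝ) (G : ℝ → ℂ) (θ₀ : ℝ) : Prop where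
  c : ContinuousOn G Pool.Agent.SP.II
  b : ∃ K : ℝ, ∀ θ ∈ Ioo 0 θ₀, ‖G θ‖ ≤ K * θ ^ (1 / 4 : ℝ)
  t : Cont A G θ₀

theorem Good.int {A : ℝ} {G : ℝ → ℂ} {θ₀ : ℝ} (h : Good A G θ₀) (h0 : θ₀ ∈ Pool.Agent.SP.II)
    (hA : 0 ≤ A) (s : ℂ) (hs : A + 2 ≤ s.re) :
    IntegrableOn (fun t => Pool.Agent.SP.ff s t * G t / ((Real.sin t ^ 2 : ℝ) : ℂ)) (Ioo 0 θ₀) :=
  (dt_diff h.c h0 h.b).1 s (by linarith) (by linarith)

theorem Good.sub {A : ℝ} {G G' : ℝ → ℂ} {θ₀ : ℝ} (h : Good A G θ₀) (h' : Good A G' θ₀)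
    (h0 : θ₀ ∈ Pool.Agent.SP.II) (hA : 0 ≤ A) : Good A (fun t => G t - G' t) θ₀ := by
  refine ⟨h.c.sub h'.c, ?_, h.t.sub h'.t (fun s hs _ => h.int h0 hA s hs)
    (fun s hs _ => h'.int h0 hA s hs)⟩
  obtain ⟨K, hK⟩ := h.b
  obtain ⟨K', hK'⟩ := h'.b
  refine ⟨K + K', fun θ hθ => (norm_sub_le _ _).trans ?_⟩
  have := hK θ hθ
  have := hK' θ hθ
  linarith

theorem Good.congr {A : ℝ} {G G' : ℝ → ℂ} {θ₀ : ℝ} (h : Good A G θ₀) (h0 : θ₀ ∈ Pool.Agent.SP.II)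
    (e : ∀ θ ∈ Pool.Agent.SP.II, G θ = G' θ) : Good A G' θ₀ := by
  refine ⟨h.c.congr (fun θ hθ => (e θ hθ).symm), ?_,
    h.t.congr (fun θ hθ => e θ (Pool.Agent.SP.sub_II h0 hθ))⟩
  obtain ⟨K, hK⟩ := h.b
  refine ⟨K, fun θ hθ => ?_⟩
  rw [← e θ (Pool.Agent.SP.sub_II h0 hθ)]
  exact hK θ hθ

theorem II_sub {θ : ℝ} (h : θ ∈ Pool.Agent.SP.II) : θ ∈ Ioo 0 Real.pi :=
  ⟨h.1, h.2.trans (by linarith [Real.pi_pos])⟩

theorem good_fcc {σ : ℝ} (hσ : σ ^ 2 = 1) {m : ℝ → ℂ} (hm : WI m) (A : ℝ) {θ₀ : ℝ}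
    (h0 : θ₀ ∈ Pool.Agent.SP.II) : Good A (fcc σ m) θ₀ := by
  refine ⟨(fc_cont hσ hm.integrable).mono (fun _ h => II_sub h), ?_, fcc_cont hσ hm A h0⟩
  have h1 := fcc_bd hσ hm.integrable (e := 1 / 4) (by norm_num) (by norm_num) h0
  norm_num at h1 ⊢
  exact h1

theorem good_small {G : ℝ → ℂ} (A : ℝ) (hc : ContinuousOn G Pool.Agent.SP.II)
    (ho : G =o[𝓝[>] 0] (fun θ => θ ^ (1 / 2 : ℝ))) {θ₀ : ℝ} (h0 : θ₀ ∈ Pool.Agent.SP.II) :
    Good A G θ₀ := by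
  refine ⟨hc, ?_, cont_small A hc ho h0⟩
  obtain ⟨K, hK0, hK⟩ := Pool.Agent.SP.G_bound' hc ho h0
  refine ⟨K * 2 ^ (1 / 4 : ℝ), fun θ hθ => (hK θ hθ).trans ?_⟩
  have h1 := Pool.Agent.SP.pow_le_two (Pool.Agent.SP.sub_II h0 hθ) (a := 1 / 4) (by norm_num)
  have h2 : θ ^ (1 / 2 : ℝ) = θ ^ (1 / 4 : ℝ) * θ ^ (1 / 4 : ℝ) := by
    rw [← Real.rpow_add hθ.1]
    norm_num
  have h3 : 0 ≤ θ ^ (1 / 4 : ℝ) := Real.rpow_nonneg hθ.1.le _
  rw [h2]
  calc K * (θ ^ (1 / 4 : ℝ) * θ ^ (1 / 4 : ℝ)) ≤ K * (2 ^ (1 / 4 : ℝ) * θ ^ (1 / 4 : ℝ)) := by gcongr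
    _ = _ := by ring

theorem good_sum {ι : Type} {A : ℝ} (hA : 0 ≤ A) {θ₀ : ℝ} (h0 : θ₀ ∈ Pool.Agent.SP.II) {G : ℝ → ℂ}
    (hG : Good A G θ₀) (I : Finset ι) (E : ι → ℝ → ℂ) (hE : ∀ i ∈ I, Good A (E i) θ₀) :
    Good A (fun t => G t - ∑ i ∈ I, E i t) θ₀ := by
  classical
  induction I using Finset.induction_on with
  | empty => simpa using hG
  | insert i I hi ih =>
    have h1 := (ih (fun j hj => hE j (Finset.mem_insert_of_mem hj))).sub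
      (hE i (Finset.mem_insert_self i I)) h0 hA
    refine h1.congr h0 (fun θ _ => ?_)
    rw [Finset.sum_insert hi]
    ring

theorem kk_cont' {k : ℝ → ℝ} (hk : TK k) {h : ℝ → ℂ} (hh : ContinuousOn h (Ioo 0 Real.pi)) :
    ContinuousOn (KK k h) (Ioo 0 Real.pi) :=
  fun t ht => (kk_deriv hk hh ht).1.continuousAt.continuousWithinAt

theorem kk_sum {ι : Type} {k : ℝ → ℝ} (hk : TK k) (I : Finset ι) (E : ι → ℝ → ℂ)
    (hE : ∀ i ∈ I, ContinuousOn (E i) (Ioo 0 Real.pi)) {θ : ℝ} (hθ : θ ∈ Ioo 0 Real.pi) :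
    KK k (fun t => ∑ i ∈ I, E i t) θ = ∑ i ∈ I, KK k (E i) θ := by
  unfold KK
  rw [← integral_finsetSum _ (fun i hi => kk_int hk (hE i hi) hθ)]
  congr 1
  funext t
  rw [Finset.mul_sum]

/-- the multiplier -/
noncomputable def mul2 (k l : TKs) (κ : ℝ) : ℂ :=
  hk l.1 (1 / 2 + Complex.I * κ) * hk k.1 (1 / 2 + Complex.I * κ)

theorem hk_cont (k : TKs) : Continuous (fun κ : ℝ => hk k.1 (1 / 2 + Complex.I * κ)) :=
  (hk_diff k.2).continuous.comp (by fun_prop)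

theorem hk_bdd (k : TKs) : ∃ C : ℝ, 0 ≤ C ∧ ∀ κ : ℝ, ‖hk k.1 (1 / 2 + Complex.I * κ)‖ ≤ C := by
  obtain ⟨C, hC, h⟩ := hk_decay k 0
  exact ⟨C, hC, fun κ => by simpa using h κ⟩

theorem WI.mul2 {m : ℝ → ℂ} (h : WI m) (k l : TKs) : WI (fun κ => m κ * mul2 k l κ) := by
  obtain ⟨C, hC, h1⟩ := hk_bdd k
  obtain ⟨C', hC', h2⟩ := hk_bdd l
  refine h.mul_bdd (C := C' * C) ?_ (fun κ => ?_)
  · exact ((hk_cont l).mul (hk_cont k)).aestronglyMeasurable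
  · unfold JOS.mul2
    rw [norm_mul]
    exact mul_le_mul (h2 κ) (h1 κ) (norm_nonneg _) hC'

theorem kk_fcc {σ : ℝ} (hσ : σ ^ 2 = 1) {m : ℝ → ℂ} (hm : WI m) (k l : TKs) {θ : ℝ}
    (hθ : θ ∈ Ioo 0 Real.pi) :
    KK k.1 (KK l.1 (fcc σ m)) θ = fcc σ (fun κ => m κ * mul2 k l κ) θ := by
  obtain ⟨C', hC', h2⟩ := hk_bdd l
  have h3 : WI (fun κ => m κ * hk l.1 (1 / 2 + Complex.I * κ)) :=
    hm.mul_bdd (hk_cont l).aestronglyMeasurable h2
  have e1 : KK k.1 (KK l.1 (fcc σ m)) θ =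
      KK k.1 (fun t : ℝ => ∫ κ : ℝ, (m κ * hk l.1 (1 / 2 + Complex.I * κ)) * HJ σ κ t) θ :=
    kk_congr k.1 (fun t ht => kk_Fc l hσ hm.integrable ht) θ
  rw [e1, kk_Fc k hσ h3.integrable hθ]
  unfold fcc JOS.mul2
  congr 1
  funext κ
  ring

/-- the smoothing of a function with logarithmic main term is small -/
theorem kk_small {F : ℝ → ℂ} (hF : ContinuousOn F (Ioo 0 Real.pi)) {a b : ℂ}
    (ho : (fun θ => F θ - (a * (Real.log θ : ℂ) + b)) =o[𝓝[>] 0] (fun θ => θ ^ (1 / 2 : ℝ)))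
    (k l : TKs) : (KK k.1 (KK (D3 l).1 F)) =o[𝓝[>] 0] (fun θ => θ ^ (1 / 2 : ℝ)) := by
  set L : ℝ → ℂ := fun θ => a * (Real.log (Real.sin θ) : ℂ) + b with hL
  have hLc : ContinuousOn L (Ioo 0 Real.pi) := by
    refine (continuousOn_const.mul (Complex.continuous_ofReal.comp_continuousOn ?_)).add
      continuousOn_const
    exact Real.continuous_sin.continuousOn.log (fun t ht => (sin_pos_pi ht).ne')
  have h1 := log_small ho
  have h2 : ContinuousOn (fun θ => F θ - L θ) (Ioo 0 Real.pi) := hF.sub hLc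
  have h3 := kk_o (D3 l).2 h2 h1
  have h4 := kk_o k.2 (kk_cont' (D3 l).2 h2) h3
  refine h4.congr' ?_ EventuallyEq.rfl
  have hev : Ioo (0 : ℝ) Real.pi ∈ 𝓝[>] (0 : ℝ) := Ioo_mem_nhdsGT Real.pi_pos
  filter_upwards [hev] with θ hθ
  refine kk_congr k.1 (fun t ht => ?_) θ
  rw [kk_sub (D3 l).2 hF hLc ht, kk_D3_log l a b ht, sub_zero]

/-- **output for holomorphic forms** -/
theorem hol_out (g : VF N) (hS : ∀ b, TA b → SqH (PO N (ag (LA3 b)))) {F : ℝ → ℂ}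
    (hF : ContinuousOn F (Ioo 0 Real.pi)) {a b : ℂ}
    (ho : (fun θ => F θ - (a * (Real.log θ : ℂ) + b)) =o[𝓝[>] 0] (fun θ => θ ^ (1 / 2 : ℝ)))
    {ι : Type} (I : Finset ι) (σ : ι → ℝ) (hσ : ∀ i ∈ I, σ i ^ 2 = 1) (m : ι → ℝ → ℂ)
    (hm : ∀ i ∈ I, WI (m i))
    (hp : ∀ b, TA b → ipH g.1 (PO N (ag (LA3 b))) =
      2 * PR (fun θ => F θ - ∑ i ∈ I, fcc (σ i) (m i) θ) (LA3 b)) :
    Ext (fun θ => F θ - ∑ i ∈ I, fcc (σ i) (m i) θ) := by
  obtain ⟨V, i1, i2, i3, ⟨M⟩⟩ := exists_model (N := N)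
  obtain ⟨w, H⟩ := M.comps (M.J g)
  set E : ℝ → ℂ := fun θ => ∑ i ∈ I, fcc (σ i) (m i) θ with hE
  have hEi : ∀ i ∈ I, ContinuousOn (fcc (σ i) (m i)) (Ioo 0 Real.pi) := fun i hi =>
    fc_cont (hσ i hi) (hm i hi).integrable
  have hEc : ContinuousOn E (Ioo 0 Real.pi) := continuousOn_finsetSum I hEi
  have hh : ContinuousOn (fun θ => F θ - E θ) (Ioo 0 Real.pi) := hF.sub hEc
  have hcore := fun k l => core_h M g hS hh hp k l
  have hcount : Countable (IX w) := H.countable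
  -- the smoothed function
  have hT : ∀ k l : TKs, ∀ θ ∈ Ioo 0 Real.pi, cf M k (D3 l) (M.J g) θ =
      KK k.1 (KK (D3 l).1 F) θ - ∑ i ∈ I, fcc (σ i) (fun κ => m i κ * mul2 k (D3 l) κ) θ := by
    intro k l θ hθ
    rw [hcore k l θ hθ]
    have e1 : ∀ t ∈ Ioo 0 Real.pi, KK (D3 l).1 (fun θ => F θ - E θ) t =
        KK (D3 l).1 F t - ∑ i ∈ I, KK (D3 l).1 (fcc (σ i) (m i)) t := by
      intro t ht
      rw [kk_sub (D3 l).2 hF hEc ht, kk_sum (D3 l).2 I _ hEi ht]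
    rw [kk_congr k.1 e1 θ, kk_sub k.2 (kk_cont' (D3 l).2 hF)
      (continuousOn_finsetSum I (fun i hi => kk_cont' (D3 l).2 (hEi i hi))) hθ,
      kk_sum k.2 I _ (fun i hi => kk_cont' (D3 l).2 (hEi i hi)) hθ]
    congr 1
    exact Finset.sum_congr rfl (fun i hi => kk_fcc (hσ i hi) (hm i hi) k (D3 l) hθ)
  -- vanishing of the components
  have hzero : ∀ k l : TKs, ∀ i : IX w, 1 / 4 < i.1 → ∀ θ ∈ Ioo 0 Real.pi,
      cf M k (D3 l) (w (some i.1)) θ = 0 := by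
    intro k l i hi
    have hII : ∀ θ₀ ∈ Pool.Agent.SP.II, cf M k (D3 l) (w (some i.1)) θ₀ = 0 := by
      intro θ₀ h0
      obtain ⟨C, hSF⟩ := H.solFam k (D3 l)
      have hA : (0 : ℝ) ≤ 3 / 2 := by norm_num
      have hsm := kk_small hF ho k l
      have hc1 : ContinuousOn (KK k.1 (KK (D3 l).1 F)) Pool.Agent.SP.II :=
        (kk_cont' k.2 (kk_cont' (D3 l).2 hF)).mono (fun _ h => II_sub h)
      have g1 : Good (3 / 2) (cf M k (D3 l) (M.J g)) θ₀ := by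
        refine (good_sum hA h0 (good_small (3 / 2) hc1 hsm h0) I
          (fun i => fcc (σ i) (fun κ => m i κ * mul2 k (D3 l) κ)) (fun i hi =>
          good_fcc (hσ i hi) ((hm i hi).mul2 k (D3 l)) _ h0)).congr h0 (fun θ hθ => ?_)
        rw [hT k l θ (II_sub hθ)]
      have hsm' : (fun θ => conj (KK k.1 (KK (D3 l).1 F) θ)) =o[𝓝[>] 0] (fun θ => θ ^ (1 / 2 : ℝ)) := by
        refine hsm.norm_left.congr_left (fun θ => ?_) |>.of_norm_left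
        simp
      have hc1' : ContinuousOn (fun θ => conj (KK k.1 (KK (D3 l).1 F) θ)) Pool.Agent.SP.II :=
        Complex.continuous_conj.comp_continuousOn hc1
      have g2 : Good (3 / 2) (fun θ => conj (cf M k (D3 l) (M.J g) θ)) θ₀ := by
        refine (good_sum hA h0 (good_small (3 / 2) hc1' hsm' h0) I
          (fun i => fcc (σ i) (fun κ => conj (m i (-κ) * mul2 k (D3 l) (-κ)))) (fun i hi =>
          good_fcc (hσ i hi) ((hm i hi).mul2 k (D3 l)).reflect _ h0)).congr h0 (fun θ hθ => ?_)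
        rw [hT k l θ (II_sub hθ), map_sub, map_sum]
        congr 1
        exact Finset.sum_congr rfl (fun i hi => (fcc_conj (hσ i hi) (fun κ => m i κ * mul2 k (D3 l) κ) (II_sub hθ)).symm)
      exact main_gen hSF (fun a b h => Subtype.ext h) h0 g1.t g2.t i hi
    -- uniqueness
    have hx : Real.pi / 4 ∈ Pool.Agent.SP.II := ⟨by linarith [Real.pi_pos], by linarith [Real.pi_pos]⟩
    have hd0 : cf' M k (D3 l) (w (some i.1)) (Real.pi / 4) = 0 := by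
      have e1 := cf_deriv M k (D3 l) (w (some i.1)) (II_sub hx)
      have e2 : HasDerivAt (cf M k (D3 l) (w (some i.1))) 0 (Real.pi / 4) := by
        refine (hasDerivAt_const (Real.pi / 4) (0 : ℂ)).congr_of_eventuallyEq ?_
        filter_upwards [Ioo_mem_nhds hx.1 hx.2] with t ht
        exact hII t ht
      exact e1.unique e2
    intro θ hθ
    have hq : ContinuousOn (fun t : ℝ => -((i.1 / Real.sin t ^ 2 : ℝ) : ℂ)) (Ioo 0 Real.pi) := by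
      refine (Complex.continuous_ofReal.comp_continuousOn ?_).neg
      refine continuousOn_const.div (Real.continuous_sin.pow 2).continuousOn (fun t ht => ?_)
      exact (pow_pos (sin_pos_pi ht) 2).ne'
    exact odx_uniq (q := fun t : ℝ => -((i.1 / Real.sin t ^ 2 : ℝ) : ℂ)) (g := fun _ => 0) hq
      (y₁ := cf M k (D3 l) (w (some i.1))) (y₁' := cf' M k (D3 l) (w (some i.1)))
      (y₂ := fun _ => 0) (y₂' := fun _ => 0)
      (fun t ht => cf_deriv M k (D3 l) _ ht)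
      (fun t ht => (H.ode k (D3 l) i.1 ht).congr_deriv (by ring))
      (fun t _ => hasDerivAt_const t 0)
      (fun t _ => (hasDerivAt_const t (0 : ℂ)).congr_deriv (by simp)) (II_sub hx)
      (hII _ hx) hd0 θ hθ
  -- the finite sum
  have hfin := H.finite (1 / 4)
  refine ext_fin hh hfin.toFinset (fun k l => ⟨fun m' => cf M k (D3 l) (w (some m')),
    fun m' => cf' M k (D3 l) (w (some m')), fun m' _ t ht => ⟨cf_deriv M k (D3 l) _ ht,
    H.ode k (D3 l) m' ht⟩, fun θ hθ => ?_⟩)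
  rw [← hcore k l θ hθ]
  have h1 := H.hasSum k (D3 l) θ
  have h2 : HasSum (fun l' : ℝ => cf M k (D3 l) (w (some l')) θ) (cf M k (D3 l) (M.J g) θ) := by
    refine (Function.Injective.hasSum_iff (f := fun l' : ℝ => cf M k (D3 l) (w (some l')) θ)
      (g := fun i : IX w => i.1) (fun a b h => Subtype.ext h) (fun x hx => ?_)).1 h1
    by_cases hx0 : w (some x) = 0
    · simp [cf, hx0]
    · exact absurd ⟨⟨x, hx0⟩, rfl⟩ hx
  have h3 : HasSum (fun l' : ℝ => cf M k (D3 l) (w (some l')) θ)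
      (∑ m' ∈ hfin.toFinset, cf M k (D3 l) (w (some m')) θ) := by
    refine hasSum_sum_of_ne_finset_zero (fun x hx => ?_)
    by_cases hx0 : w (some x) = 0
    · simp [cf, hx0]
    · refine hzero k l ⟨x, hx0⟩ ?_ θ hθ
      by_contra hcon
      push Not at hcon
      exact hx (hfin.mem_toFinset.2 ⟨hcon, hx0⟩)
  exact h2.unique h3

end Pool.Agent.JOS
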