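import Pool.Agent.Lib_helper58.JOS.Fin

/-! # JO, part S: the one dimensional operators on test functions of the angle -/

namespace Pool.Agent.JOS

open Complex MeasureTheory Filter Topology UpperHalfPlane ModularGroup Set Metric
open scoped MatrixGroups Modular ENNReal ComplexConjugate ContDiff
open Pool.Agent.JO (QN red FamH)

/-- test functions of the angle -/
structure TA (b : ℝ → ℂ) : Prop where
  smooth : ContDiff ℝ ∞ b
  supp : ∃ a c : ℝ, 0 < a ∧ c < Real.pi ∧ ∀ t, b t ≠ 0 → t ∈ Icc a c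

/-- the Laplacian on functions of the angle -/
noncomputable def LA (b : ℝ → ℂ) (θ : ℝ) : ℂ := -((Real.sin θ ^ 2 : ℝ) : ℂ) * deriv (deriv b) θ

open scoped Classical in
/-- the operator `K_k`, extended by zero -/
noncomputable def KZ (k : ℝ → ℝ) (u : ℝ → ℂ) (θ : ℝ) : ℂ :=
  if θ ∈ Ioo 0 Real.pi then KK k u θ else 0

theorem KZ_in (k : ℝ → ℝ) (u : ℝ → ℂ) {θ : ℝ} (h : θ ∈ Ioo 0 Real.pi) : KZ k u θ = KK k u θ :=
  if_pos h

theorem KZ_out (k : ℝ → ℝ) (u : ℝ → ℂ) {θ : ℝ} (h : θ ∉ Ioo 0 Real.pi) : KZ k u θ = 0 :=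
  if_neg h

theorem TA.cont {b : ℝ → ℂ} (h : TA b) : Continuous b := h.smooth.continuous

theorem TA.out {b : ℝ → ℂ} (h : TA b) {θ : ℝ} (hθ : θ ∉ Ioo 0 Real.pi) : b θ = 0 := by
  obtain ⟨a, c, ha, hc, hs⟩ := h.supp
  by_contra hne
  have := hs θ hne
  exact hθ ⟨lt_of_lt_of_le ha this.1, lt_of_le_of_lt this.2 hc⟩

theorem TA.la {b : ℝ → ℂ} (h : TA b) : TA (LA b) := by
  obtain ⟨a, c, ha, hc, hs⟩ := h.supp
  have h1 : ContDiff ℝ ∞ (deriv b) := (contDiff_infty_iff_deriv.1 h.smooth).2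
  have h2 : ContDiff ℝ ∞ (deriv (deriv b)) := (contDiff_infty_iff_deriv.1 h1).2
  refine ⟨?_, a, c, ha, hc, fun t ht => ?_⟩
  · unfold LA
    refine ContDiff.mul ?_ h2
    exact (Complex.ofRealCLM.contDiff.comp (Real.contDiff_sin.pow 2)).neg
  · by_contra hne
    apply ht
    have hev : ∀ᶠ x in 𝓝 t, b x = 0 := by
      filter_upwards [isClosed_Icc.isOpen_compl.mem_nhds hne] with x hx
      by_contra hbx
      exact hx (hs x hbx)
    have e1 : deriv b =ᶠ[𝓝 t] fun _ => (0 : ℂ) := by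
      filter_upwards [hev.eventually_nhds] with x hx
      have : b =ᶠ[𝓝 x] fun _ => (0 : ℂ) := hx
      rw [this.deriv_eq]
      simp
    unfold LA
    rw [e1.deriv_eq]
    simp

theorem TA.kz {k : ℝ → ℝ} (hk : TK k) {u : ℝ → ℂ} (hu : TA u) : TA (KZ k u) := by
  obtain ⟨a, c, ha, hc, hs⟩ := hu.supp
  obtain ⟨a', c', ha', hc', hs'⟩ := kk_supp hk ha hc
  have hsupp : ∀ t, KZ k u t ≠ 0 → t ∈ Icc a' c' := by
    intro t ht
    by_cases h : t ∈ Ioo 0 Real.pi
    · rw [KZ_in k u h] at ht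
      exact hs' u hs t h ht
    · exact absurd (KZ_out k u h) ht
  refine ⟨?_, a', c', ha', hc', hsupp⟩
  rw [contDiff_iff_contDiffAt]
  intro t
  by_cases h : t ∈ Ioo 0 Real.pi
  · have h1 : ContDiffAt ℝ ∞ (KK k u) t :=
      (kk_smooth hk hu.cont.continuousOn).contDiffAt (Ioo_mem_nhds h.1 h.2)
    refine h1.congr_of_eventuallyEq ?_
    filter_upwards [Ioo_mem_nhds h.1 h.2] with x hx
    exact KZ_in k u hx
  · have hni : t ∉ Icc a' c' := fun hh =>
      h ⟨lt_of_lt_of_le ha' hh.1, lt_of_le_of_lt hh.2 hc'⟩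
    have h1 : ContDiffAt ℝ ∞ (fun _ : ℝ => (0 : ℂ)) t := contDiffAt_const
    refine h1.congr_of_eventuallyEq ?_
    filter_upwards [isClosed_Icc.isOpen_compl.mem_nhds hni] with x hx
    by_contra hbx
    exact hx (hsupp x hbx)

theorem KK_KZ (k l : ℝ → ℝ) (u : ℝ → ℂ) (θ : ℝ) : KK k (KZ l u) θ = KK k (KK l u) θ :=
  kk_congr k (fun _ ht => KZ_in l u ht) θ

theorem la_KZ {k : ℝ → ℝ} (hk : TK k) {u : ℝ → ℂ} (hu : TA u) : LA (KZ k u) = KZ (DD k) u := by
  funext θ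
  by_cases h : θ ∈ Ioo 0 Real.pi
  · have h0 : ∀ t ∈ Ioo 0 Real.pi, HasDerivAt (KK k u) (KK1 k u t) t := fun t ht =>
      (kk_deriv hk hu.cont.continuousOn ht).1
    have e1 : deriv (KZ k u) =ᶠ[𝓝 θ] KK1 k u := by
      filter_upwards [Ioo_mem_nhds h.1 h.2] with x hx
      have : KZ k u =ᶠ[𝓝 x] KK k u := by
        filter_upwards [Ioo_mem_nhds hx.1 hx.2] with y hy
        exact KZ_in k u hy
      rw [this.deriv_eq, (h0 x hx).deriv]
    have hs : ((Real.sin θ ^ 2 : ℝ) : ℂ) ≠ 0 := by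
      have := sin_pos_pi h
      exact_mod_cast (by positivity : (Real.sin θ ^ 2 : ℝ) ≠ 0)
    unfold LA
    rw [e1.deriv_eq, (kk_deriv hk hu.cont.continuousOn h).2.deriv, KZ_in _ _ h]
    field_simp
  · rw [KZ_out _ _ h, (TA.kz hk hu).la.out h]

theorem KZ_la {k : ℝ → ℝ} (hk : TK k) {u : ℝ → ℂ} (hu : TA u) : KZ (DD k) u = KZ k (LA u) := by
  funext θ
  by_cases h : θ ∈ Ioo 0 Real.pi
  · rw [KZ_in _ _ h, KZ_in _ _ h]
    have h1 : ContDiff ℝ ∞ (deriv u) := (contDiff_infty_iff_deriv.1 hu.smooth).2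
    have h2 : ContDiff ℝ ∞ (deriv (deriv u)) := (contDiff_infty_iff_deriv.1 h1).2
    exact kk_D hk (fun t _ => ((contDiff_infty_iff_deriv.1 hu.smooth).1 t).hasDerivAt)
      (fun t _ => ((contDiff_infty_iff_deriv.1 h1).1 t).hasDerivAt) h2.continuous.continuousOn h
  · rw [KZ_out _ _ h, KZ_out _ _ h]

theorem KK_conj (k : ℝ → ℝ) (u : ℝ → ℂ) (θ : ℝ) : conj (KK k u θ) = KK k (fun t => conj (u t)) θ := by
  unfold KK
  rw [← integral_conj]
  congr 1
  funext t
  rw [map_mul, Complex.conj_ofReal]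

theorem KZ_conj (k : ℝ → ℝ) (u : ℝ → ℂ) (θ : ℝ) : conj (KZ k u θ) = KZ k (fun t => conj (u t)) θ := by
  by_cases h : θ ∈ Ioo 0 Real.pi
  · rw [KZ_in _ _ h, KZ_in _ _ h, KK_conj]
  · rw [KZ_out _ _ h, KZ_out _ _ h, map_zero]

theorem TA.conj {u : ℝ → ℂ} (hu : TA u) : TA (fun t => conj (u t)) := by
  obtain ⟨a, c, ha, hc, hs⟩ := hu.supp
  refine ⟨?_, a, c, ha, hc, fun t ht => hs t (fun h => ht (by rw [h, map_zero]))⟩
  exact Complex.conjCLE.contDiff.comp hu.smooth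

/-- the weighted integral -/
noncomputable def PR (g u : ℝ → ℂ) : ℂ :=
  ∫ t in Ioo 0 Real.pi, g t * conj (u t) / ((Real.sin t ^ 2 : ℝ) : ℂ)

theorem PR_symm {k : ℝ → ℝ} (hk : TK k) {g u : ℝ → ℂ} (hg : ContinuousOn g (Ioo 0 Real.pi))
    (hu : TA u) : PR (KK k g) u = PR g (KZ k u) := by
  obtain ⟨a, c, ha, hc, hs⟩ := hu.conj.supp
  unfold PR
  rw [kk_symm hk hg hu.conj.cont.continuousOn ha hc hs]
  refine setIntegral_congr_fun measurableSet_Ioo (fun t ht => ?_)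
  rw [KZ_conj, KZ_in _ _ ht]

theorem PR_congr {g g' u : ℝ → ℂ} (h : ∀ t ∈ Ioo 0 Real.pi, g t = g' t) : PR g u = PR g' u := by
  unfold PR
  refine setIntegral_congr_fun measurableSet_Ioo (fun t ht => ?_)
  rw [h t ht]

/-- integrability -/
theorem PR_int {g u : ℝ → ℂ} (hg : ContinuousOn g (Ioo 0 Real.pi)) (hu : TA u) :
    IntegrableOn (fun t => g t * conj (u t) / ((Real.sin t ^ 2 : ℝ) : ℂ)) (Ioo 0 Real.pi) := by
  obtain ⟨a, c, ha, hc, hs⟩ := hu.supp
  have hsub : Icc a c ⊆ Ioo 0 Real.pi := fun t ht =>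
    ⟨lt_of_lt_of_le ha ht.1, lt_of_le_of_lt ht.2 hc⟩
  have h1 : ContinuousOn (fun t => g t * conj (u t) / ((Real.sin t ^ 2 : ℝ) : ℂ)) (Icc a c) := by
    refine ((hg.mono hsub).mul ?_).div ?_ (fun t ht => ?_)
    · exact (Complex.continuous_conj.comp hu.cont).continuousOn
    · exact (Complex.continuous_ofReal.comp (Real.continuous_sin.pow 2)).continuousOn
    · have := sin_pos_pi (hsub ht)
      exact_mod_cast (by positivity : (Real.sin t ^ 2 : ℝ) ≠ 0)
  have h2 : IntegrableOn (fun t => g t * conj (u t) / ((Real.sin t ^ 2 : ℝ) : ℂ)) (Icc a c) :=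
    h1.integrableOn_Icc
  refine (h2.of_forall_sdiff_eq_zero (t := Ioo 0 Real.pi) measurableSet_Ioo (fun t ht => ?_))
  have : u t = 0 := by
    by_contra hne
    exact ht.2 (hs t hne)
  rw [this]
  simp

/-- fundamental lemma -/
theorem PR_zero {g : ℝ → ℂ} (hg : ContinuousOn g (Ioo 0 Real.pi)) (h : ∀ u, TA u → PR g u = 0) :
    ∀ t ∈ Ioo 0 Real.pi, g t = 0 := by
  have h1 : ∀ᵐ x : ℝ, x ∈ Ioo 0 Real.pi → g x = 0 := by
    refine isOpen_Ioo.ae_eq_zero_of_integral_contDiff_smul_eq_zero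
      (hg.locallyIntegrableOn measurableSet_Ioo) (fun φ hφ hc hsub => ?_)
    -- the test function
    have hu : TA (fun t => ((Real.sin t ^ 2 * φ t : ℝ) : ℂ)) := by
      refine ⟨Complex.ofRealCLM.contDiff.comp ((Real.contDiff_sin.pow 2).mul hφ), ?_⟩
      have hK : IsCompact (tsupport φ) := hc
      rcases (tsupport φ).eq_empty_or_nonempty with he | hne
      · refine ⟨1, 1, one_pos, by linarith [Real.pi_gt_three], fun t ht => ?_⟩
        exfalso
        apply ht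
        have : φ t = 0 := image_eq_zero_of_notMem_tsupport (by rw [he]; exact notMem_empty t)
        rw [this, mul_zero]
        norm_num
      · obtain ⟨x, hx, hx2⟩ := hK.exists_isLeast hne
        obtain ⟨y, hy, hy2⟩ := hK.exists_isGreatest hne
        refine ⟨x, y, (hsub hx).1, (hsub hy).2, fun t ht => ?_⟩
        have : t ∈ tsupport φ := by
          by_contra hcon
          apply ht
          rw [image_eq_zero_of_notMem_tsupport hcon, mul_zero]
          norm_num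
        exact ⟨hx2 this, hy2 this⟩
    have h2 := h _ hu
    unfold PR at h2
    have h3 : ∫ x, φ x • g x = ∫ t in Ioo 0 Real.pi, φ t • g t := by
      rw [← integral_indicator measurableSet_Ioo]
      congr 1
      funext x
      by_cases hx : x ∈ Ioo 0 Real.pi
      · rw [indicator_of_mem hx]
      · rw [indicator_of_notMem hx, image_eq_zero_of_notMem_tsupport (fun hh => hx (hsub hh)), zero_smul]
    rw [h3, ← h2]
    refine setIntegral_congr_fun measurableSet_Ioo (fun t ht => ?_)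
    have hs : (Complex.sin (t : ℂ)) ≠ 0 := by
      rw [← Complex.ofReal_sin]
      exact_mod_cast (sin_pos_pi ht).ne'
    simp only [Complex.conj_ofReal, Complex.real_smul]
    push_cast
    field_simp
  intro t ht
  by_contra hne
  have hcont : ContinuousAt g t := hg.continuousAt (Ioo_mem_nhds ht.1 ht.2)
  have h2 : ∀ᶠ x in 𝓝 t, x ∈ Ioo 0 Real.pi ∧ g x ≠ 0 :=
    Filter.Eventually.and (Ioo_mem_nhds ht.1 ht.2) (hcont.eventually_ne hne)
  obtain ⟨U, hU, hUo, htU⟩ := _root_.eventually_nhds_iff.1 h2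
  have h3 : volume U = 0 := by
    refine measure_mono_null (fun x hx => ?_) h1
    intro hcon
    exact (hU x hx).2 (hcon (hU x hx).1)
  exact (hUo.measure_pos volume ⟨t, htU⟩).ne' h3

end Pool.Agent.JOS
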