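import Pool.Agent.Lib_helper58.JOS.MPair

/-! # JO, part S: the continuous part of the ray function of a form -/

namespace Pool.Agent.JOS

open Complex MeasureTheory Filter Topology UpperHalfPlane ModularGroup Set Metric
open scoped MatrixGroups Modular ENNReal ComplexConjugate ContDiff
open Pool.Agent.JO (QN red FamH PV bot cH ZfB Zf meanH melL2)
open Pool.Agent.Lib_helper37.JO (HJ)

variable {N : ℕ} [NeZero N]

theorem aM_eq_melL2 {χ : DirichletCharacter ℂ N} {k : ℕ} {lam : ℕ → ℂ} {u : ℍ → ℂ}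
    (hu : Pool.Agent.JO.WForm N χ k lam u) (v : ZMod N × ZMod N) (κ : ℝ) :
    Pool.Agent.JO.aM (N := N) u v κ = melL2 (fun y => cH (Pool.Agent.JO.phiF (N := N) u) v y -
        meanH (Pool.Agent.JO.phiF (N := N) u)) κ := by
  have hφ : SqH (Pool.Agent.JO.phiF (N := N) u) := sqH_phi hu
  unfold Pool.Agent.JO.aM
  refine melL2_congr (fun y hy => ?_) κ
  have hx : (Complex.I / ((√y : ℝ) : ℂ)) ≠ 0 := by
    refine div_ne_zero Complex.I_ne_zero ?_
    exact_mod_cast (Real.sqrt_pos.2 hy).ne'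
  rw [Pool.Agent.JO.CF_liftH _ hx, (Pool.Agent.JO.liftH_sq (toJO hφ)).2.1]
  congr 2
  rw [Complex.normSq_div, Complex.normSq_I, Complex.normSq_ofReal, Real.mul_self_sqrt hy.le]
  simp

/-- the continuous part is `Fct` -/
theorem concl_of_ext {χ : DirichletCharacter ℂ N} {k : ℕ} {lam : ℕ → ℂ} {u : ℍ → ℂ}
    (hu : Pool.Agent.JO.WForm N χ k lam u) (θ : ℝ) :
    ∑ i ∈ IC N, fcc (sg i.2) (ms2 (Pool.Agent.JO.phiF (N := N) u) i) θ =
      Pool.Agent.JO.Fct (N := N) (Zf N) u θ := by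
  unfold Pool.Agent.JO.Fct IC
  rw [Finset.sum_product]
  refine Finset.sum_congr rfl (fun v _ => ?_)
  rw [Fintype.sum_bool]
  simp only [fcc, ms2, sg, if_true, Bool.false_eq_true, if_false, aM_eq_melL2 hu]

/-- the symbols of `|u|²` are good -/
theorem wi_phi (hZ : ZfB (Zf N)) {χ : DirichletCharacter ℂ N} {k : ℕ} {lam : ℕ → ℂ} {u : ℍ → ℂ}
    (hu : Pool.Agent.JO.WForm N χ k lam u) (hdec : Pool.Agent.JO.aMDec N u) :
    ∀ i ∈ IC N, WI (ms2 (Pool.Agent.JO.phiF (N := N) u) i) := by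
  intro i hi
  have h1 := wi_aM hZ hdec (Finset.mem_product.1 hi).1 (sg i.2)
  have h2 : (fun κ => Pool.Agent.JO.aM (N := N) u i.1 κ * Zf N i.1 (sg i.2) κ) =
      ms2 (Pool.Agent.JO.phiF (N := N) u) i := by
    funext κ
    rw [aM_eq_melL2 hu]
    rfl
  rw [← h2]
  exact h1

end Pool.Agent.JOS
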