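import Pool.Agent.Lib_helper58.JOS.SHol

/-! # JO, part S, Maass forms: families of solutions on `(0, π)` -/

namespace Pool.Agent.JOS

open Complex MeasureTheory Filter Topology UpperHalfPlane ModularGroup Set Metric
open scoped MatrixGroups Modular ENNReal ComplexConjugate ContDiff
open Pool.Agent.JO (QN red FamH PV bot cH)
open Pool.Agent.Lib_helper37.JO (HJ)

/-- a family of solutions of `-sin² c'' = λ c` on `(0, π)` -/
structure SF2 {ι : Type} (lam : ι → ℝ) (c c' : ι → ℝ → ℂ) (G : ℝ → ℂ) (A C : ℝ) : Prop where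
  A0 : 0 ≤ A
  C0 : 0 ≤ C
  d1 : ∀ i, ∀ θ ∈ Ioo 0 Real.pi, HasDerivAt (c i) (c' i θ) θ
  d2 : ∀ i, ∀ θ ∈ Ioo 0 Real.pi,
    HasDerivAt (c' i) (-((lam i / Real.sin θ ^ 2 : ℝ) : ℂ) * c i θ) θ
  s : ∀ θ ∈ Ioo 0 Real.pi, ∀ F : Finset ι, ∑ i ∈ F, ‖c i θ‖ ≤ C * Real.sin θ ^ (-A) ∧
    ∑ i ∈ F, ‖c' i θ‖ ≤ C * Real.sin θ ^ (-A)
  hG : ∀ θ ∈ Ioo 0 Real.pi, HasSum (fun i => c i θ) (G θ)
  cG : ContinuousOn G (Ioo 0 Real.pi)

variable {ι : Type} {lam : ι → ℝ} {c c' d d' : ι → ℝ → ℂ} {G H : ℝ → ℂ} {A C D : ℝ}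

theorem SF2.congr (h : SF2 lam c c' G A C) (e : ∀ i θ, c i θ = d i θ) (e' : ∀ i θ, c' i θ = d' i θ)
    (eG : ∀ θ, G θ = H θ) : SF2 lam d d' H A C := by
  have h1 : c = d := by funext i θ; exact e i θ
  have h2 : c' = d' := by funext i θ; exact e' i θ
  have h3 : G = H := by funext θ; exact eG θ
  rw [← h1, ← h2, ← h3]
  exact h

theorem SF2.mono (h : SF2 lam c c' G A C) (hD : C ≤ D) : SF2 lam c c' G A D := by
  refine ⟨h.A0, h.C0.trans hD, h.d1, h.d2, fun θ hθ F => ?_, h.hG, h.cG⟩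
  have h1 : C * Real.sin θ ^ (-A) ≤ D * Real.sin θ ^ (-A) :=
    mul_le_mul_of_nonneg_right hD (Real.rpow_nonneg (sin_pos_pi hθ).le _)
  exact ⟨((h.s θ hθ F).1).trans h1, ((h.s θ hθ F).2).trans h1⟩

theorem SF2.congrG (h : SF2 lam c c' G A C) (e : ∀ θ ∈ Ioo 0 Real.pi, G θ = H θ) :
    SF2 lam c c' H A C := by
  refine ⟨h.A0, h.C0, h.d1, h.d2, h.s, fun θ hθ => ?_, ?_⟩
  · rw [← e θ hθ]
    exact h.hG θ hθ
  · exact h.cG.congr (fun θ hθ => (e θ hθ).symm)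

/-- the restriction to `(0, π/2)` -/
theorem SF2.solFam (h : SF2 lam c c' G A C) :
    Pool.Agent.SP.SolFam lam c c' G A (C * 2 ^ A) := by
  have hrp : ∀ θ ∈ Pool.Agent.SP.II,
      C * Real.sin θ ^ (-A) ≤ C * 2 ^ A * θ ^ (-A) := by
    intro θ hθ
    have h1 := Pool.Agent.SP.sin_ge hθ
    have h2 : Real.sin θ ^ (-A) ≤ (θ / 2) ^ (-A) :=
      Real.rpow_le_rpow_of_nonpos (by linarith [hθ.1]) h1 (by linarith [h.A0])
    have h3 : (θ / 2) ^ (-A) = 2 ^ A * θ ^ (-A) := by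
      rw [Real.div_rpow hθ.1.le (by norm_num), Real.rpow_neg (by norm_num : (0 : ℝ) ≤ 2)]
      field_simp
    calc C * Real.sin θ ^ (-A) ≤ C * (θ / 2) ^ (-A) := mul_le_mul_of_nonneg_left h2 h.C0
      _ = _ := by rw [h3]; ring
  refine ⟨h.A0, fun i θ hθ => h.d1 i θ (II_sub hθ), fun i θ hθ => h.d2 i θ (II_sub hθ),
    fun θ hθ => ?_, fun θ hθ => ?_, fun θ hθ => ?_, fun θ hθ => ?_,
    fun θ hθ => h.hG θ (II_sub hθ), h.cG.mono (fun _ hθ => II_sub hθ)⟩
  · exact summable_of_sum_le (fun i => norm_nonneg _) (fun F => (h.s θ (II_sub hθ) F).1)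
  · exact (Real.tsum_le_of_sum_le (fun i => norm_nonneg _)
      (fun F => (h.s θ (II_sub hθ) F).1)).trans (hrp θ hθ)
  · exact summable_of_sum_le (fun i => norm_nonneg _) (fun F => (h.s θ (II_sub hθ) F).2)
  · exact (Real.tsum_le_of_sum_le (fun i => norm_nonneg _)
      (fun F => (h.s θ (II_sub hθ) F).2)).trans (hrp θ hθ)

theorem pi_sub_mem {θ : ℝ} (h : θ ∈ Ioo 0 Real.pi) : Real.pi - θ ∈ Ioo 0 Real.pi :=
  ⟨by linarith [h.2], by linarith [h.1]⟩

theorem pi_sub_cont : ContinuousOn (fun θ : ℝ => Real.pi - θ) (Ioo 0 Real.pi) := by fun_prop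

/-- reflection -/
theorem SF2.refl (h : SF2 lam c c' G A C) :
    SF2 lam (fun i θ => c i (Real.pi - θ)) (fun i θ => -c' i (Real.pi - θ))
      (fun θ => G (Real.pi - θ)) A C := by
  have hd : ∀ θ : ℝ, HasDerivAt (fun t : ℝ => Real.pi - t) (-1) θ := fun θ => by
    simpa using (hasDerivAt_id θ).const_sub Real.pi
  refine ⟨h.A0, h.C0, fun i θ hθ => ?_, fun i θ hθ => ?_, fun θ hθ F => ?_, fun θ hθ => ?_, ?_⟩
  · have h1 := (h.d1 i _ (pi_sub_mem hθ)).scomp θ (hd θ)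
    refine h1.congr_deriv ?_
    simp
  · have h1 := ((h.d2 i _ (pi_sub_mem hθ)).scomp θ (hd θ)).neg
    refine h1.congr_deriv ?_
    rw [Real.sin_pi_sub]
    simp
  · have h1 := h.s _ (pi_sub_mem hθ) F
    rw [Real.sin_pi_sub] at h1
    refine ⟨h1.1, ?_⟩
    simp only [norm_neg]
    exact h1.2
  · exact h.hG _ (pi_sub_mem hθ)
  · exact h.cG.comp pi_sub_cont (fun θ hθ => pi_sub_mem hθ)

/-- conjugation -/
theorem SF2.conj (h : SF2 lam c c' G A C) :
    SF2 lam (fun i θ => conj (c i θ)) (fun i θ => conj (c' i θ)) (fun θ => conj (G θ)) A C := by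
  refine ⟨h.A0, h.C0, fun i θ hθ => ?_, fun i θ hθ => ?_, fun θ hθ F => ?_, fun θ hθ => ?_, ?_⟩
  · exact (h.d1 i θ hθ).star
  · refine (h.d2 i θ hθ).star.congr_deriv ?_
    simp only [star_mul', star_neg, RCLike.star_def, Complex.conj_ofReal]
  · simp only [RCLike.norm_conj]
    exact h.s θ hθ F
  · have := (h.hG θ hθ).mapL (Complex.conjCLE : ℂ →L[ℝ] ℂ)
    simpa using this
  · exact Complex.continuous_conj.comp_continuousOn h.cG

/-- sum of two families -/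
theorem SF2.add (h : SF2 lam c c' G A C) (h' : SF2 lam d d' H A D) :
    SF2 lam (fun i θ => c i θ + d i θ) (fun i θ => c' i θ + d' i θ) (fun θ => G θ + H θ) A
      (C + D) := by
  refine ⟨h.A0, add_nonneg h.C0 h'.C0, fun i θ hθ => (h.d1 i θ hθ).add (h'.d1 i θ hθ),
    fun i θ hθ => ?_, fun θ hθ F => ⟨?_, ?_⟩, fun θ hθ => (h.hG θ hθ).add (h'.hG θ hθ),
    h.cG.add h'.cG⟩
  · refine ((h.d2 i θ hθ).add (h'.d2 i θ hθ)).congr_deriv ?_
    ring
  · calc ∑ i ∈ F, ‖c i θ + d i θ‖ ≤ ∑ i ∈ F, (‖c i θ‖ + ‖d i θ‖) :=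
          Finset.sum_le_sum (fun i _ => norm_add_le _ _)
      _ = ∑ i ∈ F, ‖c i θ‖ + ∑ i ∈ F, ‖d i θ‖ := Finset.sum_add_distrib
      _ ≤ C * Real.sin θ ^ (-A) + D * Real.sin θ ^ (-A) :=
          add_le_add (h.s θ hθ F).1 (h'.s θ hθ F).1
      _ = _ := by ring
  · calc ∑ i ∈ F, ‖c' i θ + d' i θ‖ ≤ ∑ i ∈ F, (‖c' i θ‖ + ‖d' i θ‖) :=
          Finset.sum_le_sum (fun i _ => norm_add_le _ _)
      _ = ∑ i ∈ F, ‖c' i θ‖ + ∑ i ∈ F, ‖d' i θ‖ := Finset.sum_add_distrib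
      _ ≤ C * Real.sin θ ^ (-A) + D * Real.sin θ ^ (-A) :=
          add_le_add (h.s θ hθ F).2 (h'.s θ hθ F).2
      _ = _ := by ring

/-- multiple of a family -/
theorem SF2.smul (h : SF2 lam c c' G A C) (a : ℂ) :
    SF2 lam (fun i θ => a * c i θ) (fun i θ => a * c' i θ) (fun θ => a * G θ) A (‖a‖ * C) := by
  refine ⟨h.A0, mul_nonneg (norm_nonneg _) h.C0, fun i θ hθ => (h.d1 i θ hθ).const_mul a,
    fun i θ hθ => ?_, fun θ hθ F => ⟨?_, ?_⟩, fun θ hθ => (h.hG θ hθ).mul_left a,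
    continuousOn_const.mul h.cG⟩
  · refine ((h.d2 i θ hθ).const_mul a).congr_deriv ?_
    ring
  · simp_rw [norm_mul]
    rw [← Finset.mul_sum, mul_assoc]
    exact mul_le_mul_of_nonneg_left (h.s θ hθ F).1 (norm_nonneg _)
  · simp_rw [norm_mul]
    rw [← Finset.mul_sum, mul_assoc]
    exact mul_le_mul_of_nonneg_left (h.s θ hθ F).2 (norm_nonneg _)

/-- difference of two families -/
theorem SF2.sub (h : SF2 lam c c' G A C) (h' : SF2 lam d d' H A D) :
    SF2 lam (fun i θ => c i θ - d i θ) (fun i θ => c' i θ - d' i θ) (fun θ => G θ - H θ) A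
      (C + D) := by
  have h1 := h.add (h'.smul (-1))
  rw [norm_neg, norm_one, one_mul] at h1
  exact h1.congr (fun i θ => by ring) (fun i θ => by ring) (fun θ => by ring)

theorem SF2.cont1 (h : SF2 lam c c' G A C) (i : ι) {θ : ℝ} (hθ : θ ∈ Ioo 0 Real.pi) :
    ContinuousAt (c i) θ := (h.d1 i θ hθ).continuousAt

theorem SF2.cont2 (h : SF2 lam c c' G A C) (i : ι) {θ : ℝ} (hθ : θ ∈ Ioo 0 Real.pi) :
    ContinuousAt (c' i) θ := (h.d2 i θ hθ).continuousAt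

/-- a member which vanishes on `(0, π/2)` vanishes on `(0, π)` -/
theorem SF2.zero_of_II (h : SF2 lam c c' G A C) (i : ι)
    (h0 : ∀ θ ∈ Pool.Agent.SP.II, c i θ = 0) : ∀ θ ∈ Ioo 0 Real.pi, c i θ = 0 := by
  have hx : Real.pi / 4 ∈ Pool.Agent.SP.II := ⟨by linarith [Real.pi_pos], by linarith [Real.pi_pos]⟩
  have hd0 : c' i (Real.pi / 4) = 0 := by
    have e1 := h.d1 i _ (II_sub hx)
    have e2 : HasDerivAt (c i) 0 (Real.pi / 4) := by
      refine (hasDerivAt_const (Real.pi / 4) (0 : ℂ)).congr_of_eventuallyEq ?_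
      filter_upwards [Ioo_mem_nhds hx.1 hx.2] with t ht
      exact h0 t ht
    exact e1.unique e2
  have hq : ContinuousOn (fun t : ℝ => -((lam i / Real.sin t ^ 2 : ℝ) : ℂ)) (Ioo 0 Real.pi) := by
    refine (Complex.continuous_ofReal.comp_continuousOn ?_).neg
    refine continuousOn_const.div (Real.continuous_sin.pow 2).continuousOn (fun t ht => ?_)
    exact (pow_pos (sin_pos_pi ht) 2).ne'
  exact odx_uniq (q := fun t : ℝ => -((lam i / Real.sin t ^ 2 : ℝ) : ℂ)) (g := fun _ => 0) hq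
    (y₁ := c i) (y₁' := c' i) (y₂ := fun _ => 0) (y₂' := fun _ => 0)
    (fun t ht => h.d1 i t ht)
    (fun t ht => (h.d2 i t ht).congr_deriv (by ring))
    (fun t _ => hasDerivAt_const t 0)
    (fun t _ => (hasDerivAt_const t (0 : ℂ)).congr_deriv (by simp)) (II_sub hx)
    (h0 _ hx) hd0

/-- the family of the components, with an arbitrary index set -/
theorem Comps.sf2 {N : ℕ} [NeZero N] {V : Type} [NormedAddCommGroup V] [InnerProductSpace ℂ V]
    [CompleteSpace V] {M : Model N V} {G : V} {w : Option ℝ → V} (H : Comps M G w) (S : Set ℝ)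
    (hS : ∀ l, w (some l) ≠ 0 → l ∈ S) (k l : TKs) :
    ∃ C : ℝ, SF2 (fun i : S => i.1) (fun i => cf M k l (w (some i.1)))
      (fun i => cf' M k l (w (some i.1))) (cf M k l G) (3 / 2) C := by
  classical
  obtain ⟨C, hC, hb⟩ := H.sums k l
  have hinj : Function.Injective (fun i : S => (some i.1 : Option ℝ)) :=
    fun a b h => Subtype.ext (Option.some_injective _ h)
  refine ⟨C, by norm_num, hC, fun i θ h => cf_deriv M k l _ h, fun i θ h => H.ode k l i.1 h,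
    fun θ hθ F => ?_, fun θ hθ => ?_, fun θ h => (cf_deriv M k l G h).continuousAt.continuousWithinAt⟩
  · have h := hb θ hθ (F.map ⟨_, hinj⟩)
    rw [Finset.sum_map, Finset.sum_map] at h
    exact h
  · have h1 : HasSum (fun i => cf M k l (w i) θ) (cf M k l G θ) :=
      H.sum.mapL ((M.ray k θ).comp (M.op l))
    refine (hinj.hasSum_iff (f := fun i => cf M k l (w i) θ) (fun i hi => ?_)).2 h1
    cases i with
    | none => simp [cf, H.zero l]
    | some m =>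
      by_cases hm : w (some m) = 0
      · simp [cf, hm]
      · exact absurd ⟨⟨m, hS m hm⟩, rfl⟩ hi

theorem Comps.countable_set {N : ℕ} [NeZero N] {V : Type} [NormedAddCommGroup V]
    [InnerProductSpace ℂ V] [CompleteSpace V] {M : Model N V} {G : V} {w : Option ℝ → V}
    (H : Comps M G w) : {l : ℝ | w (some l) ≠ 0}.Countable := by
  have h1 := H.countable
  exact Set.countable_coe_iff.1 h1

end Pool.Agent.JOS
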