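import Pool.Agent.Lib_helper58.JOS.MRel

/-! # JO, part S, Maass forms: the smoothed ray function of the cuspidal part -/

namespace Pool.Agent.JOS

open Complex MeasureTheory Filter Topology UpperHalfPlane ModularGroup Set Metric
open scoped MatrixGroups Modular ENNReal ComplexConjugate ContDiff
open Pool.Agent.JO (QN red FamH PV bot cH ZfB Zf meanH melL2)
open Pool.Agent.Lib_helper37.JO (HJ)

variable {N : ℕ} [NeZero N]
variable {V : Type} [NormedAddCommGroup V] [InnerProductSpace ℂ V] [CompleteSpace V]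

/-- the sign of an index -/
noncomputable def sg (b : Bool) : ℝ := if b then 1 else -1

theorem sg_sq (b : Bool) : sg b ^ 2 = 1 := by
  unfold sg
  split_ifs <;> norm_num

/-- the index set of the continuous part -/
noncomputable def IC (N : ℕ) [NeZero N] : Finset ((ZMod N × ZMod N) × Bool) :=
  PV N ×ˢ (Finset.univ : Finset Bool)

/-- symbols of the continuous part of a family -/
noncomputable def ms2 (φ : QN N → ℍ → ℂ) (i : (ZMod N × ZMod N) × Bool) (κ : ℝ) : ℂ :=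
  melL2 (fun y => cH φ i.1 y - meanH φ) κ * Zf N i.1 (sg i.2) κ

/-- `g` is the cuspidal part of `φ` up to the continuous part, in pairings with the kernels;
`F` is the ray function of `φ` -/
structure EP (φ : QN N → ℍ → ℂ) (F : ℝ → ℂ) (g : VF N) : Prop where
  hS : ∀ b, TA b → SqH (PO N (ag (LA3 b)))
  hp : ∀ b, TA b → ipH g.1 (PO N (ag (LA3 b))) = 2 * PR F (LA3 b) -
        2 * ∑ i ∈ IC N, ∫ κ : ℝ, ms2 φ i κ *
            ∫ t in Ioo 0 Real.pi, HJ (sg i.2) κ t * conj (LA3 b t) /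
              ((Real.sin t ^ 2 : ℝ) : ℂ)

theorem exists_EP {φ : QN N → ℍ → ℂ} (hφ : SqH φ) (hφc : ∀ s, Continuous (φ s)) {F : ℝ → ℂ}
    (hpF : ∀ b, TA b → ipH φ (PO N (ag (LA3 b))) = 2 * PR F (LA3 b)) :
    ∃ g : VF N, EP φ F g := by
  obtain ⟨g, h1, h2⟩ := e6_pair hφ hφc hpF
  exact ⟨g, h1, h2⟩

theorem ms2_meas (hZ : ZfB (Zf N)) (φ : QN N → ℍ → ℂ) (i : (ZMod N × ZMod N) × Bool) :
    Measurable (ms2 φ i) :=
  (Pool.Agent.JO.measurable_melL2 _).mul (hZ.meas i.1 _)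

/-- the smoothed symbols are good -/
theorem wi_ms2 (hZ : ZfB (Zf N)) (φ : QN N → ℍ → ℂ) (i : (ZMod N × ZMod N) × Bool) (k l : TKs) :
    WI (fun κ => ms2 φ i κ * mul2 k l κ) := by
  obtain ⟨C, d, hd, hC⟩ := hZ.sup
  obtain ⟨B, hB, hb⟩ := hk_decay l 2
  obtain ⟨B', hB', hb'⟩ := hk_bdd k
  have hm : Measurable (fun κ => ms2 φ i κ * mul2 k l κ) := by
    refine (ms2_meas hZ φ i).mul ?_
    exact ((hk_cont l).mul (hk_cont k)).measurable
  refine ⟨hm.aestronglyMeasurable, ?_⟩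
  set f : ℝ → ℂ := melL2 (fun y => cH φ i.1 y - meanH φ) with hf
  have hf2 : Integrable (fun κ => ‖f κ‖ ^ 2) := by
    have h1 := Pool.Agent.JO.memLp_melL2 (fun y => cH φ i.1 y - meanH φ)
    exact h1.integrable_norm_pow (by norm_num)
  have h2 : Integrable (fun κ : ℝ => (1 + κ ^ 2)⁻¹) := integrable_inv_one_add_sq
  have h3 : Integrable (fun κ : ℝ => |C| * (B * B') * (2 * (‖f κ‖ ^ 2 + (1 + κ ^ 2)⁻¹))) :=
    ((hf2.add h2).const_mul 2).const_mul _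
  refine h3.mono' ?_ (Eventually.of_forall (fun κ => ?_))
  · refine (hm.norm.aestronglyMeasurable).mul (Continuous.aestronglyMeasurable ?_)
    exact (continuous_const.add continuous_abs).rpow_const (fun _ => Or.inr (by norm_num))
  · have hx0 : (0:ℝ) < 1 + |κ| := by positivity
    have hx : (1:ℝ) ≤ 1 + |κ| := by linarith [abs_nonneg κ]
    have hp : 0 ≤ (1 + |κ|) ^ (1 / 2 : ℝ) := Real.rpow_nonneg hx0.le _
    rw [Real.norm_of_nonneg (mul_nonneg (norm_nonneg _) hp)]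
    have e1 : ‖Zf N i.1 (sg i.2) κ‖ ≤ |C| * (1 + |κ|) ^ (1 / 2 : ℝ) := by
      refine (hC i.1 (sg i.2) κ).trans ?_
      have h4 : (1 + |κ|) ^ (1 / 2 - d) ≤ (1 + |κ|) ^ (1 / 2 : ℝ) :=
        Real.rpow_le_rpow_of_exponent_le hx (by linarith)
      have h5 : 0 ≤ (1 + |κ|) ^ (1 / 2 - d) := Real.rpow_nonneg hx0.le _
      calc C * (1 + |κ|) ^ (1 / 2 - d) ≤ |C| * (1 + |κ|) ^ (1 / 2 - d) :=
            mul_le_mul_of_nonneg_right (le_abs_self C) h5
        _ ≤ _ := mul_le_mul_of_nonneg_left h4 (abs_nonneg C)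
    have e2 : (1 + |κ|) ^ (1 / 2 : ℝ) * (1 + |κ|) ^ (1 / 2 : ℝ) = 1 + |κ| := by
      rw [← Real.rpow_add hx0]
      norm_num
    have e3 : ‖mul2 k l κ‖ ≤ B * ((1 + κ ^ 2) ^ 2)⁻¹ * B' := by
      unfold mul2
      rw [norm_mul]
      exact mul_le_mul (hb κ) (hb' κ) (norm_nonneg _) (by positivity)
    set y : ℝ := 1 + κ ^ 2 with hy
    have hy1 : 1 ≤ y := by rw [hy]; nlinarith [sq_nonneg κ]
    have hy0 : 0 < y := by linarith
    have e4 : 1 + |κ| ≤ 2 * y := by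
      have : |κ| ≤ y := by
        rw [hy, ← sq_abs κ]
        nlinarith [sq_nonneg (|κ| - 1), abs_nonneg κ]
      linarith
    have e5 : ‖f κ‖ * y⁻¹ ≤ ‖f κ‖ ^ 2 + y⁻¹ := by
      have g1 : y⁻¹ ≤ 1 := inv_le_one_of_one_le₀ hy1
      have g0 : 0 < y⁻¹ := by positivity
      have g2 : 0 ≤ ‖f κ‖ := norm_nonneg _
      by_cases h : ‖f κ‖ ≤ 1
      · nlinarith
      · push Not at h
        nlinarith
    calc ‖ms2 φ i κ * mul2 k l κ‖ * (1 + |κ|) ^ (1 / 2 : ℝ)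
        = ‖f κ‖ * ‖Zf N i.1 (sg i.2) κ‖ * ‖mul2 k l κ‖ * (1 + |κ|) ^ (1 / 2 : ℝ) := by
          unfold ms2
          rw [norm_mul, norm_mul]
      _ ≤ ‖f κ‖ * (|C| * (1 + |κ|) ^ (1 / 2 : ℝ)) * (B * (y ^ 2)⁻¹ * B') *
          (1 + |κ|) ^ (1 / 2 : ℝ) := by
          gcongr
      _ = ‖f κ‖ * |C| * (B * (y ^ 2)⁻¹ * B') *
          ((1 + |κ|) ^ (1 / 2 : ℝ) * (1 + |κ|) ^ (1 / 2 : ℝ)) := by ring
      _ = ‖f κ‖ * |C| * (B * (y ^ 2)⁻¹ * B') * (1 + |κ|) := by rw [e2]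
      _ ≤ ‖f κ‖ * |C| * (B * (y ^ 2)⁻¹ * B') * (2 * y) := by gcongr
      _ = |C| * (B * B') * (2 * (‖f κ‖ * y⁻¹)) := by
          field_simp
      _ ≤ |C| * (B * B') * (2 * (‖f κ‖ ^ 2 + y⁻¹)) := by gcongr

/-- the smoothed ray function of the cuspidal part -/
theorem pairT (hZ : ZfB (Zf N)) {φ : QN N → ℍ → ℂ} {F : ℝ → ℂ} {g : VF N} (hE : EP φ F g)
    (hF : ContinuousOn F (Ioo 0 Real.pi)) (M : Model N V) (k l : TKs) :
    ∃ E : ℝ → ℂ, FS E ∧ ∀ θ ∈ Ioo 0 Real.pi,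
      cf M k (D3 l) (M.J g) θ = KK k.1 (KK (D3 l).1 F) θ - E θ := by
  have hw := fun i => wi_ms2 hZ φ i k (D3 l)
  refine ⟨fun θ => ∑ i ∈ IC N, fcc (sg i.2) (fun κ => ms2 φ i κ * mul2 k (D3 l) κ) θ,
    FS.sum _ (fun i _ => FS.one (sg_sq i.2) (hw i)), ?_⟩
  have hKl := kk_cont' (D3 l).2 hF
  have hKc := kk_cont' k.2 hKl
  have hfc : ∀ i, ContinuousOn (fcc (sg i.2) (fun κ => ms2 φ i κ * mul2 k (D3 l) κ))
      (Ioo 0 Real.pi) := fun i => fc_cont (sg_sq i.2) (hw i).integrable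
  refine core M g hE.hS k l (T := fun θ => KK k.1 (KK (D3 l).1 F) θ -
    ∑ i ∈ IC N, fcc (sg i.2) (fun κ => ms2 φ i κ * mul2 k (D3 l) κ) θ)
    (hKc.sub (continuousOn_finsetSum _ (fun i _ => hfc i))) ?_
  intro u hu
  have hku : TA (KZ k.1 u) := hu.kz k.2
  have hD : TA (KZ (D3 l).1 (KZ k.1 u)) := hku.kz (D3 l).2
  rw [hE.hp _ (hku.kz l.2), la3_KZ l hku]
  have e1 : PR F (KZ (D3 l).1 (KZ k.1 u)) = PR (KK k.1 (KK (D3 l).1 F)) u := by
    rw [← PR_symm (D3 l).2 hF hku, ← PR_symm k.2 hKl hu]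
  have e2 : ∀ i ∈ IC N, (∫ κ : ℝ, ms2 φ i κ * ∫ t in Ioo 0 Real.pi, HJ (sg i.2) κ t *
      conj (KZ (D3 l).1 (KZ k.1 u) t) / ((Real.sin t ^ 2 : ℝ) : ℂ)) =
      PR (fcc (sg i.2) (fun κ => ms2 φ i κ * mul2 k (D3 l) κ)) u := by
    intro i _
    have hσ' : |sg i.2| ≤ 1 := fub_sig (sg_sq i.2)
    refine Eq.trans ?_ (fc_pair (sg_sq i.2) (hw i).integrable hu)
    refine integral_congr_ae (Eventually.of_forall (fun κ => ?_))
    have hHc : ContinuousOn (fun t : ℝ => HJ (sg i.2) κ t) (Ioo 0 Real.pi) := by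
      have h1 := fub_HJ hσ'
      exact h1.comp (f := fun t : ℝ => ((κ, t) : ℝ × ℝ))
        (continuous_const.prodMk continuous_id).continuousOn (fun t ht => ⟨mem_univ _, ht⟩)
    have hHc2 := kk_cont' (D3 l).2 hHc
    have g1 : PR (fun t : ℝ => HJ (sg i.2) κ t) (KZ (D3 l).1 (KZ k.1 u)) =
        mul2 k (D3 l) κ * PR (fun t : ℝ => HJ (sg i.2) κ t) u := by
      rw [← PR_symm (D3 l).2 hHc hku, ← PR_symm k.2 hHc2 hu]
      unfold PR
      rw [← integral_const_mul]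
      refine setIntegral_congr_fun measurableSet_Ioo (fun t ht => ?_)
      have g2 : KK k.1 (KK (D3 l).1 (fun t : ℝ => HJ (sg i.2) κ t)) t =
          mul2 k (D3 l) κ * HJ (sg i.2) κ t := by
        rw [kk_congr k.1 (fun x hx => kk_HJ (D3 l) (sg_sq i.2) κ hx) t, kk_smul,
          kk_HJ k (sg_sq i.2) κ ht]
        unfold mul2
        ring
      rw [g2]
      ring
    show ms2 φ i κ * PR (fun t : ℝ => HJ (sg i.2) κ t) (KZ (D3 l).1 (KZ k.1 u)) =
      (ms2 φ i κ * mul2 k (D3 l) κ) * PR (fun t : ℝ => HJ (sg i.2) κ t) u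
    rw [g1]
    ring
  rw [e1, Finset.sum_congr rfl e2]
  have e3 : PR (fun θ => KK k.1 (KK (D3 l).1 F) θ -
      ∑ i ∈ IC N, fcc (sg i.2) (fun κ => ms2 φ i κ * mul2 k (D3 l) κ) θ) u =
      PR (KK k.1 (KK (D3 l).1 F)) u - ∑ i ∈ IC N,
        PR (fcc (sg i.2) (fun κ => ms2 φ i κ * mul2 k (D3 l) κ)) u := by
    unfold PR
    rw [← integral_finsetSum _ (fun i hi => PR_int (hfc i) hu),
      ← integral_sub (PR_int hKc hu) (integrable_finsetSum _ (fun i hi => PR_int (hfc i) hu))]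
    congr 1
    funext t
    rw [sub_mul, Finset.sum_mul, sub_div, Finset.sum_div]
  rw [e3]
  ring

/-- the pairing in the case of good symbols -/
theorem EP.pair_h {φ : QN N → ℍ → ℂ} {F : ℝ → ℂ} {g : VF N} (hE : EP φ F g)
    (hF : ContinuousOn F (Ioo 0 Real.pi)) (hm : ∀ i ∈ IC N, WI (ms2 φ i)) :
    ∀ b, TA b → ipH g.1 (PO N (ag (LA3 b))) =
      2 * PR (fun θ => F θ - ∑ i ∈ IC N, fcc (sg i.2) (ms2 φ i) θ) (LA3 b) := by
  intro b hb
  rw [hE.hp b hb]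
  have h1 : ∀ i ∈ IC N, (∫ κ : ℝ, ms2 φ i κ *
          ∫ t in Ioo 0 Real.pi, HJ (sg i.2) κ t * conj (LA3 b t) /
            ((Real.sin t ^ 2 : ℝ) : ℂ)) = PR (fcc (sg i.2) (ms2 φ i)) (LA3 b) := by
    intro i hi
    exact fc_pair (sg_sq i.2) (hm i hi).integrable hb.la3
  rw [Finset.sum_congr rfl h1]
  have h2 : PR (fun θ => F θ - ∑ i ∈ IC N, fcc (sg i.2) (ms2 φ i) θ) (LA3 b) =
      PR F (LA3 b) - ∑ i ∈ IC N, PR (fcc (sg i.2) (ms2 φ i)) (LA3 b) := by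
    unfold PR
    have hc : ∀ i ∈ IC N, ContinuousOn (fcc (sg i.2) (ms2 φ i)) (Ioo 0 Real.pi) := fun i hi =>
      fc_cont (sg_sq i.2) (hm i hi).integrable
    rw [← integral_finsetSum _ (fun i hi => PR_int (hc i hi) hb.la3),
      ← integral_sub (PR_int hF hb.la3) (integrable_finsetSum _ (fun i hi =>
        PR_int (hc i hi) hb.la3))]
    congr 1
    funext t
    rw [sub_mul, Finset.sum_mul, sub_div, Finset.sum_div]
  rw [h2]
  ring

/-- **the conclusion**: if the components with large eigenvalue vanish, the function `h` is regular -/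
theorem ext_of_vanish (M : Model N V) (g : VF N) (hS : ∀ b, TA b → SqH (PO N (ag (LA3 b))))
    {h : ℝ → ℂ} (hh : ContinuousOn h (Ioo 0 Real.pi))
    (hp : ∀ b, TA b → ipH g.1 (PO N (ag (LA3 b))) = 2 * PR h (LA3 b)) {w : Option ℝ → V}
    (H : Comps M (M.J g) w) (Λ : ℝ)
    (hz : ∀ k l : TKs, ∀ m : ℝ, Λ < m → ∀ θ ∈ Ioo 0 Real.pi, cf M k (D3 l) (w (some m)) θ = 0) :
    Ext h := by
  have hcore := fun k l => core_h M g hS hh hp k l
  have hfin := H.finite Λ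
  refine ext_fin hh hfin.toFinset (fun k l => ⟨fun m' => cf M k (D3 l) (w (some m')),
    fun m' => cf' M k (D3 l) (w (some m')), fun m' _ t ht => ⟨cf_deriv M k (D3 l) _ ht,
    H.ode k (D3 l) m' ht⟩, fun θ hθ => ?_⟩)
  rw [← hcore k l θ hθ]
  have h1 := H.hasSum k (D3 l) θ
  have h2 : HasSum (fun l' : ℝ => cf M k (D3 l) (w (some l')) θ) (cf M k (D3 l) (M.J g) θ) := by
    refine (Function.Injective.hasSum_iff (f := fun l' : ℝ => cf M k (D3 l) (w (some l')) θ)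
      (g := fun i : IX w => i.1) (fun a b h => Subtype.ext h) (fun x hx => ?_)).1 h1
    by_cases hx0 : w (some x) = 0
    · simp [cf, hx0]
    · exact absurd ⟨⟨x, hx0⟩, rfl⟩ hx
  have h3 : HasSum (fun l' : ℝ => cf M k (D3 l) (w (some l')) θ)
      (∑ m' ∈ hfin.toFinset, cf M k (D3 l) (w (some m')) θ) := by
    refine hasSum_sum_of_ne_finset_zero (fun x hx => ?_)
    by_cases hx0 : w (some x) = 0
    · simp [cf, hx0]
    · refine hz k l x ?_ θ hθ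
      by_contra hcon
      push Not at hcon
      exact hx (hfin.mem_toFinset.2 ⟨hcon, hx0⟩)
  exact h2.unique h3

end Pool.Agent.JOS
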