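import Pool.Agent.Lib_helper58.JOS.MFam

/-! # JO, part S, Maass forms: continuous parts and the relation between the transforms -/

namespace Pool.Agent.JOS

open Complex MeasureTheory Filter Topology UpperHalfPlane ModularGroup Set Metric
open scoped MatrixGroups Modular ENNReal ComplexConjugate ContDiff
open Pool.Agent.JO (QN red FamH PV bot cH)
open Pool.Agent.Lib_helper37.JO (HJ)

/-! ## continuous parts -/

theorem WI.add {m m' : ℝ → ℂ} (h : WI m) (h' : WI m') : WI (fun κ => m κ + m' κ) := by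
  refine ⟨h.meas.add h'.meas, ?_⟩
  have h1 := h.int.add h'.int
  refine h1.mono' ?_ (Eventually.of_forall (fun κ => ?_))
  · refine (h.meas.add h'.meas).norm.mul (Continuous.aestronglyMeasurable ?_)
    exact (continuous_const.add continuous_abs).rpow_const (fun _ => Or.inr (by norm_num))
  · have hp : 0 ≤ (1 + |κ|) ^ (1 / 2 : ℝ) := Real.rpow_nonneg (by positivity) _
    rw [Real.norm_of_nonneg (mul_nonneg (norm_nonneg _) hp)]
    show _ ≤ ‖m κ‖ * (1 + |κ|) ^ (1 / 2 : ℝ) + ‖m' κ‖ * (1 + |κ|) ^ (1 / 2 : ℝ)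
    rw [← add_mul]
    exact mul_le_mul_of_nonneg_right (norm_add_le _ _) hp

theorem WI.smul {m : ℝ → ℂ} (h : WI m) (a : ℂ) : WI (fun κ => a * m κ) := by
  refine ⟨h.meas.const_mul a, ?_⟩
  refine (h.int.const_mul ‖a‖).congr (Eventually.of_forall (fun κ => ?_))
  simp only [norm_mul]
  ring

theorem WI.zero : WI (fun _ => 0) := by
  refine ⟨aestronglyMeasurable_const, ?_⟩
  simp

theorem hj_int {σ : ℝ} (hσ : σ ^ 2 = 1) {m : ℝ → ℂ} (hm : WI m) {θ : ℝ} (hθ : θ ∈ Ioo 0 Real.pi) :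
    Integrable (fun κ : ℝ => m κ * HJ σ κ θ) := by
  have hσ' : |σ| ≤ 1 := by
    rw [← sq_abs] at hσ
    nlinarith [abs_nonneg σ]
  refine (hm.integrable.norm.mul_const (Pool.Agent.Lib_helper37.JO.LG θ)).mono' ?_ ?_
  · exact hm.meas.mul (Pool.Agent.Lib_helper37.JO.HJ_continuous_kappa hσ'
      (Pool.Agent.Lib_helper37.JO.ofReal_strip hθ.1 hθ.2)).aestronglyMeasurable
  · refine Eventually.of_forall fun κ => ?_
    rw [norm_mul]
    exact mul_le_mul_of_nonneg_left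
      (Pool.Agent.Lib_helper37.JO.HJ_log hσ' κ hθ.1 hθ.2) (norm_nonneg _)

theorem fcc_add {σ : ℝ} (hσ : σ ^ 2 = 1) {m m' : ℝ → ℂ} (hm : WI m) (hm' : WI m') {θ : ℝ}
    (hθ : θ ∈ Ioo 0 Real.pi) : fcc σ (fun κ => m κ + m' κ) θ = fcc σ m θ + fcc σ m' θ := by
  unfold fcc
  rw [← integral_add (hj_int hσ hm hθ) (hj_int hσ hm' hθ)]
  congr 1
  funext κ
  ring

theorem fcc_smul (σ : ℝ) (m : ℝ → ℂ) (a : ℂ) (θ : ℝ) :
    fcc σ (fun κ => a * m κ) θ = a * fcc σ m θ := by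
  unfold fcc
  rw [← integral_const_mul]
  congr 1
  funext κ
  ring

theorem fcc_refl (σ : ℝ) (m : ℝ → ℂ) (θ : ℝ) : fcc σ m (Real.pi - θ) = fcc (-σ) m θ := by
  unfold fcc
  congr 1
  funext κ
  unfold HJ
  congr 2
  funext τ
  push_cast
  rw [Complex.sin_pi_sub, Complex.cos_pi_sub]
  congr 2
  ring

/-- continuous parts -/
def FS (E : ℝ → ℂ) : Prop := ∃ m m' : ℝ → ℂ, WI m ∧ WI m' ∧
  ∀ θ ∈ Ioo 0 Real.pi, E θ = fcc 1 m θ + fcc (-1) m' θ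

theorem one_sq' : (1 : ℝ) ^ 2 = 1 := by norm_num
theorem mone_sq : (-1 : ℝ) ^ 2 = 1 := by norm_num

theorem FS.congr {E E' : ℝ → ℂ} (h : FS E) (e : ∀ θ ∈ Ioo 0 Real.pi, E θ = E' θ) : FS E' := by
  obtain ⟨m, m', h1, h2, h3⟩ := h
  exact ⟨m, m', h1, h2, fun θ hθ => by rw [← e θ hθ, h3 θ hθ]⟩

theorem FS.add {E E' : ℝ → ℂ} (h : FS E) (h' : FS E') : FS (fun θ => E θ + E' θ) := by
  obtain ⟨m, m', h1, h2, h3⟩ := h
  obtain ⟨n, n', k1, k2, k3⟩ := h'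
  refine ⟨_, _, h1.add k1, h2.add k2, fun θ hθ => ?_⟩
  show E θ + E' θ = _
  rw [h3 θ hθ, k3 θ hθ, fcc_add one_sq' h1 k1 hθ, fcc_add mone_sq h2 k2 hθ]
  ring

theorem FS.smul {E : ℝ → ℂ} (h : FS E) (a : ℂ) : FS (fun θ => a * E θ) := by
  obtain ⟨m, m', h1, h2, h3⟩ := h
  refine ⟨_, _, h1.smul a, h2.smul a, fun θ hθ => ?_⟩
  show a * E θ = _
  rw [h3 θ hθ, fcc_smul, fcc_smul]
  ring

theorem FS.sub {E E' : ℝ → ℂ} (h : FS E) (h' : FS E') : FS (fun θ => E θ - E' θ) :=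
  (h.add (h'.smul (-1))).congr (fun θ _ => by ring)

theorem FS.conj {E : ℝ → ℂ} (h : FS E) : FS (fun θ => conj (E θ)) := by
  obtain ⟨m, m', h1, h2, h3⟩ := h
  refine ⟨_, _, h1.reflect, h2.reflect, fun θ hθ => ?_⟩
  show (starRingEnd ℂ) (E θ) = _
  rw [h3 θ hθ, map_add, fcc_conj one_sq' m hθ, fcc_conj mone_sq m' hθ]

theorem FS.refl {E : ℝ → ℂ} (h : FS E) : FS (fun θ => E (Real.pi - θ)) := by
  obtain ⟨m, m', h1, h2, h3⟩ := h
  refine ⟨m', m, h2, h1, fun θ hθ => ?_⟩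
  show E (Real.pi - θ) = _
  rw [h3 _ (pi_sub_mem hθ), fcc_refl, fcc_refl, neg_neg]
  ring

theorem sq_eq_one_iff_of_ne_zero' {σ : ℝ} (h : σ ^ 2 = 1) : σ = 1 ∨ σ = -1 := by
  have h1 : (σ - 1) * (σ + 1) = 0 := by linarith [h, show (σ - 1) * (σ + 1) = σ ^ 2 - 1 by ring]
  rcases mul_eq_zero.1 h1 with h2 | h2
  · left; linarith
  · right; linarith

theorem FS.one {σ : ℝ} (hσ : σ ^ 2 = 1) {m : ℝ → ℂ} (hm : WI m) : FS (fcc σ m) := by
  have h0 : ∀ (τ : ℝ) (θ : ℝ), fcc τ (fun _ => 0) θ = 0 := fun τ θ => by simp [fcc]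
  rcases sq_eq_one_iff_of_ne_zero' hσ with h | h
  · subst h
    exact ⟨m, fun _ => 0, hm, WI.zero, fun θ _ => by rw [h0, add_zero]⟩
  · subst h
    exact ⟨fun _ => 0, m, WI.zero, hm, fun θ _ => by rw [h0, zero_add]⟩

theorem FS.zero : FS (fun _ => 0) := by
  have h0 : ∀ (τ : ℝ) (θ : ℝ), fcc τ (fun _ => 0) θ = 0 := fun τ θ => by simp [fcc]
  exact ⟨fun _ => 0, fun _ => 0, WI.zero, WI.zero, fun θ _ => by rw [h0, h0, add_zero]⟩

theorem FS.sum {κ : Type} (I : Finset κ) {E : κ → ℝ → ℂ} (h : ∀ i ∈ I, FS (E i)) :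
    FS (fun θ => ∑ i ∈ I, E i θ) := by
  classical
  induction I using Finset.induction_on with
  | empty => simpa using FS.zero
  | insert i I hi ih =>
    have h1 := (h i (Finset.mem_insert_self i I)).add
      (ih (fun j hj => h j (Finset.mem_insert_of_mem hj)))
    exact h1.congr (fun θ _ => by rw [Finset.sum_insert hi])

theorem FS.cont {E : ℝ → ℂ} (h : FS E) : ContinuousOn E (Ioo 0 Real.pi) := by
  obtain ⟨m, m', h1, h2, h3⟩ := h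
  have h4 : ContinuousOn (fun θ => fcc 1 m θ + fcc (-1) m' θ) (Ioo 0 Real.pi) :=
    (fc_cont one_sq' h1.integrable).add (fc_cont mone_sq h2.integrable)
  exact h4.congr h3

theorem FS.good {E : ℝ → ℂ} (h : FS E) {A : ℝ} (hA : 0 ≤ A) {θ₀ : ℝ}
    (h0 : θ₀ ∈ Pool.Agent.SP.II) : Good A E θ₀ := by
  obtain ⟨m, m', h1, h2, h3⟩ := h
  have h4 := (good_fcc one_sq' h1 A h0).sub (good_fcc mone_sq (h2.smul (-1)) A h0) h0 hA
  refine h4.congr h0 (fun θ hθ => ?_)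
  rw [h3 θ (II_sub hθ), fcc_smul]
  ring

/-! ## the relation -/

/-- admissible right hand sides -/
def Adm (M : ℂ → ℂ) : Prop := DifferentiableOn ℂ M Pool.Agent.SP.QQ ∧
  ∀ κ : ℝ, 0 < κ → Tendsto (fun η : ℝ => (η : ℂ) * M (Pool.Agent.SP.pt κ η)) (𝓝[>] 0) (𝓝 0)

/-- the quadrant `Re s > 0`, `Im s > 0` -/
def Q0 : Set ℂ := {s : ℂ | 0 < s.re ∧ 0 < s.im}

theorem Q0_open : IsOpen Q0 :=
  (isOpen_lt continuous_const Complex.continuous_re).inter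
    (isOpen_lt continuous_const Complex.continuous_im)

theorem QQ_sub_Q0 : Pool.Agent.SP.QQ ⊆ Q0 := fun s hs =>
  ⟨by have := hs.1; linarith, hs.2⟩

theorem Adm.add {M M' : ℂ → ℂ} (h : Adm M) (h' : Adm M') : Adm (fun s => M s + M' s) := by
  refine ⟨h.1.add h'.1, fun κ hκ => ?_⟩
  have := (h.2 κ hκ).add (h'.2 κ hκ)
  rw [add_zero] at this
  exact this.congr (fun η => by ring)

theorem Adm.mul {M p : ℂ → ℂ} (h : Adm M) (hp : DifferentiableOn ℂ p Q0) :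
    Adm (fun s => p s * M s) := by
  refine ⟨(hp.mono QQ_sub_Q0).mul h.1, fun κ hκ => ?_⟩
  have hmem : Pool.Agent.SP.pt κ 0 ∈ Q0 := by
    refine ⟨?_, ?_⟩
    · rw [Pool.Agent.SP.pt_re]; norm_num
    · rw [Pool.Agent.SP.pt_im]; exact hκ
  have h1 : ContinuousAt p (Pool.Agent.SP.pt κ 0) :=
    (hp.differentiableAt (Q0_open.mem_nhds hmem)).continuousAt
  have h2 : Tendsto (fun η : ℝ => Pool.Agent.SP.pt κ η) (𝓝[>] 0) (𝓝 (Pool.Agent.SP.pt κ 0)) := by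
    have h3 : Continuous (fun η : ℝ => Pool.Agent.SP.pt κ η) := by
      unfold Pool.Agent.SP.pt
      fun_prop
    exact (h3.tendsto 0).mono_left nhdsWithin_le_nhds
  have h3 := (h1.tendsto.comp h2).mul (h.2 κ hκ)
  rw [mul_zero] at h3
  refine h3.congr (fun η => ?_)
  simp only [Function.comp]
  ring

theorem Adm.of_diff {p : ℂ → ℂ} (hp : DifferentiableOn ℂ p Q0) : Adm p := by
  refine ⟨hp.mono QQ_sub_Q0, fun κ hκ => ?_⟩
  have hmem : Pool.Agent.SP.pt κ 0 ∈ Q0 := by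
    refine ⟨?_, ?_⟩
    · rw [Pool.Agent.SP.pt_re]; norm_num
    · rw [Pool.Agent.SP.pt_im]; exact hκ
  have h1 : ContinuousAt p (Pool.Agent.SP.pt κ 0) :=
    (hp.differentiableAt (Q0_open.mem_nhds hmem)).continuousAt
  have h2 : Tendsto (fun η : ℝ => Pool.Agent.SP.pt κ η) (𝓝[>] 0) (𝓝 (Pool.Agent.SP.pt κ 0)) := by
    have h3 : Continuous (fun η : ℝ => Pool.Agent.SP.pt κ η) := by
      unfold Pool.Agent.SP.pt
      fun_prop
    exact (h3.tendsto 0).mono_left nhdsWithin_le_nhds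
  have h4 : Tendsto (fun η : ℝ => (η : ℂ)) (𝓝[>] 0) (𝓝 0) := by
    have := (Complex.continuous_ofReal.tendsto 0).mono_left (nhdsWithin_le_nhds (s := Ioi (0:ℝ)))
    simpa using this
  have h3 := h4.mul (h1.tendsto.comp h2)
  rw [zero_mul] at h3
  exact h3

/-- growth at most `1 / sin` -/
structure Gr (F : ℝ → ℂ) : Prop where
  c : ContinuousOn F (Ioo 0 Real.pi)
  b : ∃ C : ℝ, 0 ≤ C ∧ ∀ θ ∈ Ioo 0 Real.pi, ‖F θ‖ ≤ C / Real.sin θ

theorem Gr.refl {F : ℝ → ℂ} (h : Gr F) : Gr (fun θ => F (Real.pi - θ)) := by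
  refine ⟨h.c.comp pi_sub_cont (fun θ hθ => pi_sub_mem hθ), ?_⟩
  obtain ⟨C, hC, hb⟩ := h.b
  refine ⟨C, hC, fun θ hθ => ?_⟩
  have := hb _ (pi_sub_mem hθ)
  rwa [Real.sin_pi_sub] at this

theorem Gr.kk {F : ℝ → ℂ} (h : Gr F) (k : TKs) : Gr (KK k.1 F) := by
  refine ⟨kk_cont' k.2 h.c, ?_⟩
  obtain ⟨C, hC, hb⟩ := h.b
  obtain ⟨D, hD, hd⟩ := kk_bd k.2 1 (by norm_num)
  refine ⟨D * C, mul_nonneg hD hC, fun θ hθ => ?_⟩
  have h1 := hd F C h.c (fun t ht => by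
    rw [Real.rpow_neg_one, ← div_eq_mul_inv]; exact hb t ht) θ hθ
  rw [Real.rpow_neg_one, ← div_eq_mul_inv] at h1
  exact h1

theorem Gr.half {F : ℝ → ℂ} (h : Gr F) : ∃ C : ℝ, ∀ t ∈ Ioo 0 (Real.pi / 2), ‖F t‖ ≤ C * t ^ (-1 : ℝ) := by
  obtain ⟨C, hC, hb⟩ := h.b
  refine ⟨C * 2, fun t ht => ?_⟩
  have hII : t ∈ Pool.Agent.SP.II := ht
  have h1 := hb t (II_sub hII)
  have h2 := Pool.Agent.SP.sin_ge hII
  have h3 := Pool.Agent.SP.sin_pos' hII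
  refine h1.trans ?_
  rw [Real.rpow_neg_one, div_le_iff₀ h3]
  have h4 : C * 2 * t⁻¹ * (t / 2) = C := by
    have := ht.1.ne'
    field_simp
  calc C = C * 2 * t⁻¹ * (t / 2) := h4.symm
    _ ≤ C * 2 * t⁻¹ * Real.sin t := by
        have : 0 ≤ C * 2 * t⁻¹ := by have := ht.1; positivity
        exact mul_le_mul_of_nonneg_left h2 this

/-- the transform of a doubly smoothed function -/
theorem dtr2 {F : ℝ → ℂ} (hF : Gr F) (k l : TKs) {θ₀ : ℝ} (h0 : θ₀ ∈ Pool.Agent.SP.II) :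
    ∃ B : ℂ → ℂ, DifferentiableOn ℂ B {s | 0 < s.re} ∧ ∀ s : ℂ, 2 < s.re →
      Dt θ₀ (KK k.1 (KK l.1 F)) s = hk k.1 s * hk l.1 s * Dt θ₀ F s + B s := by
  obtain ⟨B1, hB1, h1⟩ := dtr l.2 hF.c hF.half h0
  obtain ⟨B2, hB2, h2⟩ := dtr k.2 (hF.kk l).c (hF.kk l).half h0
  refine ⟨fun s => hk k.1 s * B1 s + B2 s,
    ((hk_diff k.2).differentiableOn.mul hB1).add hB2, fun s hs => ?_⟩
  rw [h2 s (by linarith) (by linarith), h1 s (by linarith) (by linarith)]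
  ring

theorem Gr.int {F : ℝ → ℂ} (hF : Gr F) {θ₀ : ℝ} (h0 : θ₀ ∈ Pool.Agent.SP.II) {s : ℂ}
    (hs : 2 < s.re) : IntegrableOn (fun t => Pool.Agent.SP.ff s t * F t /
      ((Real.sin t ^ 2 : ℝ) : ℂ)) (Ioo 0 θ₀) := by
  obtain ⟨C, hC⟩ := hF.half
  exact (dt_diff (hF.c.mono (fun _ h => II_sub h)) h0 ⟨C, fun θ hθ =>
    hC θ ⟨hθ.1, hθ.2.trans h0.2⟩⟩).1 s (by linarith) (by linarith)

/-- the relation between two transforms is inherited by the smoothed functions without their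
continuous parts -/
theorem rel_gen {p q : ℂ → ℂ} (hp : DifferentiableOn ℂ p Q0) (hq : DifferentiableOn ℂ q Q0)
    {F₁ F₂ E₁ E₂ : ℝ → ℂ} (hF₁ : Gr F₁) (hF₂ : Gr F₂) (hE₁ : FS E₁) (hE₂ : FS E₂) {θ₀ R : ℝ}
    (h0 : θ₀ ∈ Pool.Agent.SP.II) {M : ℂ → ℂ} (hM : Adm M)
    (hrel : ∀ s : ℂ, s ∈ Pool.Agent.SP.QQ → R < s.re →
      p s * Dt θ₀ F₁ s - q s * Dt θ₀ F₂ s = M s) (k l : TKs) :
    ∃ (M' : ℂ → ℂ) (R' : ℝ), Adm M' ∧ ∀ s : ℂ, s ∈ Pool.Agent.SP.QQ → R' < s.re →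
      p s * Dt θ₀ (fun θ => KK k.1 (KK l.1 F₁) θ - E₁ θ) s -
        q s * Dt θ₀ (fun θ => KK k.1 (KK l.1 F₂) θ - E₂ θ) s = M' s := by
  obtain ⟨B1, hB1, h1⟩ := dtr2 hF₁ k l h0
  obtain ⟨B2, hB2, h2⟩ := dtr2 hF₂ k l h0
  have hsub : Q0 ⊆ {s : ℂ | 0 < s.re} := fun s hs => hs.1
  obtain ⟨J1, hJ1, j1, l1⟩ := (hE₁.good (A := 0) le_rfl h0).t.ex
  obtain ⟨J2, hJ2, j2, l2⟩ := (hE₂.good (A := 0) le_rfl h0).t.ex
  have hk1 : DifferentiableOn ℂ (fun s => hk k.1 s * hk l.1 s) Q0 :=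
    ((hk_diff k.2).mul (hk_diff l.2)).differentiableOn
  have a1 : Adm (fun s => (hk k.1 s * hk l.1 s) * M s) := hM.mul hk1
  have a2 : Adm (fun s => p s * B1 s) := Adm.of_diff (hp.mul (hB1.mono hsub))
  have a3 : Adm (fun s => (-q s) * B2 s) := Adm.of_diff (hq.neg.mul (hB2.mono hsub))
  have a4 : Adm (fun s => (-p s) * J1 s) := Adm.mul ⟨hJ1, l1⟩ hp.neg
  have a5 : Adm (fun s => q s * J2 s) := Adm.mul ⟨hJ2, l2⟩ hq
  refine ⟨_, max R 2, (((a1.add a2).add a3).add a4).add a5, fun s hs hR => ?_⟩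
  have hR1 : R < s.re := (le_max_left _ _).trans_lt hR
  have hR2 : 2 < s.re := (le_max_right _ _).trans_lt hR
  have e : ∀ {F E : ℝ → ℂ}, Gr F → FS E → Dt θ₀ (fun θ => KK k.1 (KK l.1 F) θ - E θ) s =
      Dt θ₀ (KK k.1 (KK l.1 F)) s - Dt θ₀ E s := by
    intro F E hF hE
    unfold Dt
    rw [← integral_sub (((hF.kk l).kk k).int h0 hR2) ((hE.good (A := 0) le_rfl h0).int h0 le_rfl s
      (by linarith))]
    congr 1
    funext t
    ring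
  have hs2 : 0 < s.im := hs.2
  rw [e hF₁ hE₁, e hF₂ hE₂, h1 s hR2, h2 s hR2, ← j1 s (by linarith) hs2,
    ← j2 s (by linarith) hs2, ← hrel s hs hR1]
  ring

end Pool.Agent.JOS
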