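import Pool.Agent.Lib_helper58.JOS.MVan
import Pool.Agent.Lib_helper58.JOS.MConc
import Pool.Agent.Lib_helper42.JO1.UNV
import Pool.Agent.Lib_helper45.JOM.FA
import Pool.Agent.Lib_helper45.JOM.FC
import Pool.Agent.Lib_helper45.JOM.FD
import Pool.Agent.Lib_helper45.JO.Defs3

/-! # JO, part S: the target statement for Maass forms of weight `0` -/

namespace Pool.Agent.JOS

open Complex MeasureTheory Filter Topology UpperHalfPlane ModularGroup Set Metric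
open scoped MatrixGroups Modular ENNReal ComplexConjugate ContDiff
open Pool.Agent.JO (QN red FamH PV bot cH ZfB Zf meanH melL2)
open Pool.Agent.Lib_helper37.JO (HJ)
open Pool.Agent.JO.FM (GoodNu)

variable {N : ℕ} [NeZero N]

theorem InvD.gr {v : ℍ → ℂ} (h : InvD N v) : Gr (Pool.Agent.JO.ray v) :=
  ⟨vF_ray_cont h, vF_ray_bd h⟩

theorem InvD.ep {v : ℍ → ℂ} (h : InvD N v) :
    ∃ g : VF N, EP (vF (N := N) v) (Pool.Agent.JO.ray v) g :=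
  exists_EP (vF_sq h) (vF_cont h) (fun _ hb => ip_v h hb.la3)

/-- **the target statement of part S for Maass forms of weight `0`** -/
theorem se_maass0 (hZ : ZfB (Zf N)) : Pool.Agent.JO.FM.SEMaass0 N (Zf N) := by
  intro χ ev f a ν ε hH hev hF0 hdec hrel
  have hu := Pool.Agent.JO.FM.wform_maass0 hH
  have hM := hH.toIsMaassForm
  have hev0 : 0 < ev := by
    rcases hH.weight with h1 | h1
    · exact h1.2
    · exact absurd h1.1 (by norm_num)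
  obtain ⟨c1, c2, c3⟩ := Pool.Agent.JO.FM.chi_maass0 hM hev0
  have hv1 : InvD N (Pool.Agent.JO.FM.phi f) := invD_phi hu
  have hv2 : InvD N (Pool.Agent.JO.FM.chi f) := ⟨c1, c2, c3⟩
  set F₁ : ℝ → ℂ := Pool.Agent.JO.ray (Pool.Agent.JO.FM.phi f) with hF₁
  set F₂ : ℝ → ℂ := Pool.Agent.JO.ray (Pool.Agent.JO.FM.chi f) with hF₂
  obtain ⟨g₁, e₁⟩ := hv1.ep
  obtain ⟨g₂, e₂⟩ := hv2.ep
  obtain ⟨V, i1, i2, i3, ⟨M⟩⟩ := exists_model (N := N)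
  obtain ⟨w₁, H₁⟩ := M.comps (M.J g₁)
  obtain ⟨w₂, H₂⟩ := M.comps (M.J g₂)
  set S : Set ℝ := {l | w₁ (some l) ≠ 0} ∪ {l | w₂ (some l) ≠ 0} with hS
  have hScount : Countable S := (H₁.countable_set.union H₂.countable_set).to_subtype
  obtain ⟨Λ₀, hΛ, hvan⟩ := van0 hF0.nu
  have hsym : ∀ θ ∈ Ioo 0 Real.pi, F₁ (Real.pi - θ) = F₁ θ ∧ F₂ (Real.pi - θ) = -F₂ θ ∧
      (F₁ θ).im = 0 ∧ (F₂ θ).im = 0 := fun θ hθ => Pool.Agent.JO.FM.ray_symm hF0 hθ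
  -- the components with large eigenvalue vanish
  have hz : ∀ k l : TKs, ∀ m : ℝ, Λ₀ < m → ∀ θ ∈ Ioo 0 Real.pi,
      cf M k (D3 l) (w₁ (some m)) θ = 0 := by
    intro k l m hm θ hθ
    by_cases hm0 : w₁ (some m) = 0
    · simp [cf, hm0]
    obtain ⟨C₁, s₁⟩ := H₁.sf2 S (fun l hl => Or.inl hl) k (D3 l)
    obtain ⟨C₂, s₂⟩ := H₂.sf2 S (fun l hl => Or.inr hl) k (D3 l)
    obtain ⟨E₁, hE₁, t₁⟩ := pairT hZ e₁ hv1.gr.c M k l
    obtain ⟨E₂, hE₂, t₂⟩ := pairT hZ e₂ hv2.gr.c M k l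
    have h0 : Real.pi / 4 ∈ Pool.Agent.SP.II :=
      ⟨by linarith [Real.pi_pos], by linarith [Real.pi_pos]⟩
    obtain ⟨A, R, hA1, hA2, hA3⟩ := hrel _ h0
    exact hvan S (fun i => i.1) _ _ _ _ _ _ _ _ Subtype.coe_injective
      (s₁.mono (le_max_left C₁ C₂)) (s₂.mono (le_max_right C₁ C₂)) F₁ F₂ E₁ E₂ hv1.gr hv2.gr
      hE₁ hE₂ hsym k (D3 l) t₁ t₂ A _ R h0 ⟨hA1, hA2⟩ (fun s hs hR => by
        rw [← DtFM_eq, ← DtFM_eq]
        exact hA3 s hs hR) ⟨m, Or.inl hm0⟩ hm θ hθ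
  -- the regular part
  have hwi : ∀ i ∈ IC N, WI (ms2 (vF (N := N) (Pool.Agent.JO.FM.phi f)) i) := wi_phi hZ hu hdec
  have hh : ContinuousOn (fun θ => F₁ θ -
      ∑ i ∈ IC N, fcc (sg i.2) (ms2 (vF (N := N) (Pool.Agent.JO.FM.phi f)) i) θ) (Ioo 0 Real.pi) :=
    hv1.gr.c.sub (continuousOn_finsetSum _ (fun i hi => fc_cont (sg_sq i.2) (hwi i hi).integrable))
  have hExt := ext_of_vanish M g₁ e₁.hS hh (e₁.pair_h hv1.gr.c hwi) H₁ Λ₀ hz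
  obtain ⟨R, h1, h2, h3⟩ := ext_concl hExt
  refine ⟨R, h1, fun θ hθ => ?_, h3⟩
  rw [h2 θ hθ]
  have h4 := concl_of_ext hu θ
  have h5 : Pool.Agent.JO.rayF f θ = F₁ θ := rfl
  have h6 : ∑ i ∈ IC N, fcc (sg i.2) (ms2 (vF (N := N) (Pool.Agent.JO.FM.phi f)) i) θ =
      Pool.Agent.JO.Fct (N := N) (Zf N) f θ := h4
  rw [h5, h6]
  ring

end Pool.Agent.JOS
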