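import Pool.Agent.Lib_helper58.JOS.MPair

/-! # JO, part S, Maass forms: symmetrisation -/

namespace Pool.Agent.JOS

open Complex MeasureTheory Filter Topology UpperHalfPlane ModularGroup Set Metric
open scoped MatrixGroups Modular ENNReal ComplexConjugate ContDiff
open Pool.Agent.JO (QN red FamH PV bot cH ZfB Zf meanH melL2)
open Pool.Agent.Lib_helper37.JO (HJ)

/-- the real even part -/
noncomputable def er (h : ℝ → ℂ) (θ : ℝ) : ℂ :=
  1 / 4 * (h θ + conj (h θ) + h (Real.pi - θ) + conj (h (Real.pi - θ)))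

/-- the real odd part -/
noncomputable def odr (h : ℝ → ℂ) (θ : ℝ) : ℂ :=
  1 / 4 * (h θ + conj (h θ) - h (Real.pi - θ) - conj (h (Real.pi - θ)))

/-- the real part -/
noncomputable def rp (h : ℝ → ℂ) (θ : ℝ) : ℂ := 1 / 2 * (h θ + conj (h θ))

variable {ι : Type} {lam : ι → ℝ} {c c' d d' : ι → ℝ → ℂ} {G H : ℝ → ℂ} {A C D : ℝ}

theorem SF2.rp (h : SF2 lam c c' G A C) :
    ∃ C' : ℝ, SF2 lam (fun i => JOS.rp (c i)) (fun i => JOS.rp (c' i)) (JOS.rp G) A C' :=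
  ⟨_, ((h.add h.conj).smul (1 / 2)).congr (fun _ _ => rfl) (fun _ _ => rfl) (fun _ => rfl)⟩

theorem SF2.er (h : SF2 lam c c' G A C) :
    ∃ C' : ℝ, SF2 lam (fun i => JOS.er (c i)) (fun i => JOS.odr (c' i)) (JOS.er G) A C' :=
  ⟨_, (((h.add h.conj).add (h.refl.add h.refl.conj)).smul (1 / 4)).congr
    (fun i θ => by unfold JOS.er; ring) (fun i θ => by unfold JOS.odr; rw [map_neg]; ring)
    (fun θ => by unfold JOS.er; ring)⟩

theorem SF2.odr (h : SF2 lam c c' G A C) :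
    ∃ C' : ℝ, SF2 lam (fun i => JOS.odr (c i)) (fun i => JOS.er (c' i)) (JOS.odr G) A C' :=
  ⟨_, (((h.add h.conj).sub (h.refl.add h.refl.conj)).smul (1 / 4)).congr
    (fun i θ => by unfold JOS.odr; ring) (fun i θ => by unfold JOS.er; rw [map_neg]; ring)
    (fun θ => by unfold JOS.odr; ring)⟩

theorem FS.rp {E : ℝ → ℂ} (h : FS E) : FS (JOS.rp E) :=
  ((h.add h.conj).smul (1 / 2)).congr (fun _ _ => rfl)

theorem FS.er {E : ℝ → ℂ} (h : FS E) : FS (JOS.er E) :=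
  (((h.add h.conj).add (h.refl.add h.refl.conj)).smul (1 / 4)).congr
    (fun θ _ => by unfold JOS.er; ring)

theorem FS.odr {E : ℝ → ℂ} (h : FS E) : FS (JOS.odr E) :=
  (((h.add h.conj).sub (h.refl.add h.refl.conj)).smul (1 / 4)).congr
    (fun θ _ => by unfold JOS.odr; ring)

theorem er_im (h : ℝ → ℂ) (θ : ℝ) : (er h θ).im = 0 := by
  have h1 : er h θ = ((1 / 2 * ((h θ).re + (h (Real.pi - θ)).re) : ℝ) : ℂ) := by
    unfold er
    have e1 := Complex.add_conj (h θ)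
    have e2 := Complex.add_conj (h (Real.pi - θ))
    push_cast at e1 e2 ⊢
    linear_combination (1 / 4) * e1 + (1 / 4) * e2
  rw [h1, Complex.ofReal_im]

theorem odr_im (h : ℝ → ℂ) (θ : ℝ) : (odr h θ).im = 0 := by
  have h1 : odr h θ = ((1 / 2 * ((h θ).re - (h (Real.pi - θ)).re) : ℝ) : ℂ) := by
    unfold odr
    have e1 := Complex.add_conj (h θ)
    have e2 := Complex.add_conj (h (Real.pi - θ))
    push_cast at e1 e2 ⊢
    linear_combination (1 / 4) * e1 - (1 / 4) * e2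
  rw [h1, Complex.ofReal_im]

theorem rp_im (h : ℝ → ℂ) (θ : ℝ) : (rp h θ).im = 0 := by
  have h1 : rp h θ = (((h θ).re : ℝ) : ℂ) := by
    unfold rp
    have e1 := Complex.add_conj (h θ)
    push_cast at e1 ⊢
    linear_combination (1 / 2) * e1
  rw [h1, Complex.ofReal_im]

theorem er_refl (h : ℝ → ℂ) (θ : ℝ) : er h (Real.pi - θ) = er h θ := by
  unfold er
  rw [sub_sub_cancel]
  ring

theorem odr_refl (h : ℝ → ℂ) (θ : ℝ) : odr h (Real.pi - θ) = -odr h θ := by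
  unfold odr
  rw [sub_sub_cancel]
  ring

/-! ## reflection and conjugation of the smoothing operators -/

theorem cc_refl (τ θ θ' : ℝ) : cc τ (Real.pi - θ) (Real.pi - θ') = cc τ θ θ' := by
  unfold cc
  rw [Real.cos_pi_sub, Real.cos_pi_sub, Real.sin_pi_sub, Real.sin_pi_sub]
  ring_nf

theorem kap_refl (k : ℝ → ℝ) (θ θ' : ℝ) : kap k (Real.pi - θ) (Real.pi - θ') = kap k θ θ' := by
  unfold kap
  simp_rw [cc_refl]

theorem int_refl (f : ℝ → ℂ) : ∫ t in Ioo 0 Real.pi, f (Real.pi - t) = ∫ t in Ioo 0 Real.pi, f t := by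
  rw [← integral_Ioc_eq_integral_Ioo, ← integral_Ioc_eq_integral_Ioo,
    ← intervalIntegral.integral_of_le Real.pi_pos.le, ← intervalIntegral.integral_of_le Real.pi_pos.le,
    intervalIntegral.integral_comp_sub_left]
  simp

theorem kk_refl (k : ℝ → ℝ) (F : ℝ → ℂ) (θ : ℝ) :
    KK k (fun t => F (Real.pi - t)) θ = KK k F (Real.pi - θ) := by
  unfold KK
  rw [← int_refl]
  congr 1
  funext t
  have h1 : kap k θ (Real.pi - t) = kap k (Real.pi - θ) t := by
    have := kap_refl k (Real.pi - θ) t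
    rw [sub_sub_cancel] at this
    exact this
  show ((kap k θ (Real.pi - t) / Real.sin (Real.pi - t) ^ 2 : ℝ) : ℂ) *
    F (Real.pi - (Real.pi - t)) = _
  rw [h1, Real.sin_pi_sub, sub_sub_cancel]

theorem kk_conj (k : ℝ → ℝ) (F : ℝ → ℂ) (θ : ℝ) :
    KK k (fun t => conj (F t)) θ = conj (KK k F θ) := by
  unfold KK
  rw [← integral_conj]
  congr 1
  funext t
  rw [map_mul, Complex.conj_ofReal]

/-- double smoothing of the reflection -/
theorem kk2_refl (k l : TKs) (F : ℝ → ℂ) (θ : ℝ) :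
    KK k.1 (KK l.1 (fun t => F (Real.pi - t))) θ = KK k.1 (KK l.1 F) (Real.pi - θ) := by
  rw [← kk_refl]
  congr 1
  funext t
  exact kk_refl l.1 F t

theorem kk2_conj (k l : TKs) (F : ℝ → ℂ) (θ : ℝ) :
    KK k.1 (KK l.1 (fun t => conj (F t))) θ = conj (KK k.1 (KK l.1 F) θ) := by
  rw [← kk_conj]
  congr 1
  funext t
  exact kk_conj l.1 F t

theorem kk2_congr (k l : TKs) {F F' : ℝ → ℂ} (h : ∀ t ∈ Ioo 0 Real.pi, F t = F' t) (θ : ℝ) :
    KK k.1 (KK l.1 F) θ = KK k.1 (KK l.1 F') θ :=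
  kk_congr k.1 (fun t _ => kk_congr l.1 h t) θ

theorem kk2_neg (k l : TKs) (F : ℝ → ℂ) (θ : ℝ) :
    KK k.1 (KK l.1 (fun t => -F t)) θ = -KK k.1 (KK l.1 F) θ := by
  have h1 : ∀ (k : ℝ → ℝ) (F : ℝ → ℂ) (θ : ℝ), KK k (fun t => -F t) θ = -KK k F θ := by
    intro k F θ
    have := kk_smul k F (-1) θ
    simpa using this
  rw [← h1]
  congr 1
  funext t
  exact h1 l.1 F t

/-- real functions -/
theorem kk2_real (k l : TKs) {F : ℝ → ℂ} (h : ∀ t ∈ Ioo 0 Real.pi, (F t).im = 0) (θ : ℝ) :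
    conj (KK k.1 (KK l.1 F) θ) = KK k.1 (KK l.1 F) θ := by
  rw [← kk2_conj]
  exact kk2_congr k l (fun t ht => Complex.conj_eq_iff_im.2 (h t ht)) θ

/-! ## families whose sum is a continuous part -/

/-- a family whose sum is a continuous part has no members with `λ > 1/4` -/
theorem SF2.van_fs [Countable ι] (h : SF2 lam c c' G A C) (hinj : Function.Injective lam)
    {E : ℝ → ℂ} (hE : FS E) (hG : ∀ θ ∈ Ioo 0 Real.pi, G θ = E θ) (j : ι) (hj : 1 / 4 < lam j) :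
    ∀ θ ∈ Ioo 0 Real.pi, c j θ = 0 := by
  refine h.zero_of_II j (fun θ₀ h0 => ?_)
  have h1 : Cont A G θ₀ := (hE.good h.A0 h0).t.congr
    (fun θ hθ => (hG θ (II_sub (Pool.Agent.SP.sub_II h0 hθ))).symm)
  have h2 : Cont A (fun θ => (starRingEnd ℂ) (G θ)) θ₀ := (hE.conj.good h.A0 h0).t.congr
    (fun θ hθ => by rw [hG θ (II_sub (Pool.Agent.SP.sub_II h0 hθ))])
  exact main_gen h.solFam hinj h0 h1 h2 j hj

end Pool.Agent.JOS
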