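import Pool.Agent.Lib_helper58.JOS.MSym
import Pool.Agent.Lib_helper45.JOM.PH4

/-! # JO, part S, Maass forms of weight `0`: vanishing of the components -/

namespace Pool.Agent.JOS

open Complex MeasureTheory Filter Topology UpperHalfPlane ModularGroup Set Metric
open scoped MatrixGroups Modular ENNReal ComplexConjugate ContDiff
open Pool.Agent.JO (QN red FamH PV bot cH ZfB Zf meanH melL2)
open Pool.Agent.Lib_helper37.JO (HJ)
open Pool.Agent.JO.FM (GoodNu)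

/-- the two transforms are the same -/
theorem DtFM_eq (θ₀ : ℝ) (G : ℝ → ℂ) (s : ℂ) : Pool.Agent.JO.FM.Dt G θ₀ s = Dt θ₀ G s := by
  unfold Pool.Agent.JO.FM.Dt
  rw [Dt_eq]

/-- holomorphy of the Mellin transform of `K_ν²` -/
theorem kap_diff {ν : ℂ} (hν : GoodNu ν) : DifferentiableOn ℂ (Pool.Agent.JO.FM.kap ν) Q0 := by
  intro s hs
  have h0 : 0 < s.re := hs.1
  have h1 : 0 < s.im := hs.2
  have hre : (s / 2).re = s.re / 2 := by simp
  have him : (s / 2).im = s.im / 2 := by simp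
  have key : ∀ μ : ℂ, (μ.im = 0 ∨ μ.re = 0) → ∀ m : ℕ, s / 2 + μ ≠ -m := by
    intro μ hμ m hm
    rcases hμ with h | h
    · have := congrArg Complex.im hm
      rw [Complex.add_im, h, him, Complex.neg_im, Complex.natCast_im] at this
      linarith
    · have := congrArg Complex.re hm
      rw [Complex.add_re, h, hre, Complex.neg_re, Complex.natCast_re] at this
      have hm0 : (0 : ℝ) ≤ m := Nat.cast_nonneg m
      linarith
  have d0 : DifferentiableAt ℂ (fun s : ℂ => Gamma (s / 2)) s := by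
    have h2 : ∀ m : ℕ, s / 2 ≠ -m := fun m => by
      have := key 0 (Or.inl rfl) m
      rwa [add_zero] at this
    exact (differentiableAt_Gamma _ h2).comp (f := fun s : ℂ => s / 2) s (by fun_prop)
  have d1 : DifferentiableAt ℂ (fun s : ℂ => Gamma (s / 2 + ν)) s :=
    (differentiableAt_Gamma _ (key ν hν.real_or)).comp (f := fun s : ℂ => s / 2 + ν) s (by fun_prop)
  have d2 : DifferentiableAt ℂ (fun s : ℂ => Gamma (s / 2 - ν)) s := by
    have h2 : ∀ m : ℕ, s / 2 - ν ≠ -m := fun m => by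
      have := key (-ν) (by
        rw [Complex.neg_im, Complex.neg_re, neg_eq_zero, neg_eq_zero]
        exact hν.real_or) m
      rwa [← sub_eq_add_neg] at this
    exact (differentiableAt_Gamma _ h2).comp (f := fun s : ℂ => s / 2 - ν) s (by fun_prop)
  have d3 : DifferentiableAt ℂ (fun s : ℂ => Gamma s) s := by
    refine differentiableAt_Gamma _ (fun m hm => ?_)
    have := congrArg Complex.im hm
    rw [Complex.neg_im, Complex.natCast_im] at this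
    linarith
  have d4 : DifferentiableAt ℂ (fun s : ℂ => (2 : ℂ) ^ (s - 3)) s := by
    refine DifferentiableAt.const_cpow (by fun_prop) (Or.inl two_ne_zero)
  have h5 : Gamma s ≠ 0 := Gamma_ne_zero_of_re_pos h0
  have h6 : DifferentiableAt ℂ (Pool.Agent.JO.FM.kap ν) s := by
    unfold Pool.Agent.JO.FM.kap
    exact (((d4.mul (d0.pow 2)).mul d1).mul d2).div d3 h5
  exact h6.differentiableWithinAt

theorem kap_diff1 {ν : ℂ} (hν : GoodNu ν) :
    DifferentiableOn ℂ (fun s => s * Pool.Agent.JO.FM.kap ν (s + 1)) Q0 := by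
  refine differentiableOn_id.mul ((kap_diff hν).comp (f := fun s : ℂ => s + 1) (by fun_prop) ?_)
  intro s hs
  refine ⟨?_, ?_⟩
  · have := hs.1
    rw [Complex.add_re, Complex.one_re]
    linarith
  · have := hs.2
    rw [Complex.add_im, Complex.one_im, add_zero]
    exact this

/-- **the vanishing of the components**, weight `0` -/
theorem van0 {ν : ℂ} (hν : GoodNu ν) : ∃ Λ₀ : ℝ, 1 / 4 ≤ Λ₀ ∧
    ∀ (ι : Type) [Countable ι] (lam : ι → ℝ) (c c' d d' : ι → ℝ → ℂ) (G₁ G₂ : ℝ → ℂ) (A C : ℝ),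
    Function.Injective lam → SF2 lam c c' G₁ A C → SF2 lam d d' G₂ A C →
    ∀ (F₁ F₂ E₁ E₂ : ℝ → ℂ), Gr F₁ → Gr F₂ → FS E₁ → FS E₂ →
    (∀ θ ∈ Ioo 0 Real.pi, F₁ (Real.pi - θ) = F₁ θ ∧ F₂ (Real.pi - θ) = -F₂ θ ∧
      (F₁ θ).im = 0 ∧ (F₂ θ).im = 0) →
    ∀ k l : TKs, (∀ θ ∈ Ioo 0 Real.pi, G₁ θ = KK k.1 (KK l.1 F₁) θ - E₁ θ) →
    (∀ θ ∈ Ioo 0 Real.pi, G₂ θ = KK k.1 (KK l.1 F₂) θ - E₂ θ) →
    ∀ (M : ℂ → ℂ) (θ₀ R : ℝ), θ₀ ∈ Pool.Agent.SP.II → Adm M →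
    (∀ s : ℂ, s ∈ Pool.Agent.SP.QQ → R < s.re →
      s * Pool.Agent.JO.FM.kap ν (s + 1) * Dt θ₀ F₁ s -
        Pool.Agent.JO.FM.kap ν s * Dt θ₀ F₂ s = M s) →
    ∀ i, Λ₀ < lam i → ∀ θ ∈ Ioo 0 Real.pi, c i θ = 0 := by
  obtain ⟨Λ₀, hΛ, hph⟩ := Pool.Agent.JO.FM.phase_step hν
  refine ⟨Λ₀, hΛ, ?_⟩
  intro ι _ lam c c' d d' G₁ G₂ A C hinj h₁ h₂ F₁ F₂ E₁ E₂ hF₁ hF₂ hE₁ hE₂ hsym k l hG₁ hG₂ M θ₀ R
    h0 hM hrel i hi
  obtain ⟨C₁, hc⟩ := h₁.er
  obtain ⟨C₂, hd⟩ := h₂.odr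
  -- the symmetrised sums
  have hK₁ : ∀ θ ∈ Ioo 0 Real.pi, KK k.1 (KK l.1 F₁) (Real.pi - θ) = KK k.1 (KK l.1 F₁) θ := by
    intro θ _
    rw [← kk2_refl]
    exact kk2_congr k l (fun t ht => (hsym t ht).1) θ
  have hK₂ : ∀ θ ∈ Ioo 0 Real.pi, KK k.1 (KK l.1 F₂) (Real.pi - θ) = -KK k.1 (KK l.1 F₂) θ := by
    intro θ _
    rw [← kk2_refl, ← kk2_neg]
    exact kk2_congr k l (fun t ht => (hsym t ht).2.1) θ
  have hR₁ := fun θ => kk2_real k l (fun t ht => (hsym t ht).2.2.1) (F := F₁) θ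
  have hR₂ := fun θ => kk2_real k l (fun t ht => (hsym t ht).2.2.2) (F := F₂) θ
  have e₁ : ∀ θ ∈ Ioo 0 Real.pi, er G₁ θ = KK k.1 (KK l.1 F₁) θ - er E₁ θ := by
    intro θ hθ
    unfold er
    rw [hG₁ θ hθ, hG₁ _ (pi_sub_mem hθ), hK₁ θ hθ, map_sub, map_sub, hR₁ θ]
    ring
  have e₂ : ∀ θ ∈ Ioo 0 Real.pi, odr G₂ θ = KK k.1 (KK l.1 F₂) θ - odr E₂ θ := by
    intro θ hθ
    unfold odr
    rw [hG₂ θ hθ, hG₂ _ (pi_sub_mem hθ), hK₂ θ hθ, map_sub, map_sub, map_neg, hR₂ θ]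
    ring
  -- the relation
  obtain ⟨M', R', hM', hrel'⟩ := rel_gen (kap_diff1 hν) (kap_diff hν) hF₁ hF₂ hE₁.er hE₂.odr h0 hM
    hrel k l
  have hDt : ∀ (G G' : ℝ → ℂ), (∀ θ ∈ Ioo 0 Real.pi, G θ = G' θ) → ∀ s,
      Dt θ₀ G s = Dt θ₀ G' s := by
    intro G G' h s
    unfold Dt
    refine setIntegral_congr_fun measurableSet_Ioo (fun t ht => ?_)
    rw [h t (II_sub (Pool.Agent.SP.sub_II h0 ht))]
  have hmid : Real.pi / 2 ∈ Ioo 0 Real.pi := ⟨by linarith [Real.pi_pos], by linarith [Real.pi_pos]⟩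
  -- the common constants
  set CC : ℝ := max C₁ C₂ with hCC
  have hc' := hc.mono (le_max_left C₁ C₂)
  have hd' := hd.mono (le_max_right C₁ C₂)
  have key := hph ι lam (fun i => er (c i)) (fun i => odr (c' i)) (fun i => odr (d i))
    (fun i => er (d' i)) (er G₁) (odr G₂) A (CC * 2 ^ A) M' θ₀ R' hinj hc'.solFam hd'.solFam
    hc'.refl.solFam hd'.refl.solFam
    (fun i => ⟨hc.cont1 i hmid, hc.cont2 i hmid, hd.cont1 i hmid, hd.cont2 i hmid⟩)
    (fun θ _ => ⟨er_refl _ _, odr_refl _ _, er_im _ _, odr_im _ _⟩) h0 hM'.1 hM'.2 (by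
      intro s hs hsR
      rw [DtFM_eq, DtFM_eq, hDt _ _ e₁, hDt _ _ e₂]
      exact hrel' s hs hsR) i hi
  -- the rest
  have hrest := h₁.sub hc
  have hz := hrest.van_fs hinj (E := fun θ => (-1) * (E₁ θ - er E₁ θ)) ((hE₁.sub hE₁.er).smul (-1))
    (fun θ hθ => by
      show G₁ θ - er G₁ θ = _
      rw [hG₁ θ hθ, e₁ θ hθ]
      ring) i (by linarith)
  refine h₁.zero_of_II i (fun θ hθ => ?_)
  have z1 := hz θ (II_sub hθ)
  have z2 := (key θ hθ).1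
  have z3 : c i θ - er (c i) θ = 0 := z1
  have z4 : er (c i) θ = 0 := z2
  rw [z4, sub_zero] at z3
  exact z3

end Pool.Agent.JOS
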