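import Mathlib

/-! # JO, part S: simultaneous diagonalisation of a commuting system of compact operators -/

namespace Pool.Agent.JOS

open Filter Topology Module.End

variable {V : Type*} [NormedAddCommGroup V] [InnerProductSpace ℂ V] [CompleteSpace V] {κ : Type*}

/-- a system of commuting compact self adjoint operators with the relation `R (D k) R l = R k R (D l)` -/
structure Sys (R : κ → V →L[ℂ] V) (D : κ → κ) : Prop where
  symm : ∀ k u v, inner ℂ (R k u) v = inner ℂ u (R k v)
  comm : ∀ k l v, R k (R l v) = R l (R k v)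
  drel : ∀ k l v, R (D k) (R l v) = R k (R (D l) v)
  cpt : ∀ k, IsCompactOperator (R k)

variable {R : κ → V →L[ℂ] V} {D : κ → κ}

/-- the common kernel -/
def V0 (R : κ → V →L[ℂ] V) : Submodule ℂ V := ⨅ k, LinearMap.ker (R k).toLinearMap

/-- the joint eigenspaces -/
noncomputable def EL (R : κ → V →L[ℂ] V) (D : κ → κ) (l : ℝ) : Submodule ℂ V :=
  (V0 R)ᗮ ⊓ ⨅ k, LinearMap.ker ((R (D k)).toLinearMap - (l : ℂ) • (R k).toLinearMap)

theorem mem_V0 {v : V} : v ∈ V0 R ↔ ∀ k, R k v = 0 := by
  simp [V0, Submodule.mem_iInf]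

theorem mem_EL {l : ℝ} {v : V} : v ∈ EL R D l ↔ (∀ u, (∀ k, R k u = 0) → inner ℂ u v = 0) ∧
    ∀ k, R (D k) v = (l : ℂ) • R k v := by
  simp only [EL, Submodule.mem_inf, Submodule.mem_iInf, LinearMap.mem_ker, LinearMap.sub_apply,
    LinearMap.smul_apply, sub_eq_zero, Submodule.mem_orthogonal, mem_V0]
  rfl

theorem closed_V0 : IsClosed (V0 R : Set V) := by
  have : (V0 R : Set V) = ⋂ k, {v | R k v = 0} := by
    ext v
    simp [mem_V0]
  rw [this]
  exact isClosed_iInter (fun k => isClosed_eq (R k).continuous continuous_const)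

theorem closed_EL (l : ℝ) : IsClosed (EL R D l : Set V) := by
  have : (EL R D l : Set V) = ((V0 R)ᗮ : Set V) ∩ ⋂ k, {v | R (D k) v = (l : ℂ) • R k v} := by
    ext v
    simp only [SetLike.mem_coe, Set.mem_inter_iff, Set.mem_iInter, Set.mem_ofPred_eq]
    rw [mem_EL, Submodule.mem_orthogonal]
    simp only [mem_V0]
  rw [this]
  refine (Submodule.isClosed_orthogonal _).inter (isClosed_iInter (fun k => ?_))
  exact isClosed_eq (R (D k)).continuous ((R k).continuous.const_smul _)

theorem Sys.map_V0 (S : Sys R D) {v : V} (hv : v ∈ V0 R) (k : κ) : R k v ∈ V0 R := by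
  rw [mem_V0] at hv ⊢
  intro l
  rw [hv k, map_zero]

theorem Sys.map_EL (S : Sys R D) {l : ℝ} {v : V} (hv : v ∈ EL R D l) (k : κ) : R k v ∈ EL R D l := by
  rw [mem_EL] at hv ⊢
  refine ⟨fun u hu => ?_, fun j => ?_⟩
  · rw [← S.symm, hu k, inner_zero_left]
  · rw [S.comm, hv.2 j, map_smul, S.comm]

theorem Sys.EL_orth (S : Sys R D) {l m : ℝ} (h : l ≠ m) {v w : V} (hv : v ∈ EL R D l)
    (hw : w ∈ EL R D m) : inner ℂ v w = 0 := by
  have hcl : IsClosed (EL R D l : Set V) := closed_EL l
  have hc : CompleteSpace (EL R D l) := hcl.completeSpace_coe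
  have h1 : ∀ v ∈ EL R D l, ∀ k, inner ℂ (R k v) w = 0 := by
    intro v hv k
    rw [mem_EL] at hv hw
    have e1 : inner ℂ (R (D k) v) w = (l : ℂ) * inner ℂ (R k v) w := by
      rw [hv.2 k, inner_smul_left, Complex.conj_ofReal]
    have e2 : inner ℂ (R (D k) v) w = (m : ℂ) * inner ℂ (R k v) w := by
      rw [S.symm, hw.2 k, inner_smul_right, ← S.symm]
    have e3 : ((l : ℂ) - m) * inner ℂ (R k v) w = 0 := by
      rw [sub_mul, ← e1, e2, sub_self]
    rcases mul_eq_zero.1 e3 with h2 | h2
    · exfalso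
      apply h
      have : ((l - m : ℝ) : ℂ) = 0 := by push_cast; exact h2
      have := Complex.ofReal_eq_zero.1 this
      linarith
    · exact h2
  set x : V := (EL R D l).starProjection w with hx
  have hxm : x ∈ EL R D l := (EL R D l).starProjection_apply_mem w
  have hxo : ∀ u ∈ EL R D l, inner ℂ u (w - x) = 0 := by
    intro u hu
    rw [← inner_conj_symm, (EL R D l).starProjection_inner_eq_zero w u hu, map_zero]
  have hx0 : ∀ k, R k x = 0 := by
    intro k
    have h2 : inner ℂ (R k (R k x)) x = 0 := by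
      have h3 := hxo _ (S.map_EL (S.map_EL hxm k) k)
      rw [inner_sub_right, h1 _ (S.map_EL hxm k) k, zero_sub, neg_eq_zero] at h3
      exact h3
    rw [S.symm, inner_self_eq_zero] at h2
    exact h2
  have hxz : x = 0 := by
    have h3 := ((mem_EL.1 hxm).1 x hx0)
    exact inner_self_eq_zero.1 h3
  have h4 := hxo v hv
  rwa [hxz, sub_zero] at h4

/-- the family of subspaces -/
noncomputable def FF (R : κ → V →L[ℂ] V) (D : κ → κ) : Option ℝ → Submodule ℂ V
  | none => V0 R
  | some l => EL R D l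

theorem closed_FF (i : Option ℝ) : IsClosed (FF R D i : Set V) := by
  cases i with
  | none => exact closed_V0
  | some l => exact closed_EL l

theorem Sys.FF_orth (S : Sys R D) {i j : Option ℝ} (h : i ≠ j) {v w : V} (hv : v ∈ FF R D i)
    (hw : w ∈ FF R D j) : inner ℂ v w = 0 := by
  cases i with
  | none =>
    cases j with
    | none => exact absurd rfl h
    | some m => exact (mem_EL.1 hw).1 v (mem_V0.1 hv)
  | some l =>
    cases j with
    | none => rw [← inner_conj_symm, (mem_EL.1 hv).1 w (mem_V0.1 hw), map_zero]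
    | some m => exact S.EL_orth (fun h2 => h (by rw [h2])) hv hw

theorem Sys.map_FF (S : Sys R D) {i : Option ℝ} {v : V} (hv : v ∈ FF R D i) (k : κ) :
    R k v ∈ FF R D i := by
  cases i with
  | none => exact S.map_V0 hv k
  | some l => exact S.map_EL hv k

theorem Sys.dense (S : Sys R D) : (⨆ i, FF R D i)ᗮ = ⊥ := by
  set W : Submodule ℂ V := (⨆ i, FF R D i)ᗮ with hW
  have hWmem : ∀ {x : V}, x ∈ W ↔ ∀ i, ∀ v ∈ FF R D i, inner ℂ v x = 0 := by
    intro x
    rw [hW, Submodule.mem_orthogonal]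
    constructor
    · intro h i v hv
      exact h v (Submodule.mem_iSup_of_mem i hv)
    · intro h u hu
      refine Submodule.iSup_induction (motive := fun u => inner ℂ u x = 0) _ hu (fun i v hv => h i v hv)
        (inner_zero_left _) (fun a b ha hb => ?_)
      rw [inner_add_left, ha, hb, add_zero]
  have hWk : ∀ k, ∀ x ∈ W, R k x ∈ W := by
    intro k x hx
    rw [hWmem] at hx ⊢
    intro i v hv
    rw [← S.symm]
    exact hx i _ (S.map_FF hv k)
  have hWc : CompleteSpace W := (Submodule.isClosed_orthogonal _).completeSpace_coe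
  by_contra hne
  obtain ⟨x, hxW, hx0⟩ := (Submodule.ne_bot_iff _).1 hne
  have hxk : ∃ k, R k x ≠ 0 := by
    by_contra hcon
    push Not at hcon
    have h1 := (hWmem.1 hxW) none x (mem_V0.2 hcon)
    exact hx0 (inner_self_eq_zero.1 h1)
  obtain ⟨k, hk⟩ := hxk
  -- the restriction of `R k` to `W`
  let T : W →L[ℂ] W := (R k).restrict (hWk k)
  have hTc : IsCompactOperator T := (S.cpt k).restrict' (hWk k)
  have hTs : T.IsSymmetric := by
    intro a b
    exact S.symm k a b
  have hT0 : T ≠ 0 := by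
    intro h
    apply hk
    have h2 : T ⟨x, hxW⟩ = 0 := by rw [h]; rfl
    exact congrArg (fun a : W => (a : V)) h2
  have hμ : ∃ μ : ℂ, HasEigenvalue (T : Module.End ℂ W) μ ∧ μ ≠ 0 := by
    by_contra hcon
    push Not at hcon
    exact hT0 ((ContinuousLinearMap.eq_zero_of_forall_hasEigenvalue_eq_zero hTc hTs).1 hcon)
  obtain ⟨μ, hμ1, hμ0⟩ := hμ
  have hfd : FiniteDimensional ℂ (eigenspace (T : Module.End ℂ W) μ) :=
    ContinuousLinearMap.finite_dimensional_eigenspace hTc μ hμ0
  have hμr : (starRingEnd ℂ) μ = μ := LinearMap.IsSymmetric.conj_eigenvalue_eq_self hTs hμ1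
  -- `R (D k)` on the eigenspace
  let B : W →ₗ[ℂ] W := ((R (D k)).restrict (hWk (D k)) : W →L[ℂ] W)
  have hBE : ∀ v ∈ eigenspace (T : Module.End ℂ W) μ, B v ∈ eigenspace (T : Module.End ℂ W) μ := by
    intro v hv
    rw [mem_eigenspace_iff] at hv ⊢
    have h1 : (R k (v : V)) = μ • (v : V) := congrArg (fun a : W => (a : V)) hv
    apply Subtype.ext
    show R k (R (D k) (v : V)) = μ • R (D k) (v : V)
    rw [S.comm, h1, map_smul]
  let B' : eigenspace (T : Module.End ℂ W) μ →ₗ[ℂ] eigenspace (T : Module.End ℂ W) μ :=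
    B.restrict hBE
  have hnt : Nontrivial (eigenspace (T : Module.End ℂ W) μ) := by
    rw [Submodule.nontrivial_iff_ne_bot]
    exact hμ1
  obtain ⟨ν, hν⟩ := Module.End.exists_eigenvalue B'
  obtain ⟨⟨⟨v, hvW⟩, hvE⟩, hv1, hv2⟩ := hν.exists_hasEigenvector
  rw [mem_eigenspace_iff] at hv1 hvE
  have hv0 : v ≠ 0 := by
    intro h
    apply hv2
    apply Subtype.ext
    apply Subtype.ext
    exact h
  have e1 : R k v = μ • v := congrArg (fun a : W => (a : V)) hvE
  have e2 : R (D k) v = ν • v := congrArg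
    (fun a : eigenspace (T : Module.End ℂ W) μ => ((a : W) : V)) hv1
  have hvv : inner ℂ v v ≠ (0 : ℂ) := fun h => hv0 (inner_self_eq_zero.1 h)
  have hνr : (starRingEnd ℂ) ν = ν := by
    have h1 := S.symm (D k) v v
    rw [e2, inner_smul_left, inner_smul_right] at h1
    exact mul_right_cancel₀ hvv h1
  obtain ⟨m, hm⟩ := Complex.conj_eq_iff_real.1 hμr
  obtain ⟨n, hn⟩ := Complex.conj_eq_iff_real.1 hνr
  have hvE2 : v ∈ EL R D (n / m) := by
    rw [mem_EL]
    have hvk : v = μ⁻¹ • R k v := by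
      rw [e1, smul_smul, inv_mul_cancel₀ hμ0, one_smul]
    refine ⟨fun u hu => ?_, fun j => ?_⟩
    · rw [hvk, inner_smul_right, ← S.symm, hu k, inner_zero_left, mul_zero]
    · have h1 : R (D j) v = μ⁻¹ • (ν • R j v) := by
        conv_lhs => rw [hvk, map_smul, S.drel, e2, map_smul]
      rw [h1, smul_smul]
      congr 1
      rw [hm, hn]
      push_cast
      rw [div_eq_mul_inv, mul_comm]
  have h5 := (hWmem.1 hvW) (some (n / m)) v hvE2
  exact hvv h5

/-- simultaneous spectral decomposition -/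
theorem Sys.spectral (S : Sys R D) (G : V) : ∃ w : Option ℝ → V,
    (∀ i, w i ∈ FF R D i) ∧ HasSum w G := by
  have hc : ∀ i, CompleteSpace (FF R D i) := fun i => (closed_FF i).completeSpace_coe
  have ho : OrthogonalFamily ℂ (fun i => FF R D i) (fun i => (FF R D i).subtypeₗᵢ) := by
    intro i j hij v w
    exact S.FF_orth hij v.2 w.2
  have hd : ⊤ ≤ (⨆ i, FF R D i).topologicalClosure := by
    rw [top_le_iff, Submodule.topologicalClosure_eq_top_iff]
    exact S.dense
  have hs := IsHilbertSum.mkInternal (FF R D) ho hd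
  set w := hs.linearIsometryEquiv G with hw
  refine ⟨fun i => (w i : V), fun i => (w i).2, ?_⟩
  have h1 := hs.hasSum_linearIsometryEquiv_symm w
  rw [hw, LinearIsometryEquiv.symm_apply_apply] at h1
  exact h1

end Pool.Agent.JOS
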