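import Pool.Agent.Lib_helper58.JOS.WantedS
import Pool.Agent.Lib_helper58.JOS.Hs
import Pool.Agent.Lib_helper58.JOS.Spec
import Pool.Agent.Lib_helper58.JOS.Hil

/-! # JO, part S: the Hilbert space of cuspidal families and the operators on it -/

namespace Pool.Agent.JOS

open Complex MeasureTheory Filter Topology UpperHalfPlane ModularGroup Set Metric
open scoped MatrixGroups Modular ENNReal ComplexConjugate ContDiff
open Pool.Agent.JO (QN red FamH)

variable {N : ℕ} [NeZero N]

/-! ## algebra of families -/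

theorem SqH.aes {f : QN N → ℍ → ℂ} (hf : SqH f) (s : QN N) :
    AEStronglyMeasurable (f s) (volume.restrict (𝒟ᵒ : Set ℍ)) := (hf.meas s).aestronglyMeasurable

theorem SqH.memLp {f : QN N → ℍ → ℂ} (hf : SqH f) (s : QN N) :
    MemLp (f s) 2 (volume.restrict (𝒟ᵒ : Set ℍ)) :=
  (memLp_two_iff_integrable_sq_norm (hf.aes s)).2 (hf.sq s)

theorem sqH_zero : SqH (0 : QN N → ℍ → ℂ) :=
  ⟨fun _ _ _ => rfl, fun _ => measurable_const, fun s => by
    have : (fun z : ℍ => ‖(0 : QN N → ℍ → ℂ) s z‖ ^ 2) = fun _ => (0 : ℝ) := by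
      funext z; simp
    rw [this]; exact integrableOn_zero⟩

theorem SqH.add {f g : QN N → ℍ → ℂ} (hf : SqH f) (hg : SqH g) : SqH (f + g) := by
  refine ⟨fun γ s z => ?_, fun s => (hf.meas s).add (hg.meas s), fun s => ?_⟩
  · show f _ _ + g _ _ = f s z + g s z
    rw [hf.fam, hg.fam]
  · have h1 := ((hf.memLp s).add (hg.memLp s)).integrable_norm_pow (p := 2) (by norm_num)
    exact h1

theorem SqH.smul {f : QN N → ℍ → ℂ} (hf : SqH f) (c : ℂ) : SqH (c • f) := by
  refine ⟨fun γ s z => ?_, fun s => (hf.meas s).const_mul c, fun s => ?_⟩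
  · show c * f _ _ = c * f s z
    rw [hf.fam]
  · have h1 := ((hf.memLp s).const_mul c).integrable_norm_pow (p := 2) (by norm_num)
    exact h1

/-- square integrable cuspidal families -/
def VF (N : ℕ) [NeZero N] : Submodule ℂ (QN N → ℍ → ℂ) where
  carrier := {f | SqH f ∧ CuspH f}
  add_mem' := by
    rintro f g ⟨hf, cf⟩ ⟨hg, cg⟩
    refine ⟨hf.add hg, fun s u hu => ?_⟩
    have h1 : ∀ w : ℍ, u w.im * (f + g) s w = u w.im * f s w + u w.im * g s w := by
      intro w
      show u w.im * (f s w + g s w) = _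
      ring
    simp_rw [h1]
    rw [integral_add (strip_int hf hu s) (strip_int hg hu s), cf s u hu, cg s u hu, add_zero]
  zero_mem' := by
    refine ⟨sqH_zero, fun s u _ => ?_⟩
    simp
  smul_mem' := by
    rintro c f ⟨hf, cf⟩
    refine ⟨hf.smul c, fun s u hu => ?_⟩
    have h1 : ∀ w : ℍ, u w.im * (c • f) s w = c * (u w.im * f s w) := by
      intro w
      show u w.im * (c * f s w) = _
      ring
    simp_rw [h1]
    rw [integral_const_mul, cf s u hu, mul_zero]

theorem ip_int {f g : QN N → ℍ → ℂ} (hf : SqH f) (hg : SqH g) (s : QN N) :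
    IntegrableOn (fun z => f s z * conj (g s z)) (𝒟ᵒ : Set ℍ) := by
  have h1 : MemLp (fun z => conj (g s z)) 2 (volume.restrict (𝒟ᵒ : Set ℍ)) := (hg.memLp s).star
  exact (hf.memLp s).integrable_mul h1

theorem ip_self {f : QN N → ℍ → ℂ} (hf : SqH f) : ipH f f = ((nH f ^ 2 : ℝ) : ℂ) := by
  unfold nH ipH
  rw [Real.sq_sqrt (Finset.sum_nonneg (fun s _ => integral_nonneg (fun z => by positivity)))]
  push_cast
  refine Finset.sum_congr rfl (fun s _ => ?_)
  rw [← integral_complex_ofReal]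
  congr 1
  funext z
  rw [Complex.mul_conj, Complex.normSq_eq_norm_sq]

theorem ip_conj (f g : QN N → ℍ → ℂ) : conj (ipH f g) = ipH g f := by
  unfold ipH
  rw [map_sum]
  refine Finset.sum_congr rfl (fun s _ => ?_)
  rw [← integral_conj]
  congr 1
  funext z
  rw [map_mul, Complex.conj_conj, mul_comm]

theorem ip_add {f f' g : QN N → ℍ → ℂ} (hf : SqH f) (hf' : SqH f') (hg : SqH g) :
    ipH g (f + f') = ipH g f + ipH g f' := by
  unfold ipH
  rw [← Finset.sum_add_distrib]
  refine Finset.sum_congr rfl (fun s _ => ?_)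
  rw [← integral_add (ip_int hg hf s) (ip_int hg hf' s)]
  congr 1
  funext z
  show g s z * conj (f s z + f' s z) = _
  rw [map_add]
  ring

theorem ip_smul (f g : QN N → ℍ → ℂ) (c : ℂ) : ipH g (c • f) = conj c * ipH g f := by
  unfold ipH
  rw [Finset.mul_sum]
  refine Finset.sum_congr rfl (fun s _ => ?_)
  rw [← integral_const_mul]
  congr 1
  funext z
  show g s z * conj (c * f s z) = _
  rw [map_mul]
  ring

/-! ## linearity of the operators -/

theorem rf_add {k : ℝ → ℝ} (hk : TK k) {f g : QN N → ℍ → ℂ} (hf : SqH f) (hg : SqH g) :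
    RF k (f + g) = RF k f + RF k g := by
  funext s z
  show ∫ w, (kz k z w : ℂ) * (f s w + g s w) = (∫ w, (kz k z w : ℂ) * f s w) +
    ∫ w, (kz k z w : ℂ) * g s w
  rw [← integral_add (rr_int hk hf s z) (rr_int hk hg s z)]
  congr 1
  funext w
  ring

theorem rf_smul (k : ℝ → ℝ) (f : QN N → ℍ → ℂ) (c : ℂ) : RF k (c • f) = c • RF k f := by
  funext s z
  show ∫ w, (kz k z w : ℂ) * (c * f s w) = c * ∫ w, (kz k z w : ℂ) * f s w
  rw [← integral_const_mul]
  congr 1
  funext w
  ring

/-- test kernels as a type -/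
abbrev TKs : Type := {k : ℝ → ℝ // TK k}

theorem DD_TK {k : ℝ → ℝ} (hk : TK k) : TK (DD k) := by
  obtain ⟨R, hR⟩ := hk.supp
  have h1 : ContDiff ℝ ∞ (deriv k) := (contDiff_infty_iff_deriv.1 hk.smooth).2
  have h2 : ContDiff ℝ ∞ (deriv (deriv k)) := (contDiff_infty_iff_deriv.1 h1).2
  refine ⟨?_, R + 1, fun c hc => ?_⟩
  · unfold DD
    fun_prop
  · have e1 : ∀ x, R < x → deriv k x = 0 := by
      intro x hx
      have : k =ᶠ[𝓝 x] fun _ => (0 : ℝ) := by
        filter_upwards [lt_mem_nhds hx] with y hy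
        exact hR y hy.le
      rw [this.deriv_eq]
      simp
    have e2 : deriv (deriv k) c = 0 := by
      have : deriv k =ᶠ[𝓝 c] fun _ => (0 : ℝ) := by
        filter_upwards [lt_mem_nhds (show R < c by linarith)] with y hy
        exact e1 y hy
      rw [this.deriv_eq]
      simp
    unfold DD
    rw [e1 c (by linarith), e2]
    ring

/-- the radial Laplacian on test kernels -/
noncomputable def Dk (k : TKs) : TKs := ⟨DD k.1, DD_TK k.2⟩

/-- `R_k` on cuspidal families -/
noncomputable def RV (k : TKs) : VF N →ₗ[ℂ] VF N where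
  toFun f := ⟨RF k.1 f.1, rr_sq k.2 f.2.1, cus k.2 f.2.1 f.2.2⟩
  map_add' f g := Subtype.ext (rf_add k.2 f.2.1 g.2.1)
  map_smul' c f := Subtype.ext (rf_smul k.1 f.1 c)

variable (N) in
/-- a Hilbert space completing the cuspidal families -/
structure Model (V : Type) [NormedAddCommGroup V] [InnerProductSpace ℂ V] [CompleteSpace V] where
  /-- the embedding -/
  J : VF N →ₗ[ℂ] V
  dense : DenseRange J
  inn : ∀ f g : VF N, inner ℂ (J f) (J g) = ipH g.1 f.1

theorem exists_model : ∃ (V : Type) (_ : NormedAddCommGroup V) (_ : InnerProductSpace ℂ V)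
    (_ : CompleteSpace V), Nonempty (Model N V) := by
  obtain ⟨V, i1, i2, i3, J, h1, h2⟩ := exists_hilbert (W := VF N) (fun f g => ipH g.1 f.1)
    (fun x y => ip_conj _ _) (fun x => by
      show 0 ≤ (ipH x.1 x.1).re
      rw [ip_self x.2.1, Complex.ofReal_re]
      positivity) (fun x y z => ip_add x.2.1 y.2.1 z.2.1) (fun x y r => ip_smul _ _ _)
  exact ⟨V, i1, i2, i3, ⟨⟨J, h1, h2⟩⟩⟩

end Pool.Agent.JOS
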