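import Pool.Agent.Lib_helper58.JOS.Mod

/-! # JO, part S: the operators on the Hilbert space of cuspidal families -/

namespace Pool.Agent.JOS

open Complex MeasureTheory Filter Topology UpperHalfPlane ModularGroup Set Metric
open scoped MatrixGroups Modular ENNReal ComplexConjugate ContDiff
open Pool.Agent.JO (QN red FamH)

variable {N : ℕ} [NeZero N]
variable {V : Type} [NormedAddCommGroup V] [InnerProductSpace ℂ V] [CompleteSpace V]

theorem nH_nonneg (f : QN N → ℍ → ℂ) : 0 ≤ nH f := Real.sqrt_nonneg _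

theorem Model.norm_J (M : Model N V) (f : VF N) : ‖M.J f‖ = nH f.1 := by
  have h1 : (inner ℂ (M.J f) (M.J f) : ℂ) = ((nH f.1 ^ 2 : ℝ) : ℂ) := by
    rw [M.inn, ip_self f.2.1]
  rw [inner_self_eq_norm_sq_to_K] at h1
  have h2 : ‖M.J f‖ ^ 2 = nH f.1 ^ 2 := by
    apply Complex.ofReal_injective
    rw [← h1]
    push_cast
    rfl
  exact (pow_left_inj₀ (norm_nonneg _) (nH_nonneg _) two_ne_zero).1 h2

/-- the constant in the bound of `R_k` -/
noncomputable def mka (k : TKs) : ℝ := ms (fun c => |k.1 c|)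

theorem Model.norm_RV (M : Model N V) (k : TKs) (f : VF N) : ‖M.J (RV k f)‖ ≤ mka k * ‖M.J f‖ := by
  rw [M.norm_J, M.norm_J]
  exact rr_norm k.2 f.2.1

/-- `R_k` on the Hilbert space -/
noncomputable def Model.op (M : Model N V) (k : TKs) : V →L[ℂ] V :=
  (M.J ∘ₗ RV k).extendOfNorm M.J

theorem Model.op_J (M : Model N V) (k : TKs) (f : VF N) : M.op k (M.J f) = M.J (RV k f) :=
  LinearMap.extendOfNorm_eq M.dense ⟨mka k, M.norm_RV k⟩ f

theorem Model.op_norm (M : Model N V) (k : TKs) (v : V) : ‖M.op k v‖ ≤ mka k * ‖v‖ :=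
  LinearMap.norm_extendOfNorm_apply_le M.dense (mka k) (M.norm_RV k) v

theorem Model.op_symm (M : Model N V) (k : TKs) (u v : V) :
    inner ℂ (M.op k u) v = inner ℂ u (M.op k v) := by
  refine M.dense.induction_on (p := fun u => inner ℂ (M.op k u) v = inner ℂ u (M.op k v)) u
    (isClosed_eq (by fun_prop) (by fun_prop)) (fun f => ?_)
  refine M.dense.induction_on (p := fun v => inner ℂ (M.op k (M.J f)) v = inner ℂ (M.J f) (M.op k v)) v
    (isClosed_eq (by fun_prop) (by fun_prop)) (fun g => ?_)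
  rw [M.op_J, M.op_J, M.inn, M.inn]
  exact (sym k.2 g.2.1 f.2.1).symm

theorem rv_comp (k l : TKs) (f : VF N) (s : QN N) (z : ℍ) :
    (RV k (RV l f)).1 s z = ∫ w : ℍ, ((∫ u : ℍ, kz k.1 z u * kz l.1 u w : ℝ) : ℂ) * f.1 s w :=
  rr_comp k.2 l.2 f.2.1 s z

theorem Model.ext_op (M : Model N V) {A B : V →L[ℂ] V} (h : ∀ f : VF N, A (M.J f) = B (M.J f)) :
    A = B := by
  ext v
  exact M.dense.induction_on (p := fun v => A v = B v) v (isClosed_eq (by fun_prop) (by fun_prop)) h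

theorem rv_comm (k l : TKs) (f : VF N) : RV k (RV l f) = RV l (RV k f) := by
  apply Subtype.ext
  funext s z
  rw [rv_comp, rv_comp]
  congr 1
  funext w
  rw [com_kz k.2 l.2]

theorem rv_drel (k l : TKs) (f : VF N) : RV (Dk k) (RV l f) = RV k (RV (Dk l) f) := by
  apply Subtype.ext
  funext s z
  rw [rv_comp, rv_comp]
  congr 1
  funext w
  rw [show (∫ u : ℍ, kz (Dk k).1 z u * kz l.1 u w) = ∫ u : ℍ, kz k.1 z u * kz (Dk l).1 u w from
    grn_kz k.2 l.2 z w]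

theorem Model.op_comm (M : Model N V) (k l : TKs) (v : V) : M.op k (M.op l v) = M.op l (M.op k v) := by
  have h := M.ext_op (A := (M.op k).comp (M.op l)) (B := (M.op l).comp (M.op k)) (fun f => by
    simp only [ContinuousLinearMap.comp_apply, M.op_J, rv_comm])
  exact congrArg (fun A : V →L[ℂ] V => A v) h

theorem Model.op_drel (M : Model N V) (k l : TKs) (v : V) :
    M.op (Dk k) (M.op l v) = M.op k (M.op (Dk l) v) := by
  have h := M.ext_op (A := (M.op (Dk k)).comp (M.op l)) (B := (M.op k).comp (M.op (Dk l))) (fun f => by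
    simp only [ContinuousLinearMap.comp_apply, M.op_J, rv_drel])
  exact congrArg (fun A : V →L[ℂ] V => A v) h

/-! ## evaluation functionals -/

/-- evaluation of `R_k f` -/
noncomputable def evL (k : TKs) (s : QN N) (z : ℍ) : VF N →ₗ[ℂ] ℂ where
  toFun f := (RV k f).1 s z
  map_add' f g := by rw [map_add]; rfl
  map_smul' c f := by rw [map_smul]; rfl

theorem exists_ev (k : TKs) : ∃ C : ℝ, 0 ≤ C ∧ ∀ (s : QN N) (z : ℍ) (f : VF N),
    ‖evL k s z f‖ ≤ C * nH f.1 := by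
  obtain ⟨C, hC, h⟩ := cb2 k.2 N
  refine ⟨C, hC, fun s z f => ?_⟩
  have h1 := h f.1 f.2.1 f.2.2 s z
  have h2 : 1 ≤ √(1 + z.im) := by
    rw [Real.one_le_sqrt]
    linarith [z.im_pos]
  refine le_trans ?_ h1
  exact le_mul_of_one_le_right (norm_nonneg _) h2

/-- Bessel for a functional -/
theorem bessel_fun (E : V →L[ℂ] ℂ) {C : ℝ} (hC : ∀ v, ‖E v‖ ≤ C * ‖v‖) (hC0 : 0 ≤ C) {n : ℕ}
    (e : Fin n → V) (he : Orthonormal ℂ e) : ∑ i, ‖E (e i)‖ ^ 2 ≤ C ^ 2 := by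
  set y : V := (InnerProductSpace.toDual ℂ V).symm E with hy
  have h1 : ∀ v, inner ℂ y v = E v := fun v => InnerProductSpace.toDual_symm_apply
  have h2 : ‖y‖ ≤ C := by
    rw [hy, LinearIsometryEquiv.norm_map]
    exact E.opNorm_le_bound hC0 hC
  have h3 := he.sum_inner_products_le (x := y) (s := Finset.univ)
  calc ∑ i, ‖E (e i)‖ ^ 2 = ∑ i, ‖(inner ℂ (e i) y : ℂ)‖ ^ 2 := by
        refine Finset.sum_congr rfl (fun i _ => ?_)
        rw [← inner_conj_symm, RCLike.norm_conj, h1]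
    _ ≤ ‖y‖ ^ 2 := h3
    _ ≤ C ^ 2 := by gcongr

/-- Hilbert-Schmidt bound -/
theorem Model.hs (M : Model N V) (k : TKs) : ∃ B : ℝ, ∀ (n : ℕ) (e : Fin n → V), Orthonormal ℂ e →
    ∑ i, ‖M.op k (e i)‖ ^ 2 ≤ B := by
  obtain ⟨C, hC, hE⟩ := exists_ev (N := N) k
  set vol : ℝ := (volume (𝒟ᵒ : Set ℍ)).toReal with hvol
  set A : ℝ := Fintype.card (QN N) * (4 * C ^ 2 * vol) with hA
  have hvol0 : 0 ≤ vol := ENNReal.toReal_nonneg
  refine ⟨2 * A + 2 * (mka k) ^ 2, fun n e he => ?_⟩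
  -- approximation
  have hn : (0 : ℝ) < (n : ℝ) + 1 := by positivity
  set δ : ℝ := 1 / √((n : ℝ) + 1) with hδ
  have hδ0 : 0 < δ := by positivity
  have hδ2 : (n : ℝ) * δ ^ 2 ≤ 1 := by
    rw [hδ, div_pow, Real.sq_sqrt hn.le]
    rw [one_pow, mul_one_div, div_le_one hn]
    linarith
  have hap : ∀ i, ∃ f : VF N, ‖e i - M.J f‖ < δ := by
    intro i
    obtain ⟨f, hf⟩ := Metric.denseRange_iff.1 M.dense (e i) δ hδ0
    exact ⟨f, by rwa [dist_eq_norm] at hf⟩
  choose f hf using hap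
  -- the evaluation functionals
  let E : QN N → ℍ → (V →L[ℂ] ℂ) := fun s z => (evL k s z).extendOfNorm M.J
  have hEb : ∀ s z, ∀ v : VF N, ‖evL k s z v‖ ≤ C * ‖M.J v‖ := by
    intro s z v
    rw [M.norm_J]
    exact hE s z v
  have hEJ : ∀ s z (v : VF N), E s z (M.J v) = evL k s z v := fun s z v =>
    LinearMap.extendOfNorm_eq M.dense ⟨C, hEb s z⟩ v
  have hEn : ∀ s z v, ‖E s z v‖ ≤ C * ‖v‖ := fun s z v =>
    LinearMap.norm_extendOfNorm_apply_le M.dense C (hEb s z) v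
  have hpt : ∀ s z, ∑ i, ‖evL k s z (f i)‖ ^ 2 ≤ 4 * C ^ 2 := by
    intro s z
    have h1 : ∀ i, ‖evL k s z (f i)‖ ^ 2 ≤ 2 * ‖E s z (e i)‖ ^ 2 + 2 * (C * δ) ^ 2 := by
      intro i
      rw [← hEJ]
      have h2 : E s z (M.J (f i)) = E s z (e i) - E s z (e i - M.J (f i)) := by
        rw [map_sub]; ring
      have h3 : ‖E s z (e i - M.J (f i))‖ ≤ C * δ :=
        (hEn s z _).trans (mul_le_mul_of_nonneg_left (hf i).le hC)
      rw [h2]
      have h4 := norm_sub_le (E s z (e i)) (E s z (e i - M.J (f i)))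
      have h5 : ‖E s z (e i) - E s z (e i - M.J (f i))‖ ≤ ‖E s z (e i)‖ + C * δ := by linarith
      have h6 := norm_nonneg (E s z (e i) - E s z (e i - M.J (f i)))
      nlinarith [sq_nonneg (‖E s z (e i)‖ - C * δ), norm_nonneg (E s z (e i)), mul_nonneg hC hδ0.le]
    calc ∑ i, ‖evL k s z (f i)‖ ^ 2 ≤ ∑ i, (2 * ‖E s z (e i)‖ ^ 2 + 2 * (C * δ) ^ 2) :=
          Finset.sum_le_sum (fun i _ => h1 i)
      _ = 2 * ∑ i, ‖E s z (e i)‖ ^ 2 + n * (2 * (C * δ) ^ 2) := by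
          rw [Finset.sum_add_distrib, ← Finset.mul_sum, Finset.sum_const, Finset.card_univ,
            Fintype.card_fin, nsmul_eq_mul]
      _ ≤ 2 * C ^ 2 + 2 * C ^ 2 * 1 := by
          have h7 := bessel_fun (E s z) (hEn s z) hC e he
          have h8 : (n : ℝ) * (2 * (C * δ) ^ 2) = 2 * C ^ 2 * (n * δ ^ 2) := by ring
          rw [h8]
          have h9 : 2 * C ^ 2 * (n * δ ^ 2) ≤ 2 * C ^ 2 * 1 :=
            mul_le_mul_of_nonneg_left hδ2 (by positivity)
          linarith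
      _ = 4 * C ^ 2 := by ring
  have hsum : ∑ i, ‖M.op k (M.J (f i))‖ ^ 2 ≤ A := by
    have h1 : ∀ i, ‖M.op k (M.J (f i))‖ ^ 2 =
        ∑ s : QN N, ∫ z in (𝒟ᵒ : Set ℍ), ‖evL k s z (f i)‖ ^ 2 := by
      intro i
      rw [M.op_J, M.norm_J, nH, Real.sq_sqrt
        (Finset.sum_nonneg (fun s _ => integral_nonneg (fun z => by positivity)))]
      rfl
    have h2 : ∀ i s, IntegrableOn (fun z => ‖evL k s z (f i)‖ ^ 2) (𝒟ᵒ : Set ℍ) :=
      fun i s => (RV k (f i)).2.1.sq s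
    simp_rw [h1]
    rw [Finset.sum_comm]
    have h3 : ∀ s : QN N, ∑ i, ∫ z in (𝒟ᵒ : Set ℍ), ‖evL k s z (f i)‖ ^ 2 ≤ 4 * C ^ 2 * vol := by
      intro s
      rw [← integral_finsetSum _ (fun i _ => h2 i s)]
      calc ∫ z in (𝒟ᵒ : Set ℍ), ∑ i, ‖evL k s z (f i)‖ ^ 2
          ≤ ∫ z in (𝒟ᵒ : Set ℍ), 4 * C ^ 2 := by
            refine integral_mono (integrable_finsetSum _ (fun i _ => h2 i s)) ?_ (fun z => hpt s z)
            exact integrableOn_const vol_fdo.ne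
        _ = 4 * C ^ 2 * vol := by
            rw [setIntegral_const, smul_eq_mul, mul_comm]
            rfl
    calc ∑ s : QN N, ∑ i, ∫ z in (𝒟ᵒ : Set ℍ), ‖evL k s z (f i)‖ ^ 2
        ≤ ∑ s : QN N, 4 * C ^ 2 * vol := Finset.sum_le_sum (fun s _ => h3 s)
      _ = A := by
          rw [Finset.sum_const, Finset.card_univ, nsmul_eq_mul, hA]
  have h1 : ∀ i, ‖M.op k (e i)‖ ^ 2 ≤ 2 * ‖M.op k (M.J (f i))‖ ^ 2 + 2 * (mka k) ^ 2 * δ ^ 2 := by
    intro i
    have h2 : M.op k (e i) = M.op k (M.J (f i)) + M.op k (e i - M.J (f i)) := by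
      rw [map_sub]; abel
    have hmk : 0 ≤ mka k * δ := by
      have h3 := M.op_norm k (e i - M.J (f i))
      by_contra hcon
      push Not at hcon
      have hmk' : mka k < 0 := by
        by_contra h4
        push Not at h4
        exact absurd (mul_nonneg h4 hδ0.le) (not_le.2 hcon)
      have h5 := norm_nonneg (M.op k (e i))
      have h6 := M.op_norm k (e i)
      rw [he.1 i, mul_one] at h6
      linarith
    have h3 : ‖M.op k (e i - M.J (f i))‖ ≤ |mka k| * δ := by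
      refine (M.op_norm k _).trans ?_
      calc mka k * ‖e i - M.J (f i)‖ ≤ |mka k| * ‖e i - M.J (f i)‖ :=
            mul_le_mul_of_nonneg_right (le_abs_self _) (norm_nonneg _)
        _ ≤ |mka k| * δ := mul_le_mul_of_nonneg_left (hf i).le (abs_nonneg _)
    rw [h2]
    have h4 := norm_add_le (M.op k (M.J (f i))) (M.op k (e i - M.J (f i)))
    have h5 : ‖M.op k (M.J (f i)) + M.op k (e i - M.J (f i))‖ ≤
        ‖M.op k (M.J (f i))‖ + |mka k| * δ := by linarith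
    have h6 := norm_nonneg (M.op k (M.J (f i)) + M.op k (e i - M.J (f i)))
    have h7 : (|mka k| * δ) ^ 2 = mka k ^ 2 * δ ^ 2 := by rw [mul_pow, sq_abs]
    nlinarith [sq_nonneg (‖M.op k (M.J (f i))‖ - |mka k| * δ), norm_nonneg (M.op k (M.J (f i))),
      mul_nonneg (abs_nonneg (mka k)) hδ0.le]
  calc ∑ i, ‖M.op k (e i)‖ ^ 2
      ≤ ∑ i, (2 * ‖M.op k (M.J (f i))‖ ^ 2 + 2 * (mka k) ^ 2 * δ ^ 2) :=
        Finset.sum_le_sum (fun i _ => h1 i)
    _ = 2 * ∑ i, ‖M.op k (M.J (f i))‖ ^ 2 + 2 * (mka k) ^ 2 * (n * δ ^ 2) := by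
        rw [Finset.sum_add_distrib, ← Finset.mul_sum, Finset.sum_const, Finset.card_univ,
          Fintype.card_fin, nsmul_eq_mul]
        ring
    _ ≤ 2 * A + 2 * (mka k) ^ 2 * 1 := by
        have h8 : 2 * (mka k) ^ 2 * (n * δ ^ 2) ≤ 2 * (mka k) ^ 2 * 1 :=
          mul_le_mul_of_nonneg_left hδ2 (by positivity)
        linarith
    _ = 2 * A + 2 * (mka k) ^ 2 := by ring

theorem Model.sys (M : Model N V) : Sys M.op Dk where
  symm := M.op_symm
  comm := M.op_comm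
  drel := M.op_drel
  cpt k := by
    obtain ⟨B, hB⟩ := M.hs k
    exact hs_compact _ B hB

end Pool.Agent.JOS
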