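import Pool.Agent.Lib_helper58.JOS.Kz

/-! # JO, part S: the pairing identity -/

namespace Pool.Agent.JOS

open Complex MeasureTheory Filter Topology UpperHalfPlane ModularGroup Set Metric
open scoped MatrixGroups Modular ENNReal ComplexConjugate ContDiff
open Pool.Agent.JO (QN red FamH)

variable {N : ℕ} [NeZero N]
variable {V : Type} [NormedAddCommGroup V] [InnerProductSpace ℂ V] [CompleteSpace V]

/-- functions of the argument on the upper half plane -/
noncomputable def ag (u : ℝ → ℂ) (w : ℍ) : ℂ := u (Complex.arg (w : ℂ))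

/-- the function on `ℝ × (0, π)` -/
theorem unf_polar_int (k : TKs) (f : VF N) {v : ℝ → ℂ} (hv : TA v) :
    IntegrableOn (fun p : ℝ × ℝ => ((1 / Real.sin p.2 ^ 2 : ℝ) : ℂ) *
      ((RV k f).1 1 (pt p.1 p.2) * conj (ag v (pt p.1 p.2)))) ((univ : Set ℝ) ×ˢ Ioo 0 Real.pi) := by
  obtain ⟨a, c, ha, hc, hs⟩ := hv.supp
  obtain ⟨C, c', hc', hb⟩ := rv_loc k f 1 a c ha hc
  have hsub : Icc a c ⊆ Ioo 0 Real.pi := fun t ht =>
    ⟨lt_of_lt_of_le ha ht.1, lt_of_le_of_lt ht.2 hc⟩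
  obtain ⟨B, hB⟩ := (isCompact_Icc (a := a) (b := c)).exists_bound_of_continuousOn
    (f := fun t => ((1 / Real.sin t ^ 2 : ℝ) : ℂ) * conj (v t)) (by
      refine ContinuousOn.mul ?_ (Complex.continuous_conj.comp hv.cont).continuousOn
      refine Complex.continuous_ofReal.comp_continuousOn ?_
      refine continuousOn_const.div (Real.continuous_sin.pow 2).continuousOn (fun t ht => ?_)
      have := sin_pos_pi (hsub ht)
      positivity)
  have hmaj : Integrable (fun p : ℝ × ℝ => Real.exp (-(c' * |p.1|)) * (|B| * |C|))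
      ((volume : Measure ℝ).prod (volume.restrict (Ioo 0 Real.pi))) := by
    refine Integrable.mul_prod (f := fun τ : ℝ => Real.exp (-(c' * |τ|))) (g := fun _ : ℝ => |B| * |C|) ?_ ?_
    · have h1 := Pool.Agent.SP.f2_int (σ := c') hc'
      exact h1
    · exact integrable_const _
  have hrest : (volume : Measure (ℝ × ℝ)).restrict ((univ : Set ℝ) ×ˢ Ioo 0 Real.pi) =
      (volume : Measure ℝ).prod (volume.restrict (Ioo 0 Real.pi)) := by
    rw [Measure.volume_eq_prod, ← Measure.prod_restrict, Measure.restrict_univ]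
  unfold IntegrableOn
  rw [hrest]
  refine hmaj.mono' ?_ ?_
  · rw [← hrest]
    have hm : ContinuousOn (fun p : ℝ × ℝ => ((1 / Real.sin p.2 ^ 2 : ℝ) : ℂ) *
      ((RV k f).1 1 (pt p.1 p.2) * conj (v p.2))) ((univ : Set ℝ) ×ˢ Ioo 0 Real.pi) := by
      refine ContinuousOn.mul ?_ (ContinuousOn.mul ?_ ?_)
      · refine Complex.continuous_ofReal.comp_continuousOn ?_
        refine continuousOn_const.div ((Real.continuous_sin.comp continuous_snd).pow 2).continuousOn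
          (fun p hp => ?_)
        have := sin_pos_pi hp.2
        exact (pow_pos this 2).ne'
      · exact (rv_cont k f 1).comp_continuousOn pt_cont
      · exact (Complex.continuous_conj.comp (hv.cont.comp continuous_snd)).continuousOn
    refine (hm.congr (fun p hp => ?_)).aestronglyMeasurable
      (MeasurableSet.univ.prod measurableSet_Ioo)
    simp only [ag]
    rw [pt_arg hp.2]
  · rw [← hrest, ae_restrict_iff' (MeasurableSet.univ.prod measurableSet_Ioo)]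
    refine Eventually.of_forall (fun p hp => ?_)
    have hag : ag v (pt p.1 p.2) = v p.2 := by
      unfold ag
      rw [pt_arg hp.2]
    rw [hag]
    by_cases hin : p.2 ∈ Icc a c
    · have h1 := hb p.2 hin p.1
      have h2 := hB p.2 hin
      calc ‖((1 / Real.sin p.2 ^ 2 : ℝ) : ℂ) * ((RV k f).1 1 (pt p.1 p.2) * conj (v p.2))‖
          = ‖((1 / Real.sin p.2 ^ 2 : ℝ) : ℂ) * conj (v p.2)‖ * ‖(RV k f).1 1 (pt p.1 p.2)‖ := by
            rw [← norm_mul]; congr 1; ring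
        _ ≤ |B| * (|C| * Real.exp (-(c' * |p.1|))) := by
            refine mul_le_mul (h2.trans (le_abs_self _)) (h1.trans ?_) (norm_nonneg _) (abs_nonneg _)
            exact mul_le_mul_of_nonneg_right (le_abs_self _) (Real.exp_nonneg _)
        _ = _ := by ring
    · have : v p.2 = 0 := by
        by_contra hne
        exact hin (hs _ hne)
      rw [this]
      simp only [map_zero, mul_zero, norm_zero]
      positivity

/-- unfolding in polar coordinates -/
theorem ip_PO (k : TKs) (f : VF N) {v : ℝ → ℂ} (hv : TA v) :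
    ipH (RV k f).1 (PO N (ag v)) = 2 * PR (PT ((RV k f).1 1)) v := by
  have hI := unf_polar_int k f hv
  have hint : Integrable (fun w => (RV k f).1 1 w * conj (ag v w)) :=
    (pol_integrable (fun w => (RV k f).1 1 w * conj (ag v w))).2 hI
  rw [po_unf (RV k f).2.1.fam hint, pol_int (fun w => (RV k f).1 1 w * conj (ag v w))]
  congr 1
  have hrest : (volume : Measure (ℝ × ℝ)).restrict ((univ : Set ℝ) ×ˢ Ioo 0 Real.pi) =
      (volume : Measure ℝ).prod (volume.restrict (Ioo 0 Real.pi)) := by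
    rw [Measure.volume_eq_prod, ← Measure.prod_restrict, Measure.restrict_univ]
  rw [hrest, integral_prod_symm _ (by
    unfold IntegrableOn at hI
    rwa [hrest] at hI)]
  unfold PR
  refine setIntegral_congr_fun measurableSet_Ioo (fun θ hθ => ?_)
  simp only
  have h1 : ∀ τ : ℝ, ((1 / Real.sin θ ^ 2 : ℝ) : ℂ) * ((RV k f).1 1 (pt τ θ) * conj (ag v (pt τ θ))) =
      (((1 / Real.sin θ ^ 2 : ℝ) : ℂ) * conj (v θ)) * (RV k f).1 1 (pt τ θ) := by
    intro τ
    unfold ag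
    rw [pt_arg hθ]
    ring
  simp_rw [h1]
  rw [integral_const_mul]
  unfold PT
  push_cast
  ring

/-- every point is `pt τ θ` -/
theorem exists_pt (z : ℍ) : ∃ τ θ : ℝ, θ ∈ Ioo 0 Real.pi ∧ z = pt τ θ ∧ Complex.arg (z : ℂ) = θ := by
  have h1 : Complex.arg (z : ℂ) ∈ Ioo 0 Real.pi := by
    constructor
    · have h := Complex.arg_nonneg_iff.2 z.im_pos.le
      refine lt_of_le_of_ne h (fun h0 => ?_)
      have := (Complex.arg_eq_zero_iff.1 h0.symm).2
      exact absurd this z.im_pos.ne'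
    · exact Complex.arg_lt_pi_iff.2 (Or.inr z.im_pos.ne')
  refine ⟨Real.log ‖(z : ℂ)‖, Complex.arg (z : ℂ), h1, ?_, rfl⟩
  have hz : (z : ℂ) ≠ 0 := z.ne_zero
  apply UpperHalfPlane.ext
  rw [pt_coe h1, Complex.exp_add, ← Complex.ofReal_exp, Real.exp_log (norm_pos_iff.2 hz)]
  exact (Complex.norm_mul_exp_arg_mul_I _).symm

theorem rr_ag {k : ℝ → ℝ} (hk : TK k) {u : ℝ → ℂ} (hu : TA u) : RR k (ag u) = ag (KZ k u) := by
  funext z
  obtain ⟨τ, θ, hθ, rfl, harg⟩ := exists_pt z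
  unfold ag
  rw [harg, KZ_in _ _ hθ]
  exact rr_arg hk hu.cont.continuousOn hθ

theorem rf_PO {k : ℝ → ℝ} (hk : TK k) {u : ℝ → ℂ} (hu : TA u) :
    RF k (PO N (ag u)) = PO N (ag (KZ k u)) := by
  obtain ⟨a, c, ha, hc, hs⟩ := hu.supp
  funext s z
  have h1 := po_rr hk (N := N) hu.cont ha hc hs s z
  have h2 : RR k (fun w : ℍ => u (Complex.arg (w : ℂ))) = ag (KZ k u) := rr_ag hk hu
  rw [h2] at h1
  exact h1

/-- three times the Laplacian -/
noncomputable def LA3 (b : ℝ → ℂ) : ℝ → ℂ := LA (LA (LA b))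

theorem TA.la3 {b : ℝ → ℂ} (h : TA b) : TA (LA3 b) := h.la.la.la

/-- three times the radial Laplacian -/
noncomputable def D3 (l : TKs) : TKs := Dk (Dk (Dk l))

theorem KZ_D3 (l : TKs) {u : ℝ → ℂ} (hu : TA u) : KZ (D3 l).1 u = KZ l.1 (LA3 u) := by
  unfold D3 LA3
  show KZ (DD (Dk (Dk l)).1) u = _
  rw [KZ_la (Dk (Dk l)).2 hu]
  show KZ (DD (Dk l).1) (LA u) = _
  rw [KZ_la (Dk l).2 hu.la]
  show KZ (DD l.1) (LA (LA u)) = _
  rw [KZ_la l.2 hu.la.la]

theorem la3_KZ (l : TKs) {u : ℝ → ℂ} (hu : TA u) : LA3 (KZ l.1 u) = KZ (D3 l).1 u := by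
  unfold D3 LA3
  show _ = KZ (DD (Dk (Dk l)).1) u
  rw [la_KZ l.2 hu]
  show LA (LA (KZ (Dk l).1 u)) = _
  rw [la_KZ (Dk l).2 hu]
  show LA (KZ (Dk (Dk l)).1 u) = _
  rw [la_KZ (Dk (Dk l)).2 hu]

/-- square integrable families -/
def VS (N : ℕ) [NeZero N] : Submodule ℂ (QN N → ℍ → ℂ) where
  carrier := {f | SqH f}
  add_mem' := fun hf hg => hf.add hg
  zero_mem' := sqH_zero
  smul_mem' := fun c _ hf => hf.smul c

/-- Cauchy-Schwarz -/
theorem ip_norm_le {f g : QN N → ℍ → ℂ} (hf : SqH f) (hg : SqH g) : ‖ipH f g‖ ≤ nH f * nH g := by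
  obtain ⟨V, i1, i2, i3, J, h1, h2⟩ := exists_hilbert (W := VS N) (fun f g => ipH g.1 f.1)
    (fun x y => ip_conj _ _) (fun x => by
      show 0 ≤ (ipH x.1 x.1).re
      rw [ip_self x.2, Complex.ofReal_re]
      positivity) (fun x y z => ip_add x.2 y.2 z.2) (fun x y r => ip_smul _ _ _)
  have hn : ∀ x : VS N, ‖J x‖ = nH x.1 := by
    intro x
    have h3 : (inner ℂ (J x) (J x) : ℂ) = ((nH x.1 ^ 2 : ℝ) : ℂ) := by
      rw [h2, ip_self x.2]
    rw [inner_self_eq_norm_sq_to_K] at h3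
    have h4 : ‖J x‖ ^ 2 = nH x.1 ^ 2 := by
      apply Complex.ofReal_injective
      rw [← h3]
      push_cast
      rfl
    exact (pow_left_inj₀ (norm_nonneg _) (nH_nonneg _) two_ne_zero).1 h4
  have h5 := norm_inner_le_norm (𝕜 := ℂ) (J ⟨g, hg⟩) (J ⟨f, hf⟩)
  rw [h2, hn, hn] at h5
  rw [mul_comm]
  exact h5

theorem ip_sub {f g g' : QN N → ℍ → ℂ} (hf : SqH f) (hg : SqH g) (hg' : SqH g') (c : ℂ) :
    ipH f (g - c • g') = ipH f g - conj c * ipH f g' := by
  have h1 : g - c • g' = g + (-c) • g' := by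
    funext s z
    show g s z - c * g' s z = g s z + (-c) * g' s z
    ring
  rw [h1, ip_add hg (hg'.smul _) hf, ip_smul, map_neg]
  ring

/-- the pairing as a bounded functional -/
theorem PR_ray_bd (M : Model N V) (k : TKs) {u : ℝ → ℂ} (hu : TA u) : ∃ C : ℝ, 0 ≤ C ∧
    ∀ v : V, ‖PR (fun θ => M.ray k θ v) u‖ ≤ C * ‖v‖ := by
  have hc : ContinuousOn (fun t : ℝ => ((Cray N k * Real.sin t ^ (-(1 / 2) : ℝ) : ℝ) : ℂ))
      (Ioo 0 Real.pi) := by
    refine Complex.continuous_ofReal.comp_continuousOn (continuousOn_const.mul ?_)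
    exact Real.continuous_sin.continuousOn.rpow_const (fun t ht => Or.inl (sin_pos_pi ht).ne')
  have hI := PR_int hc hu
  refine ⟨∫ t in Ioo 0 Real.pi, ‖((Cray N k * Real.sin t ^ (-(1 / 2) : ℝ) : ℝ) : ℂ) * conj (u t) /
    ((Real.sin t ^ 2 : ℝ) : ℂ)‖, integral_nonneg (fun _ => norm_nonneg _), fun v => ?_⟩
  unfold PR
  rw [← integral_mul_const]
  refine norm_integral_le_of_norm_le (hI.norm.mul_const _) ?_
  rw [ae_restrict_iff' measurableSet_Ioo]
  refine Eventually.of_forall (fun t ht => ?_)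
  have h0 : 0 ≤ Cray N k * Real.sin t ^ (-(1 / 2) : ℝ) :=
    mul_nonneg (Cray_nonneg k) (Real.rpow_nonneg (sin_pos_pi ht).le _)
  have h00 : ‖((Cray N k * Real.sin t ^ (-(1 / 2) : ℝ) : ℝ) : ℂ)‖ =
      Cray N k * Real.sin t ^ (-(1 / 2) : ℝ) := by
    rw [Complex.norm_real, Real.norm_of_nonneg h0]
  rw [norm_div, norm_mul, norm_div, norm_mul, h00]
  have h1 := M.ray_bd k ht v
  show ‖M.ray k t v‖ * ‖conj (u t)‖ / ‖((Real.sin t ^ 2 : ℝ) : ℂ)‖ ≤ _
  calc ‖M.ray k t v‖ * ‖conj (u t)‖ / ‖((Real.sin t ^ 2 : ℝ) : ℂ)‖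
      ≤ (Cray N k * Real.sin t ^ (-(1 / 2) : ℝ) * ‖v‖) * ‖conj (u t)‖ / ‖((Real.sin t ^ 2 : ℝ) : ℂ)‖ := by
        gcongr
    _ = _ := by ring

theorem PR_ray_sub (M : Model N V) (k : TKs) {u : ℝ → ℂ} (hu : TA u) (v v' : V) (c : ℂ) :
    PR (fun θ => M.ray k θ v) u - c * PR (fun θ => M.ray k θ v') u =
      PR (fun θ => M.ray k θ (v - c • v')) u := by
  unfold PR
  rw [← integral_const_mul, ← integral_sub (PR_int (M.ray_cont k v) hu)
    ((PR_int (M.ray_cont k v') hu).const_mul c)]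
  congr 1
  funext t
  show _ = M.ray k t (v - c • v') * conj (u t) / ((Real.sin t ^ 2 : ℝ) : ℂ)
  rw [map_sub, map_smul, smul_eq_mul]
  ring

/-- **Pairing identity**: the smoothed ray function of a cuspidal family against a test function -/
theorem pai (M : Model N V) (g : VF N) (hS : ∀ b, TA b → SqH (PO N (ag (LA3 b)))) (k l : TKs)
    {u : ℝ → ℂ} (hu : TA u) :
    PR (fun θ => M.ray k θ (M.op (D3 l) (M.J g))) u =
      (1 / 2) * ipH g.1 (PO N (ag (LA3 (KZ l.1 (KZ k.1 u))))) := by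
  have hku : TA (KZ k.1 u) := hu.kz k.2
  have hV : TA (LA3 (KZ l.1 (KZ k.1 u))) := (hku.kz l.2).la3
  set Φ : QN N → ℍ → ℂ := PO N (ag (LA3 (KZ l.1 (KZ k.1 u)))) with hΦ
  have hΦS : SqH Φ := hS _ (hku.kz l.2)
  set Ψ : QN N → ℍ → ℂ := PO N (ag (LA3 (KZ k.1 u))) with hΨ
  have hΨS : SqH Ψ := hS _ hku
  have hΦΨ : Φ = RF l.1 Ψ := by
    rw [hΨ, rf_PO l.2 hku.la3, ← KZ_D3 l hku, hΦ, la3_KZ l hku]
  -- (i) the identity for the families `R_{k'} g`
  have h1 : ∀ k' : TKs, PR (fun θ => M.ray k θ (M.op (D3 l) (M.op k' (M.J g)))) u =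
      (1 / 2) * ipH (RV k' g).1 Φ := by
    intro k'
    have hc : ContinuousOn (PT ((RV k' g).1 1)) (Ioo 0 Real.pi) := rv_PT_cont k' g 1
    have e1 : ∀ θ ∈ Ioo 0 Real.pi, M.ray k θ (M.op (D3 l) (M.op k' (M.J g))) =
        KK k.1 (KK (D3 l).1 (PT ((RV k' g).1 1))) θ := by
      intro θ hθ
      rw [M.op_J, M.op_J, M.ray_J k hθ, rv_PT_rv k (D3 l) _ 1 hθ]
      exact kk_congr _ (fun t ht => rv_PT_rv (D3 l) k' g 1 ht) θ
    have hc2 : ContinuousOn (KK (D3 l).1 (PT ((RV k' g).1 1))) (Ioo 0 Real.pi) :=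
      fun t ht => (kk_deriv (D3 l).2 hc ht).1.continuousAt.continuousWithinAt
    rw [PR_congr e1, PR_symm k.2 hc2 hu, PR_symm (D3 l).2 hc hku, ip_PO k' g hV, ← la3_KZ l hku]
    ring
  -- (ii) the left sides converge
  obtain ⟨m, kk, hm, hkk, -⟩ := apx'
  have hL : Tendsto (fun n => PR (fun θ => M.ray k θ (M.op (D3 l) (M.op (kk n) (M.J g)))) u) atTop
      (𝓝 ((m : ℂ) * PR (fun θ => M.ray k θ (M.op (D3 l) (M.J g))) u)) := by
    obtain ⟨C, hC, hb⟩ := PR_ray_bd M k hu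
    rw [Metric.tendsto_atTop]
    intro ε hε
    obtain ⟨δ, hδ, happ⟩ := M.app_range (D3 l)
      (ε := ε / ((C + 1) * (m * ‖M.J g‖ + 1))) (by positivity)
    obtain ⟨n₁, hn₁⟩ := exists_nat_one_div_lt hδ
    refine ⟨n₁, fun n hn => ?_⟩
    have hkn : ∀ c, 1 + δ ≤ c → (kk n).1 c = 0 := by
      intro c hc
      refine (hkk n).2.1 c (le_trans ?_ hc)
      have h1 : (1 : ℝ) / ((n : ℝ) + 1) ≤ 1 / ((n₁ : ℝ) + 1) := by
        apply one_div_le_one_div_of_le (by positivity)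
        have : (n₁ : ℝ) ≤ n := by exact_mod_cast hn
        linarith
      linarith
    have h2 := happ (kk n) (hkk n).1 hkn (M.J g)
    rw [(hkk n).2.2] at h2
    rw [dist_eq_norm, PR_ray_sub M k hu, M.op_comm]
    refine (hb _).trans_lt ?_
    calc C * ‖M.op (kk n) (M.op (D3 l) (M.J g)) - (m : ℂ) • M.op (D3 l) (M.J g)‖
        ≤ (C + 1) * ‖M.op (kk n) (M.op (D3 l) (M.J g)) - (m : ℂ) • M.op (D3 l) (M.J g)‖ :=
          mul_le_mul_of_nonneg_right (by linarith) (norm_nonneg _)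
      _ ≤ (C + 1) * (ε / ((C + 1) * (m * ‖M.J g‖ + 1)) * m * ‖M.J g‖) :=
          mul_le_mul_of_nonneg_left h2 (by linarith)
      _ < ε := by
          have hC1 : 0 < C + 1 := by linarith
          have hg1 : 0 < m * ‖M.J g‖ + 1 := by positivity
          have e1 : (C + 1) * (ε / ((C + 1) * (m * ‖M.J g‖ + 1)) * m * ‖M.J g‖) =
              ε * (m * ‖M.J g‖ / (m * ‖M.J g‖ + 1)) := by
            field_simp
          rw [e1]
          have e2 : m * ‖M.J g‖ / (m * ‖M.J g‖ + 1) < 1 := by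
            rw [div_lt_one hg1]
            linarith
          nlinarith
  have hR : Tendsto (fun n => (1 / 2 : ℂ) * ipH (RV (kk n) g).1 Φ) atTop
      (𝓝 ((m : ℂ) * ((1 / 2) * ipH g.1 Φ))) := by
    have hR' : Tendsto (fun n => ipH (RV (kk n) g).1 Φ) atTop (𝓝 ((m : ℂ) * ipH g.1 Φ)) := by
      rw [Metric.tendsto_atTop]
      intro ε hε
      obtain ⟨δ, hδ, happ⟩ := apx_rr l.2 (ε := ε / (nH g.1 * m * nH Ψ + 1))
        (div_pos hε (by
          have := mul_nonneg (mul_nonneg (nH_nonneg g.1) hm.le) (nH_nonneg Ψ)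
          linarith))
      obtain ⟨n₁, hn₁⟩ := exists_nat_one_div_lt hδ
      refine ⟨n₁, fun n hn => ?_⟩
      have hkn : ∀ c, 1 + δ ≤ c → (kk n).1 c = 0 := by
        intro c hc
        refine (hkk n).2.1 c (le_trans ?_ hc)
        have h1 : (1 : ℝ) / ((n : ℝ) + 1) ≤ 1 / ((n₁ : ℝ) + 1) := by
          apply one_div_le_one_div_of_le (by positivity)
          have : (n₁ : ℝ) ≤ n := by exact_mod_cast hn
          linarith
        linarith
      have h2 := happ (kk n).1 (kk n).2 (hkk n).1 hkn N Ψ hΨS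
      rw [(hkk n).2.2] at h2
      have h3 : ipH (RV (kk n) g).1 Φ = ipH g.1 (RF (kk n).1 Φ) := sym (kk n).2 g.2.1 hΦS
      have h4 : (m : ℂ) * ipH g.1 Φ = conj (m : ℂ) * ipH g.1 Φ := by rw [Complex.conj_ofReal]
      rw [dist_eq_norm, h3, h4, ← ip_sub g.2.1 (rr_sq (kk n).2 hΦS) hΦS]
      have h5 : nH (RF (kk n).1 Φ - (m : ℂ) • Φ) ≤ ε / (nH g.1 * m * nH Ψ + 1) * m * nH Ψ := by
        rw [hΦΨ]
        exact h2
      have h6 := ip_norm_le g.2.1 ((rr_sq (kk n).2 hΦS).add (hΦS.smul (-(m : ℂ))))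
      have h7 : RF (kk n).1 Φ + (-(m : ℂ)) • Φ = RF (kk n).1 Φ - (m : ℂ) • Φ := by
        funext s z
        show RF (kk n).1 Φ s z + (-(m : ℂ)) * Φ s z = RF (kk n).1 Φ s z - (m : ℂ) * Φ s z
        ring
      rw [h7] at h6
      have hA := nH_nonneg g.1
      have hB := nH_nonneg Ψ
      have hAB : 0 ≤ nH g.1 * m * nH Ψ := mul_nonneg (mul_nonneg hA hm.le) hB
      calc ‖ipH g.1 (RF (kk n).1 Φ - (m : ℂ) • Φ)‖
          ≤ nH g.1 * nH (RF (kk n).1 Φ - (m : ℂ) • Φ) := h6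
        _ ≤ nH g.1 * (ε / (nH g.1 * m * nH Ψ + 1) * m * nH Ψ) := mul_le_mul_of_nonneg_left h5 hA
        _ = ε * ((nH g.1 * m * nH Ψ) / (nH g.1 * m * nH Ψ + 1)) := by ring
        _ < ε := by
            have e2 : (nH g.1 * m * nH Ψ) / (nH g.1 * m * nH Ψ + 1) < 1 := by
              rw [div_lt_one (by linarith)]
              linarith
            nlinarith
    have := hR'.const_mul (1 / 2 : ℂ)
    refine this.trans (le_of_eq ?_)
    congr 1
    ring
  have h2 := tendsto_nhds_unique (hL.congr (fun n => h1 (kk n))) hR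
  exact mul_left_cancel₀ (by exact_mod_cast hm.ne') h2

end Pool.Agent.JOS
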