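import Pool.Agent.Lib_helper58.JOS.Op

/-! # JO, part S: the ray functionals -/

namespace Pool.Agent.JOS

open Complex MeasureTheory Filter Topology UpperHalfPlane ModularGroup Set Metric
open scoped MatrixGroups Modular ENNReal ComplexConjugate ContDiff
open Pool.Agent.JO (QN red FamH)

variable {N : ℕ} [NeZero N]
variable {V : Type} [NormedAddCommGroup V] [InnerProductSpace ℂ V] [CompleteSpace V]

theorem sin_pos_pi {θ : ℝ} (h : θ ∈ Ioo 0 Real.pi) : 0 < Real.sin θ := Real.sin_pos_of_mem_Ioo h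

/-- decay of `R_k f` along rays -/
theorem rv_decay (k : TKs) : ∃ C : ℝ, 0 ≤ C ∧ ∀ (f : VF N) (s : QN N) (τ θ : ℝ), θ ∈ Ioo 0 Real.pi →
    ‖(RV k f).1 s (pt τ θ)‖ ≤ C * nH f.1 * (Real.sin θ ^ (-(1 / 2) : ℝ)) * Real.exp (-(|τ| / 2)) := by
  obtain ⟨C, hC, h⟩ := cb2_ray k.2 N
  refine ⟨C, hC, fun f s τ θ hθ => ?_⟩
  have h1 := h f.1 f.2.1 f.2.2 s τ θ hθ
  have hs := sin_pos_pi hθ
  have hq : 0 < √(Real.sin θ) := Real.sqrt_pos.2 hs
  have h2 : Real.sin θ ^ (-(1 / 2) : ℝ) = (√(Real.sin θ))⁻¹ := by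
    rw [Real.rpow_neg hs.le, Real.sqrt_eq_rpow]
  have h3 : ‖(RV k f).1 s (pt τ θ)‖ * √(Real.sin θ) ≤ C * nH f.1 * Real.exp (-(|τ| / 2)) := h1
  rw [h2]
  rw [← le_div_iff₀ hq] at h3
  refine h3.trans (le_of_eq ?_)
  field_simp

/-- the hypothesis of `ray_gen` -/
theorem rv_loc (k : TKs) (f : VF N) (s : QN N) : ∀ a b : ℝ, 0 < a → b < Real.pi →
    ∃ C c : ℝ, 0 < c ∧ ∀ θ ∈ Icc a b, ∀ τ : ℝ, ‖(RV k f).1 s (pt τ θ)‖ ≤ C * Real.exp (-(c * |τ|)) := by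
  intro a b ha hb
  obtain ⟨C, hC, h⟩ := rv_decay (N := N) k
  rcases (Icc a b).eq_empty_or_nonempty with he | hne
  · exact ⟨0, 1, one_pos, fun θ hθ => by rw [he] at hθ; exact absurd hθ (notMem_empty θ)⟩
  have hc : ContinuousOn (fun θ : ℝ => Real.sin θ ^ (-(1 / 2) : ℝ)) (Icc a b) := by
    refine Real.continuous_sin.continuousOn.rpow_const (fun θ hθ => Or.inl ?_)
    exact (sin_pos_pi ⟨lt_of_lt_of_le ha hθ.1, lt_of_le_of_lt hθ.2 hb⟩).ne'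
  obtain ⟨x, _, hx⟩ := isCompact_Icc.exists_isMaxOn hne hc
  refine ⟨C * nH f.1 * (Real.sin x ^ (-(1 / 2) : ℝ)), 1 / 2, by norm_num, fun θ hθ τ => ?_⟩
  have hθ' : θ ∈ Ioo 0 Real.pi := ⟨lt_of_lt_of_le ha hθ.1, lt_of_le_of_lt hθ.2 hb⟩
  refine (h f s τ θ hθ').trans ?_
  have h1 : Real.sin θ ^ (-(1 / 2) : ℝ) ≤ Real.sin x ^ (-(1 / 2) : ℝ) := hx hθ
  have h2 : Real.exp (-(|τ| / 2)) = Real.exp (-(1 / 2 * |τ|)) := by congr 1; ring
  rw [h2]
  refine mul_le_mul_of_nonneg_right ?_ (Real.exp_nonneg _)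
  exact mul_le_mul_of_nonneg_left h1 (mul_nonneg hC (nH_nonneg _))

theorem rv_cont (k : TKs) (f : VF N) (s : QN N) : Continuous ((RV k f).1 s) := rr_cont k.2 f.2.1 s

theorem rv_int (k : TKs) (f : VF N) (s : QN N) {θ : ℝ} (hθ : θ ∈ Ioo 0 Real.pi) :
    Integrable (fun τ => (RV k f).1 s (pt τ θ)) :=
  (ray_gen k.2 (rv_cont k f s) (rv_loc k f s)).2.1 θ hθ

theorem rv_PT_cont (k : TKs) (f : VF N) (s : QN N) :
    ContinuousOn (PT ((RV k f).1 s)) (Ioo 0 Real.pi) :=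
  (ray_gen k.2 (rv_cont k f s) (rv_loc k f s)).1

theorem rv_PT_rv (k l : TKs) (f : VF N) (s : QN N) {θ : ℝ} (hθ : θ ∈ Ioo 0 Real.pi) :
    PT ((RV k (RV l f)).1 s) θ = KK k.1 (PT ((RV l f).1 s)) θ :=
  (ray_gen k.2 (rv_cont l f s) (rv_loc l f s)).2.2.2 θ hθ

theorem exp_half_integral : ∫ τ : ℝ, Real.exp (-(|τ| / 2)) = 4 := by
  have h1 := Pool.Agent.SP.f2_integral (σ := 1 / 2) (by norm_num)
  have h2 : ∀ τ : ℝ, Real.exp (-(|τ| / 2)) = Real.exp (-(1 / 2 * |τ|)) := fun τ => by congr 1; ring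
  simp_rw [h2]
  rw [h1]
  norm_num

theorem exp_half_int : Integrable (fun τ : ℝ => Real.exp (-(|τ| / 2))) := by
  have h1 := Pool.Agent.SP.f2_int (σ := 1 / 2) (by norm_num)
  refine h1.congr (Eventually.of_forall (fun τ => ?_))
  simp only
  congr 1
  ring

/-- bound of the ray integrals -/
theorem rv_PT_bd (k : TKs) : ∃ C : ℝ, 0 ≤ C ∧ ∀ (f : VF N) (θ : ℝ), θ ∈ Ioo 0 Real.pi →
    ‖PT ((RV k f).1 1) θ‖ ≤ C * (Real.sin θ ^ (-(1 / 2) : ℝ)) * nH f.1 := by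
  obtain ⟨C, hC, h⟩ := rv_decay (N := N) k
  refine ⟨4 * C, by positivity, fun f θ hθ => ?_⟩
  unfold PT
  refine (norm_integral_le_of_norm_le (exp_half_int.const_mul _)
    (Eventually.of_forall (fun τ => h f 1 τ θ hθ))).trans (le_of_eq ?_)
  rw [integral_const_mul, exp_half_integral]
  ring

/-- the constant of the ray functional -/
noncomputable def Cray (N : ℕ) [NeZero N] (k : TKs) : ℝ := (rv_PT_bd (N := N) k).choose

theorem Cray_nonneg (k : TKs) : 0 ≤ Cray N k := (rv_PT_bd (N := N) k).choose_spec.1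

theorem Cray_spec (k : TKs) (f : VF N) {θ : ℝ} (hθ : θ ∈ Ioo 0 Real.pi) :
    ‖PT ((RV k f).1 1) θ‖ ≤ Cray N k * (Real.sin θ ^ (-(1 / 2) : ℝ)) * nH f.1 :=
  (rv_PT_bd (N := N) k).choose_spec.2 f θ hθ

open scoped Classical in
/-- the ray functional of `R_k f` -/
noncomputable def rayL (k : TKs) (θ : ℝ) : VF N →ₗ[ℂ] ℂ :=
  if hθ : θ ∈ Ioo 0 Real.pi then
    { toFun := fun f => PT ((RV k f).1 1) θ
      map_add' := fun f g => by
        rw [map_add]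
        exact integral_add (rv_int k f 1 hθ) (rv_int k g 1 hθ)
      map_smul' := fun c f => by
        rw [map_smul]
        exact integral_const_mul c _ }
  else 0

theorem rayL_apply (k : TKs) {θ : ℝ} (hθ : θ ∈ Ioo 0 Real.pi) (f : VF N) :
    rayL k θ f = PT ((RV k f).1 1) θ := by
  rw [rayL, dif_pos hθ]
  rfl

theorem rayL_out (k : TKs) {θ : ℝ} (hθ : θ ∉ Ioo 0 Real.pi) : (rayL k θ : VF N →ₗ[ℂ] ℂ) = 0 := by
  rw [rayL, dif_neg hθ]

theorem Model.rayL_bd (M : Model N V) (k : TKs) (θ : ℝ) (f : VF N) :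
    ‖rayL k θ f‖ ≤ (if θ ∈ Ioo 0 Real.pi then Cray N k * (Real.sin θ ^ (-(1 / 2) : ℝ)) else 0) *
      ‖M.J f‖ := by
  split_ifs with hθ
  · rw [rayL_apply k hθ, M.norm_J]
    exact Cray_spec k f hθ
  · rw [rayL_out k hθ]
    simp

/-- the ray functional on the Hilbert space -/
noncomputable def Model.ray (M : Model N V) (k : TKs) (θ : ℝ) : V →L[ℂ] ℂ :=
  (rayL k θ).extendOfNorm M.J

theorem Model.ray_J (M : Model N V) (k : TKs) {θ : ℝ} (hθ : θ ∈ Ioo 0 Real.pi) (f : VF N) :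
    M.ray k θ (M.J f) = PT ((RV k f).1 1) θ := by
  rw [← rayL_apply k hθ]
  exact LinearMap.extendOfNorm_eq M.dense ⟨_, M.rayL_bd k θ⟩ f

theorem Model.ray_bd (M : Model N V) (k : TKs) {θ : ℝ} (hθ : θ ∈ Ioo 0 Real.pi) (v : V) :
    ‖M.ray k θ v‖ ≤ Cray N k * (Real.sin θ ^ (-(1 / 2) : ℝ)) * ‖v‖ := by
  have h := LinearMap.norm_extendOfNorm_apply_le M.dense _ (M.rayL_bd k θ) v
  rwa [if_pos hθ] at h

theorem Model.ray_cont (M : Model N V) (k : TKs) (v : V) :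
    ContinuousOn (fun θ => M.ray k θ v) (Ioo 0 Real.pi) := by
  intro θ₀ hθ₀
  apply ContinuousAt.continuousWithinAt
  obtain ⟨a, ha1, ha2⟩ := exists_between hθ₀.1
  obtain ⟨b, hb1, hb2⟩ := exists_between hθ₀.2
  have hsub : Ioo a b ⊆ Ioo 0 Real.pi := Ioo_subset_Ioo ha1.le hb2.le
  have hc : ContinuousOn (fun θ : ℝ => Real.sin θ ^ (-(1 / 2) : ℝ)) (Icc a b) := by
    refine Real.continuous_sin.continuousOn.rpow_const (fun θ hθ => Or.inl ?_)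
    exact (sin_pos_pi ⟨lt_of_lt_of_le ha1 hθ.1, lt_of_le_of_lt hθ.2 hb2⟩).ne'
  obtain ⟨x, _, hx⟩ := isCompact_Icc.exists_isMaxOn (nonempty_Icc.2 (ha2.trans hb1).le) hc
  set B : ℝ := Cray N k * (Real.sin x ^ (-(1 / 2) : ℝ)) with hB
  have hxs : 0 ≤ Real.sin x ^ (-(1 / 2) : ℝ) := by
    refine le_trans ?_ (hx (show θ₀ ∈ Icc a b from ⟨ha2.le, hb1.le⟩))
    exact Real.rpow_nonneg (sin_pos_pi hθ₀).le _
  have hB0 : 0 ≤ B := mul_nonneg (Cray_nonneg k) hxs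
  have hbd : ∀ θ ∈ Ioo a b, ∀ w : V, ‖M.ray k θ w‖ ≤ B * ‖w‖ := by
    intro θ hθ w
    refine (M.ray_bd k (hsub hθ) w).trans ?_
    refine mul_le_mul_of_nonneg_right ?_ (norm_nonneg _)
    exact mul_le_mul_of_nonneg_left (hx ⟨hθ.1.le, hθ.2.le⟩) (Cray_nonneg k)
  rw [Metric.continuousAt_iff]
  intro ε hε
  obtain ⟨f, hf⟩ := Metric.denseRange_iff.1 M.dense v (ε / (3 * (B + 1))) (by positivity)
  rw [dist_eq_norm] at hf
  have hfc : ContinuousAt (fun θ => PT ((RV k f).1 1) θ) θ₀ :=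
    (rv_PT_cont k f 1).continuousAt (Ioo_mem_nhds hθ₀.1 hθ₀.2)
  obtain ⟨δ, hδ, hδ2⟩ := Metric.continuousAt_iff.1 hfc (ε / 3) (by positivity)
  obtain ⟨δ', hδ', hδ2'⟩ := Metric.isOpen_iff.1 (isOpen_Ioo (a := a) (b := b)) θ₀ ⟨ha2, hb1⟩
  refine ⟨min δ δ', lt_min hδ hδ', fun {θ} hθ => ?_⟩
  have hθ1 : θ ∈ Ioo a b := hδ2' (lt_of_lt_of_le hθ (min_le_right _ _))
  have h1 := hδ2 (lt_of_lt_of_le hθ (min_le_left _ _))
  have e1 : M.ray k θ v - M.ray k θ₀ v = M.ray k θ (v - M.J f) +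
      (PT ((RV k f).1 1) θ - PT ((RV k f).1 1) θ₀) - M.ray k θ₀ (v - M.J f) := by
    rw [map_sub, map_sub, M.ray_J k (hsub hθ1), M.ray_J k hθ₀]
    ring
  rw [dist_eq_norm, e1]
  rw [dist_eq_norm] at h1
  have hsm : B * ‖v - M.J f‖ < ε / 3 := by
    calc B * ‖v - M.J f‖ ≤ (B + 1) * ‖v - M.J f‖ :=
          mul_le_mul_of_nonneg_right (by linarith) (norm_nonneg _)
      _ < (B + 1) * (ε / (3 * (B + 1))) := mul_lt_mul_of_pos_left hf (by linarith)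
      _ = ε / 3 := by
          have : B + 1 ≠ 0 := by linarith
          field_simp
  have h2 := hbd θ hθ1 (v - M.J f)
  have h3 := hbd θ₀ ⟨ha2, hb1⟩ (v - M.J f)
  calc ‖M.ray k θ (v - M.J f) + (PT ((RV k f).1 1) θ - PT ((RV k f).1 1) θ₀) -
        M.ray k θ₀ (v - M.J f)‖
      ≤ ‖M.ray k θ (v - M.J f)‖ + ‖PT ((RV k f).1 1) θ - PT ((RV k f).1 1) θ₀‖ +
        ‖M.ray k θ₀ (v - M.J f)‖ :=
        (norm_sub_le _ _).trans (by gcongr; exact norm_add_le _ _)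
    _ < ε := by linarith

/-! ## relations -/

theorem kk_add {k : ℝ → ℝ} (hk' : TK k) {g g' : ℝ → ℂ} (hg : ContinuousOn g (Ioo 0 Real.pi))
    (hg' : ContinuousOn g' (Ioo 0 Real.pi)) {θ : ℝ} (hθ : θ ∈ Ioo 0 Real.pi) :
    KK k (fun t => g t + g' t) θ = KK k g θ + KK k g' θ := by
  unfold KK
  rw [← integral_add (kk_int hk' hg hθ) (kk_int hk' hg' hθ)]
  congr 1
  funext t
  ring

theorem kk_smul (k : ℝ → ℝ) (g : ℝ → ℂ) (c : ℂ) (θ : ℝ) :
    KK k (fun t => c * g t) θ = c * KK k g θ := by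
  unfold KK
  rw [← integral_const_mul]
  congr 1
  funext t
  ring

theorem kk_sub {k : ℝ → ℝ} (hk' : TK k) {g g' : ℝ → ℂ} (hg : ContinuousOn g (Ioo 0 Real.pi))
    (hg' : ContinuousOn g' (Ioo 0 Real.pi)) {θ : ℝ} (hθ : θ ∈ Ioo 0 Real.pi) :
    KK k (fun t => g t - g' t) θ = KK k g θ - KK k g' θ := by
  unfold KK
  rw [← integral_sub (kk_int hk' hg hθ) (kk_int hk' hg' hθ)]
  congr 1
  funext t
  ring

theorem kk_congr (k : ℝ → ℝ) {g g' : ℝ → ℂ} (h : ∀ t ∈ Ioo 0 Real.pi, g t = g' t) (θ : ℝ) :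
    KK k g θ = KK k g' θ := by
  unfold KK
  refine setIntegral_congr_fun measurableSet_Ioo (fun t ht => ?_)
  rw [h t ht]

/-- (L1) -/
theorem Model.ray_op (M : Model N V) (k l : TKs) {θ : ℝ} (hθ : θ ∈ Ioo 0 Real.pi) (v : V) :
    M.ray k θ (M.op l v) = KK k.1 (fun t => M.ray l t v) θ := by
  obtain ⟨C, hC, hb⟩ := kk_bd k.2 (1 / 2) (by norm_num)
  have hs := sin_pos_pi hθ
  set B : ℝ := C * Cray N l * Real.sin θ ^ (-(1 / 2) : ℝ) with hB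
  have hB0 : 0 ≤ B := mul_nonneg (mul_nonneg hC (Cray_nonneg l)) (Real.rpow_nonneg hs.le _)
  have hK : ∀ w : V, ‖KK k.1 (fun t => M.ray l t w) θ‖ ≤ B * ‖w‖ := by
    intro w
    refine (hb (fun t => M.ray l t w) (Cray N l * ‖w‖) (M.ray_cont l w) (fun t ht => ?_) θ hθ).trans
      (le_of_eq ?_)
    · refine (M.ray_bd l ht w).trans (le_of_eq ?_)
      ring
    · rw [hB]; ring
  -- both sides are continuous in `v`
  have hcont : Continuous (fun w : V => KK k.1 (fun t => M.ray l t w) θ) := by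
    rw [Metric.continuous_iff]
    intro w ε hε
    refine ⟨ε / (B + 1), by positivity, fun w' hw' => ?_⟩
    rw [dist_eq_norm] at hw' ⊢
    have h1 : KK k.1 (fun t => M.ray l t w') θ - KK k.1 (fun t => M.ray l t w) θ =
        KK k.1 (fun t => M.ray l t (w' - w)) θ := by
      rw [← kk_sub k.2 (M.ray_cont l w') (M.ray_cont l w) hθ]
      exact kk_congr _ (fun t _ => by rw [map_sub]) θ
    rw [h1]
    calc ‖KK k.1 (fun t => M.ray l t (w' - w)) θ‖ ≤ B * ‖w' - w‖ := hK _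
      _ ≤ (B + 1) * ‖w' - w‖ := mul_le_mul_of_nonneg_right (by linarith) (norm_nonneg _)
      _ < (B + 1) * (ε / (B + 1)) := mul_lt_mul_of_pos_left hw' (by linarith)
      _ = ε := by field_simp
  refine M.dense.induction_on (p := fun v => M.ray k θ (M.op l v) = KK k.1 (fun t => M.ray l t v) θ) v
    (isClosed_eq (by fun_prop) hcont) (fun f => ?_)
  rw [M.op_J, M.ray_J k hθ, rv_PT_rv k l f 1 hθ]
  exact kk_congr _ (fun t ht => (M.ray_J l ht f).symm) θ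

/-- (L2) -/
theorem Model.ray_drel (M : Model N V) (k l : TKs) {θ : ℝ} (hθ : θ ∈ Ioo 0 Real.pi) (v : V) :
    M.ray (Dk k) θ (M.op l v) = M.ray k θ (M.op (Dk l) v) := by
  refine M.dense.induction_on (p := fun v => M.ray (Dk k) θ (M.op l v) = M.ray k θ (M.op (Dk l) v)) v
    (isClosed_eq (by fun_prop) (by fun_prop)) (fun f => ?_)
  rw [M.op_J, M.op_J, M.ray_J _ hθ, M.ray_J _ hθ, rv_drel]

/-- (L3) -/
theorem Model.ray_comm (M : Model N V) (k l : TKs) {θ : ℝ} (hθ : θ ∈ Ioo 0 Real.pi) (v : V) :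
    M.ray k θ (M.op l v) = M.ray l θ (M.op k v) := by
  refine M.dense.induction_on (p := fun v => M.ray k θ (M.op l v) = M.ray l θ (M.op k v)) v
    (isClosed_eq (by fun_prop) (by fun_prop)) (fun f => ?_)
  rw [M.op_J, M.op_J, M.ray_J _ hθ, M.ray_J _ hθ, rv_comm]

end Pool.Agent.JOS
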