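import Pool.Agent.Lib_helper58.JOS.HOut
import Pool.Agent.Lib_helper84.JO.WantedE6

/-! # JO, part S: the target statement for holomorphic forms -/

namespace Pool.Agent.JOS

open Complex MeasureTheory Filter Topology UpperHalfPlane ModularGroup Set Metric
open scoped MatrixGroups Modular ENNReal ComplexConjugate ContDiff
open Pool.Agent.JO (QN red FamH PV bot cH TD TB sa meanH PiA Zf)
open Pool.Agent.Lib_helper37.JO (HJ)

/-! ## test functions -/

theorem LA_neg (b : ℝ → ℂ) : LA (fun t => -b t) = fun t => -LA b t := by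
  funext t
  unfold LA
  have h1 : deriv (fun t => -b t) = fun t => -deriv b t := by
    funext x
    exact deriv.fun_neg
  rw [h1]
  have h2 : deriv (fun t => -deriv b t) t = -deriv (deriv b) t := deriv.fun_neg
  rw [h2]
  ring

theorem sa_TD (c : ℝ → ℂ) : sa (TD c) = fun t => -LA (sa c) t := by
  funext t
  unfold sa TD LA
  ring

/-- `b / sin²` -/
noncomputable def bt (b : ℝ → ℂ) (t : ℝ) : ℂ := b t / ((Real.sin t ^ 2 : ℝ) : ℂ)

theorem sa_bt {b : ℝ → ℂ} (hb : TA b) : sa (bt b) = b := by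
  funext t
  unfold sa bt
  by_cases h : ((Real.sin t ^ 2 : ℝ) : ℂ) = 0
  · have h1 : b t = 0 := by
      refine hb.out (fun ht => ?_)
      have := sin_pos_pi ht
      have h2 : (Real.sin t ^ 2 : ℝ) = 0 := by exact_mod_cast h
      exact absurd h2 (by positivity)
    rw [h1, h]
    ring
  · field_simp

theorem bt_TB {b : ℝ → ℂ} (hb : TA b) : TB (bt b) := by
  obtain ⟨a, c, ha, hc, hs⟩ := hb.supp
  have hsupp : ∀ t, bt b t ≠ 0 → t ∈ Icc a c := by
    intro t ht
    refine hs t (fun h => ht ?_)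
    unfold bt
    rw [h, zero_div]
  refine ⟨?_, a, c, ha, hc, hsupp⟩
  rw [contDiff_iff_contDiffAt]
  intro t
  by_cases h : t ∈ Ioo 0 Real.pi
  · have e1 : bt b = fun t => b t * (((Real.sin t ^ 2)⁻¹ : ℝ) : ℂ) := by
      funext x
      unfold bt
      push_cast
      rw [div_eq_mul_inv]
    rw [e1]
    refine hb.smooth.contDiffAt.mul ?_
    have e2 : ContDiffAt ℝ ∞ (fun x : ℝ => (Real.sin x ^ 2)⁻¹) t := by
      refine ContDiffAt.inv (Real.contDiff_sin.pow 2).contDiffAt ?_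
      have := sin_pos_pi h
      positivity
    exact Complex.ofRealCLM.contDiff.contDiffAt.comp t e2
  · have hni : t ∉ Icc a c := fun hh =>
      h ⟨lt_of_lt_of_le ha hh.1, lt_of_le_of_lt hh.2 hc⟩
    have h1 : ContDiffAt ℝ ∞ (fun _ : ℝ => (0 : ℂ)) t := contDiffAt_const
    refine h1.congr_of_eventuallyEq ?_
    filter_upwards [isClosed_Icc.isOpen_compl.mem_nhds hni] with x hx
    by_contra hbx
    exact hx (hsupp x hbx)

theorem sa_TD3 {b : ℝ → ℂ} (hb : TA b) : sa (TD (TD (TD (bt b)))) = fun t => -LA3 b t := by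
  have h1 : sa (TD (bt b)) = fun t => -LA b t := by rw [sa_TD, sa_bt hb]
  have h2 : sa (TD (TD (bt b))) = LA (LA b) := by
    rw [sa_TD, h1, LA_neg]
    funext t
    rw [neg_neg]
  rw [sa_TD, h2]
  rfl

section

variable {N : ℕ} [NeZero N]

theorem PiA_eq (α : ℝ → ℂ) : PiA N α = ((1 / (4 * Real.pi) : ℝ) : ℂ) • PO N (ag (sa α)) := by
  funext s z
  show (1 / (4 * Real.pi)) * _ = ((1 / (4 * Real.pi) : ℝ) : ℂ) * PO N (ag (sa α)) s z
  unfold PO
  push_cast
  congr 1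
  refine tsum_congr (fun γ => ?_)
  by_cases h : red N γ * s = 1
  · rw [if_pos h, if_pos h]
    unfold ag sa
    push_cast
    rfl
  · rw [if_neg h, if_neg h]

theorem PO_eq {b : ℝ → ℂ} (hb : TA b) : PO N (ag (LA3 b)) =
    ((-(4 * Real.pi) : ℝ) : ℂ) • PiA N (TD (TD (TD (bt b)))) := by
  rw [PiA_eq, sa_TD3 hb, smul_smul]
  have h1 : (((-(4 * Real.pi) : ℝ) : ℂ) * ((1 / (4 * Real.pi) : ℝ) : ℂ)) = -1 := by
    rw [← Complex.ofReal_mul]
    have : (-(4 * Real.pi)) * (1 / (4 * Real.pi)) = (-1 : ℝ) := by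
      field_simp
    rw [this]
    norm_num
  rw [h1]
  funext s z
  show PO N (ag (LA3 b)) s z = (-1) * PO N (ag (fun t => -LA3 b t)) s z
  unfold PO
  rw [← tsum_mul_left]
  refine tsum_congr (fun γ => ?_)
  split_ifs
  · unfold ag
    ring
  · ring

theorem toJOS {f : QN N → ℍ → ℂ} (h : Pool.Agent.JO.SqH f) : SqH f := ⟨h.fam, h.meas, h.sq⟩

theorem toJO {f : QN N → ℍ → ℂ} (h : SqH f) : Pool.Agent.JO.SqH f := ⟨h.fam, h.meas, h.sq⟩

theorem ipH_eq (f g : QN N → ℍ → ℂ) : Pool.Agent.JO.ipH f g = ipH f g := rfl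

theorem sqH_one : SqH (fun (_ : QN N) (_ : ℍ) => (1 : ℂ)) :=
  ⟨fun _ _ _ => rfl, fun _ => measurable_const, fun _ => by
    have : (fun _ : ℍ => ‖(1 : ℂ)‖ ^ 2) = fun _ => (1 : ℝ) := by
      funext z; simp
    rw [this]
    exact integrableOn_const vol_fdo.ne⟩

theorem ip_zero_of_norm {f g : QN N → ℍ → ℂ} (hf : SqH f) (hg : SqH g) (h : ipH g g = 0) :
    ipH f g = 0 := by
  have h1 := ip_norm_le hf hg
  rw [ip_self hg] at h
  have h2 : nH g = 0 := by
    have : (nH g ^ 2 : ℝ) = 0 := by exact_mod_cast h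
    exact pow_eq_zero_iff two_ne_zero |>.1 this
  rw [h2, mul_zero] at h1
  exact norm_le_zero_iff.1 h1

theorem ip_one_of_mean {f : QN N → ℍ → ℂ} (hf : SqH f) (h : meanH f = 0) :
    ipH (fun (_ : QN N) (_ : ℍ) => (1 : ℂ)) f = 0 := by
  have h1 : ipH f (fun (_ : QN N) (_ : ℍ) => (1 : ℂ)) = 0 := by
    unfold meanH at h
    rw [ipH_eq, ipH_eq] at h
    rcases div_eq_zero_iff.1 h with h2 | h2
    · exact h2
    · exact ip_zero_of_norm hf sqH_one h2
  rw [← ip_conj, h1, map_zero]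

theorem ip_add_left {f f' g : QN N → ℍ → ℂ} (hf : SqH f) (hf' : SqH f') (hg : SqH g) :
    ipH (f + f') g = ipH f g + ipH f' g := by
  rw [← ip_conj, ip_add hf hf' hg, map_add, ip_conj, ip_conj]

theorem ip_smul_left (f g : QN N → ℍ → ℂ) (c : ℂ) : ipH (c • f) g = c * ipH f g := by
  rw [← ip_conj, ip_smul, map_mul, Complex.conj_conj, ip_conj]

theorem melL2_congr {c c' : ℝ → ℂ} (h : ∀ y : ℝ, 0 < y → c y = c' y) (κ : ℝ) :
    Pool.Agent.JO.melL2 c κ = Pool.Agent.JO.melL2 c' κ := by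
  have h1 : Pool.Agent.JO.fS (1 / 2) c = Pool.Agent.JO.fS (1 / 2) c' := by
    funext u
    unfold Pool.Agent.JO.fS
    rw [h _ (Real.exp_pos u)]
  unfold Pool.Agent.JO.melL2
  rw [h1]

open Pool.Agent.JO in
/-- weighted integrability of the symbols -/
theorem wi_aM {u : ℍ → ℂ} (hZ : ZfB (Zf N)) (hdec : aMDec N u) {v : ZMod N × ZMod N}
    (hv : v ∈ PV N) (σ : ℝ) : WI (fun κ => aM (N := N) u v κ * Zf N v σ κ) := by
  obtain ⟨C, d, hd, hC⟩ := hZ.sup
  have hm : Measurable (fun κ => aM (N := N) u v κ * Zf N v σ κ) :=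
    (measurable_melL2 _).mul (hZ.meas v σ)
  refine ⟨hm.aestronglyMeasurable, ?_⟩
  have h1 := hdec v hv (Real.pi - 1) (by linarith [Real.pi_gt_three])
  have h1' : Integrable (fun κ : ℝ => ‖aM (N := N) u v κ‖ ^ 2 * Real.exp |κ|) := by
    refine h1.congr (Eventually.of_forall (fun κ => ?_))
    simp only [sub_sub_cancel, one_mul]
  have h2 : Integrable (fun κ : ℝ => Real.exp (-(1 / 2 * |κ|))) :=
    Pool.Agent.SP.f2_int (σ := 1 / 2) (by norm_num)
  have h3 : Integrable (fun κ : ℝ => |C| * (‖aM (N := N) u v κ‖ ^ 2 * Real.exp |κ|) +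
      |C| * (64 * Real.exp (-(1 / 2 * |κ|)))) := (h1'.const_mul _).add ((h2.const_mul _).const_mul _)
  refine h3.mono' ?_ (Eventually.of_forall (fun κ => ?_))
  · exact (hm.norm.mul (by fun_prop)).aestronglyMeasurable
  · have hx : (1:ℝ) ≤ 1 + |κ| := by linarith [abs_nonneg κ]
    have hx0 : (0:ℝ) < 1 + |κ| := by linarith
    have hp : 0 ≤ (1 + |κ|) ^ (1 / 2 : ℝ) := Real.rpow_nonneg hx0.le _
    rw [Real.norm_of_nonneg (mul_nonneg (norm_nonneg _) hp), norm_mul]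
    have e1 : ‖Zf N v σ κ‖ ≤ |C| * (1 + |κ|) ^ (1 / 2 : ℝ) := by
      refine (hC v σ κ).trans ?_
      have h4 : (1 + |κ|) ^ (1 / 2 - d) ≤ (1 + |κ|) ^ (1 / 2 : ℝ) :=
        Real.rpow_le_rpow_of_exponent_le hx (by linarith)
      have h5 : 0 ≤ (1 + |κ|) ^ (1 / 2 - d) := Real.rpow_nonneg hx0.le _
      calc C * (1 + |κ|) ^ (1 / 2 - d) ≤ |C| * (1 + |κ|) ^ (1 / 2 - d) :=
            mul_le_mul_of_nonneg_right (le_abs_self C) h5
        _ ≤ _ := mul_le_mul_of_nonneg_left h4 (abs_nonneg C)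
    have e2 : (1 + |κ|) ^ (1 / 2 : ℝ) * (1 + |κ|) ^ (1 / 2 : ℝ) = 1 + |κ| := by
      rw [← Real.rpow_add hx0]
      norm_num
    have e3 : ‖aM (N := N) u v κ‖ * (1 + |κ|) ≤ ‖aM (N := N) u v κ‖ ^ 2 * Real.exp |κ| +
        64 * Real.exp (-(1 / 2 * |κ|)) := by
      set A := ‖aM (N := N) u v κ‖ with hA
      set x := |κ| with hxx
      have hx00 : 0 ≤ x := abs_nonneg κ
      -- `1 + x ≤ 4 exp (x/4)`
      have g1 : 1 + x ≤ 4 * Real.exp (x / 4) := by
        have := Real.add_one_le_exp (x / 4)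
        linarith
      have g2 : Real.exp x = Real.exp (x / 2) ^ 2 := by
        rw [← Real.exp_nat_mul]; congr 1; push_cast; ring
      have g3 : (A * Real.exp (x / 2)) * (4 * Real.exp (-(x / 4))) = A * (4 * Real.exp (x / 4)) := by
        rw [show A * Real.exp (x / 2) * (4 * Real.exp (-(x / 4))) =
          A * (4 * (Real.exp (x / 2) * Real.exp (-(x / 4)))) by ring, ← Real.exp_add]
        congr 3
        ring
      have g4 : (4 * Real.exp (-(x / 4))) ^ 2 = 16 * Real.exp (-(1 / 2 * x)) := by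
        rw [mul_pow, ← Real.exp_nat_mul]
        norm_num
        ring_nf
      have hA0 : 0 ≤ A := norm_nonneg _
      have g5 : A * (1 + x) ≤ A * (4 * Real.exp (x / 4)) := mul_le_mul_of_nonneg_left g1 hA0
      rw [g2, ← mul_pow]
      nlinarith [sq_nonneg (A * Real.exp (x / 2) - 4 * Real.exp (-(x / 4))),
        Real.exp_pos (-(1 / 2 * x)), sq_nonneg (A * Real.exp (x / 2)), sq_nonneg (4 * Real.exp (-(x / 4)))]
    calc ‖aM (N := N) u v κ‖ * ‖Zf N v σ κ‖ * (1 + |κ|) ^ (1 / 2 : ℝ)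
        ≤ ‖aM (N := N) u v κ‖ * (|C| * (1 + |κ|) ^ (1 / 2 : ℝ)) * (1 + |κ|) ^ (1 / 2 : ℝ) := by
          gcongr
      _ = |C| * (‖aM (N := N) u v κ‖ * ((1 + |κ|) ^ (1 / 2 : ℝ) * (1 + |κ|) ^ (1 / 2 : ℝ))) := by ring
      _ = |C| * (‖aM (N := N) u v κ‖ * (1 + |κ|)) := by rw [e2]
      _ ≤ |C| * (‖aM (N := N) u v κ‖ ^ 2 * Real.exp |κ| + 64 * Real.exp (-(1 / 2 * |κ|))) :=
          mul_le_mul_of_nonneg_left e3 (abs_nonneg _)
      _ = _ := by ring

theorem cH_add_const {φ : QN N → ℍ → ℂ} (hφc : ∀ s, Continuous (φ s)) (μ : ℂ)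
    {v : ZMod N × ZMod N} (hv : v ∈ PV N) {y : ℝ} (hy : 0 < y) :
    cH (φ + (-μ) • (fun (_ : QN N) (_ : ℍ) => (1 : ℂ))) v y = cH φ v y - μ := by
  have h1 := Pool.Agent.JO.ch_one (N := N) hv hy (-μ)
  have hc : Continuous (fun t : ℝ => UpperHalfPlane.ofComplex ((t : ℂ) + y * Complex.I)) := by
    rw [continuous_iff_continuousAt]
    intro t
    have h2 : 0 < ((t : ℂ) + y * Complex.I).im := by simpa using hy
    have h3 : ContinuousAt (fun z : ℂ => (UpperHalfPlane.ofComplex z : ℍ)) ((t : ℂ) + y * Complex.I) :=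
      UpperHalfPlane.contMDiffAt_ofComplex (n := 0) h2 |>.continuousAt
    exact ContinuousAt.comp (f := fun t : ℝ => ((t : ℂ) + y * Complex.I)) h3
      (by fun_prop)
  have h5 : cH φ v y - μ = cH φ v y + cH (N := N) (fun _ _ => -μ) v y := by
    rw [h1, sub_eq_add_neg]
  rw [h5]
  unfold cH
  rw [← mul_add, ← Finset.sum_add_distrib]
  congr 1
  refine Finset.sum_congr rfl (fun s _ => ?_)
  split_ifs with hs
  · rw [← intervalIntegral.integral_add]
    · congr 1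
      funext t
      show φ s _ + (-μ) * 1 = φ s _ + (-μ)
      rw [mul_one]
    · exact ((hφc s).comp hc).intervalIntegrable _ _
    · exact intervalIntegrable_const
  · rw [add_zero]

open Pool.Agent.JO in
/-- the general consequence of the main identity of part E6: for a square integrable family `φ` with
ray function `F`, the function `F` minus the continuous part is paired with the cuspidal part -/
theorem e6_pair {φ : QN N → ℍ → ℂ} (hφ : SqH φ) (hφc : ∀ s, Continuous (φ s)) {F : ℝ → ℂ}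
    (hpF : ∀ b, TA b → ipH φ (PO N (ag (LA3 b))) = 2 * PR F (LA3 b)) :
    ∃ g : VF N, (∀ b, TA b → SqH (PO N (ag (LA3 b)))) ∧
      ∀ b, TA b → ipH g.1 (PO N (ag (LA3 b))) = 2 * PR F (LA3 b) -
        2 * ∑ i ∈ PV N ×ˢ (Finset.univ : Finset Bool),
          ∫ κ : ℝ, (melL2 (fun y => cH φ i.1 y - meanH φ) κ * Zf N i.1 (if i.2 then 1 else -1) κ) *
            ∫ t in Ioo 0 Real.pi, HJ (if i.2 then 1 else -1) κ t * conj (LA3 b t) /
              ((Real.sin t ^ 2 : ℝ) : ℂ) := by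
  set μ : ℂ := meanH φ with hμ
  set f : QN N → ℍ → ℂ := φ + (-μ) • (fun (_ : QN N) (_ : ℍ) => (1 : ℂ)) with hf
  have hfS : SqH f := hφ.add (sqH_one.smul _)
  have hf0 : meanH f = 0 := by
    unfold meanH
    rw [ipH_eq, ipH_eq, hf, ip_add_left hφ (sqH_one.smul _) sqH_one, ip_smul_left]
    by_cases h1 : ipH (fun (_ : QN N) (_ : ℍ) => (1 : ℂ)) (fun (_ : QN N) (_ : ℍ) => (1 : ℂ)) = 0
    · rw [h1, div_zero]
    · have h2 : μ * ipH (fun (_ : QN N) (_ : ℍ) => (1 : ℂ)) (fun (_ : QN N) (_ : ℍ) => (1 : ℂ)) =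
          ipH φ (fun (_ : QN N) (_ : ℍ) => (1 : ℂ)) := by
        rw [hμ]
        unfold meanH
        rw [ipH_eq, ipH_eq, div_mul_cancel₀ _ h1]
      rw [neg_mul, h2, add_neg_cancel, zero_div]
  obtain ⟨g, hg, hg0, hgc, hE⟩ := e6_main (toJO hfS) hf0
  have hgS := toJOS hg
  refine ⟨⟨g, hgS, cusp_of_cH hgS hgc⟩, fun b hb => ?_, fun b hb => ?_⟩
  · rw [PO_eq hb]
    exact (toJOS (hE _ (bt_TB hb)).1).smul _
  · obtain ⟨h1, h2, h3⟩ := hE _ (bt_TB hb)
    set P : QN N → ℍ → ℂ := PiA N (TD (TD (TD (bt b)))) with hP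
    have hPS : SqH P := toJOS h1
    -- the pairing of `f`
    have e1 : ipH f (PO N (ag (LA3 b))) = 2 * PR F (LA3 b) := by
      have hPO : SqH (PO N (ag (LA3 b))) := by
        rw [PO_eq hb]
        exact hPS.smul _
      rw [hf, ip_add_left hφ (sqH_one.smul _) hPO, hpF b hb, ip_smul_left, PO_eq hb, ip_smul,
        ip_one_of_mean hPS h2]
      ring
    have e2 : ∀ q : QN N → ℍ → ℂ, ipH q (PO N (ag (LA3 b))) = -(4 * Real.pi) * ipH q P := by
      intro q
      rw [PO_eq hb, ip_smul, Complex.conj_ofReal]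
      push_cast
      ring
    have e3 : ∀ (v : ZMod N × ZMod N), v ∈ PV N → ∀ κ : ℝ,
        melL2 (cH f v) κ = melL2 (fun y => cH φ v y - μ) κ := by
      intro v hv κ
      refine melL2_congr (fun y hy => ?_) κ
      rw [hf, cH_add_const hφc μ hv hy]
    have e4 : ∀ σ κ : ℝ, ∫ θ in Ioo 0 Real.pi, HJ σ κ (θ : ℂ) * conj (TD (TD (TD (bt b))) θ) =
        -∫ t in Ioo 0 Real.pi, HJ σ κ t * conj (LA3 b t) / ((Real.sin t ^ 2 : ℝ) : ℂ) := by
      intro σ κ
      rw [← integral_neg]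
      refine setIntegral_congr_fun measurableSet_Ioo (fun t ht => ?_)
      have h4 := congrFun (sa_TD3 hb) t
      unfold sa at h4
      have hs : ((Real.sin t ^ 2 : ℝ) : ℂ) ≠ 0 := by
        have := sin_pos_pi ht
        exact_mod_cast (by positivity : (Real.sin t ^ 2 : ℝ) ≠ 0)
      have h5 : LA3 b t = -(((Real.sin t ^ 2 : ℝ) : ℂ) * TD (TD (TD (bt b))) t) := by
        rw [h4, neg_neg]
      rw [h5, map_neg, map_mul, Complex.conj_ofReal]
      field_simp
    rw [ipH_eq, ipH_eq] at h3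
    have e5 : ipH g (PO N (ag (LA3 b))) = ipH f (PO N (ag (LA3 b))) + 2 *
        ∑ v ∈ PV N, ((∫ κ : ℝ, melL2 (cH f v) κ * Zf N v 1 κ *
              ∫ θ in Ioo 0 Real.pi, HJ 1 κ (θ : ℂ) * conj (TD (TD (TD (bt b))) θ)) +
            ∫ κ : ℝ, melL2 (cH f v) κ * Zf N v (-1) κ *
              ∫ θ in Ioo 0 Real.pi, HJ (-1) κ (θ : ℂ) * conj (TD (TD (TD (bt b))) θ)) := by
      rw [e2 g, e2 f]
      linear_combination (2 : ℂ) * h3
    show ipH g (PO N (ag (LA3 b))) = _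
    rw [e5, e1, Finset.sum_product, sub_eq_add_neg, ← mul_neg, ← Finset.sum_neg_distrib]
    congr 2
    refine Finset.sum_congr rfl (fun v hv => ?_)
    rw [Fintype.sum_bool, neg_add]
    simp only [if_true, Bool.false_eq_true, if_false]
    congr 1
    · rw [← integral_neg]
      congr 1
      funext κ
      rw [e3 v hv, e4]
      ring
    · rw [← integral_neg]
      congr 1
      funext κ
      rw [e3 v hv, e4]
      ring

theorem cont_phi {χ : DirichletCharacter ℂ N} {k : ℕ} {lam : ℕ → ℂ}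
    {u : ℍ → ℂ} (hu : Pool.Agent.JO.WForm N χ k lam u) (s : QN N) :
    Continuous (Pool.Agent.JO.phiF (N := N) u s) := by
  unfold Pool.Agent.JO.phiF
  have h1 : Continuous (fun z : ℍ => (Pool.Agent.JO.lft s)⁻¹ • z) :=
    continuous_const_smul (Matrix.SpecialLinearGroup.mapGL ℝ (Pool.Agent.JO.lft s)⁻¹)
  exact Complex.continuous_ofReal.comp ((hu.cont.comp h1).norm.pow 2)

open Pool.Agent.JO in
/-- **the target statement of part S for holomorphic forms** -/
theorem se_hol (hZ : ZfB (Zf N)) : SEHol N (Zf N) := by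
  intro χ k lam u hu hdec a b hasym
  have hF := rayF_cont hu
  have hφ : SqH (phiF (N := N) u) := sqH_phi hu
  obtain ⟨g, hS, hp⟩ := e6_pair hφ (cont_phi hu) (fun b hb => ip_phi hu hb.la3)
  -- the symbols
  set I : Finset ((ZMod N × ZMod N) × Bool) := PV N ×ˢ (Finset.univ : Finset Bool) with hI
  set σ : (ZMod N × ZMod N) × Bool → ℝ := fun i => if i.2 then 1 else -1 with hσ
  set m : (ZMod N × ZMod N) × Bool → ℝ → ℂ := fun i κ => aM (N := N) u i.1 κ * Zf N i.1 (σ i) κ with hm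
  have hσ2 : ∀ i ∈ I, σ i ^ 2 = 1 := by
    intro i _
    rw [hσ]
    simp only
    split_ifs <;> norm_num
  have hmW : ∀ i ∈ I, WI (m i) := fun i hi => wi_aM hZ hdec (Finset.mem_product.1 hi).1 (σ i)
  have haM : ∀ v κ, aM (N := N) u v κ = melL2 (fun y => cH (phiF (N := N) u) v y - meanH (phiF (N := N) u)) κ := by
    intro v κ
    unfold aM
    refine melL2_congr (fun y hy => ?_) κ
    have hx : (Complex.I / ((√y : ℝ) : ℂ)) ≠ 0 := by
      refine div_ne_zero Complex.I_ne_zero ?_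
      exact_mod_cast (Real.sqrt_pos.2 hy).ne'
    rw [CF_liftH _ hx, (liftH_sq (toJO hφ)).2.1]
    congr 2
    rw [Complex.normSq_div, Complex.normSq_I, Complex.normSq_ofReal, Real.mul_self_sqrt hy.le]
    simp
  have hp' : ∀ b, TA b → ipH g.1 (PO N (ag (LA3 b))) =
      2 * PR (fun θ => rayF u θ - ∑ i ∈ I, fcc (σ i) (m i) θ) (LA3 b) := by
    intro b hb
    rw [hp b hb]
    have h1 : ∀ i ∈ I, (∫ κ : ℝ, (melL2 (fun y => cH (phiF (N := N) u) i.1 y -
        meanH (phiF (N := N) u)) κ * Zf N i.1 (if i.2 then 1 else -1) κ) *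
            ∫ t in Ioo 0 Real.pi, HJ (if i.2 then 1 else -1) κ t * conj (LA3 b t) /
              ((Real.sin t ^ 2 : ℝ) : ℂ)) = PR (fcc (σ i) (m i)) (LA3 b) := by
      intro i hi
      have e1 := fc_pair (hσ2 i hi) (hmW i hi).integrable hb.la3
      refine Eq.trans ?_ e1
      refine integral_congr_ae (Eventually.of_forall (fun κ => ?_))
      show (melL2 (fun y => cH (phiF (N := N) u) i.1 y - meanH (phiF (N := N) u)) κ *
        Zf N i.1 (σ i) κ) * _ = (aM (N := N) u i.1 κ * Zf N i.1 (σ i) κ) * _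
      rw [haM]
    rw [Finset.sum_congr rfl h1]
    have h2 : PR (fun θ => rayF u θ - ∑ i ∈ I, fcc (σ i) (m i) θ) (LA3 b) =
        PR (rayF u) (LA3 b) - ∑ i ∈ I, PR (fcc (σ i) (m i)) (LA3 b) := by
      unfold PR
      have hc : ∀ i ∈ I, ContinuousOn (fcc (σ i) (m i)) (Ioo 0 Real.pi) := fun i hi =>
        fc_cont (hσ2 i hi) (hmW i hi).integrable
      rw [← integral_finsetSum _ (fun i hi => PR_int (hc i hi) hb.la3),
        ← integral_sub (PR_int hF hb.la3) (integrable_finsetSum _ (fun i hi =>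
          PR_int (hc i hi) hb.la3))]
      congr 1
      funext t
      rw [sub_mul, Finset.sum_mul, sub_div, Finset.sum_div]
    rw [h2]
    ring
  have ho : (fun θ => rayF u θ - (((-a : ℝ) : ℂ) * (Real.log θ : ℂ) + (b : ℂ))) =o[𝓝[>] 0]
      (fun θ : ℝ => θ ^ (1 / 2 : ℝ)) := by
    refine hasym.congr (fun θ => ?_) (fun θ => Real.sqrt_eq_rpow θ)
    rw [Real.log_inv]
    push_cast
    ring
  have hExt := hol_out g hS hF ho I σ hσ2 m hmW hp'
  obtain ⟨R, h1, h2, h3⟩ := ext_concl hExt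
  refine ⟨R, h1, fun θ hθ => ?_, h3⟩
  rw [h2 θ hθ]
  unfold Fct
  have h4 : ∑ i ∈ I, fcc (σ i) (m i) θ = ∑ v ∈ PV N, ((∫ κ : ℝ, aM (N := N) u v κ * Zf N v 1 κ * HJ 1 κ θ) +
    ∫ κ : ℝ, aM (N := N) u v κ * Zf N v (-1) κ * HJ (-1) κ θ) := by
    rw [hI, Finset.sum_product]
    refine Finset.sum_congr rfl (fun v _ => ?_)
    rw [Fintype.sum_bool]
    rfl
  rw [← h4]
  ring

end

end Pool.Agent.JOS
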