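import Pool.Agent.Lib_helper58.JOS.Base
import Pool.Agent.Lib_helper58.SP.Two
import Pool.Agent.Lib_helper58.JOSF.Defs2
import Pool.Agent.Lib_helper58.JOSF.ODX

/-! # JO, part S: all statements of the first call are proved in the imported files -/
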