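import Pool.Agent.Lib_helper58.JOS.Pai
import Pool.Agent.Lib_helper37.JO.A12
import Pool.Agent.Lib_helper84.JO.SETop
import Pool.Agent.Lib_helper97.JO.HK
import Pool.Agent.Lib_helper63.JO.WO
import Pool.Agent.Lib_helper58.JOSF.DefsT
import Pool.Agent.Lib_helper58.JOSF.EXT
import Pool.Agent.Lib_helper58.JOSF.FDC
import Pool.Agent.Lib_helper58.JOSF.EIG
import Pool.Agent.Lib_helper58.JOSF.FUB
import Pool.Agent.Lib_helper58.JOSF.UNP
import Pool.Agent.Lib_helper58.JOSF.LNK

/-! # JO, part S: all statements of the second call are proved in the imported files -/
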